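import Pool.Agent.T9h42.JB.Gen
import Pool.Agent.Y933.KE.Smear

/-!
# Finite families of vectors of natural numbers, each coordinate with its own base
-/

set_option autoImplicit false
set_option linter.unusedSectionVars false

namespace Pool.Agent.T9h42.JB

open Finset Real MeasureTheory
open scoped ENNReal
open Pool.Agent.Y933.KD
open Pool.Agent.Y933.KE (wd_smear int_e_le)

variable {ι : Type*} {R : Type} [Fintype R] [DecidableEq R]

/-- independent random real numbers in `[0, 1)` -/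
noncomputable def LebR (R : Type) [Fintype R] : Measure (R → ℝ) := Measure.pi fun _ => Leb

instance : IsProbabilityMeasure (LebR R) := by unfold LebR; infer_instance

/-- integers as real numbers -/
noncomputable def pt (X b J : R → ℕ) (θ : R → ℝ) : R → ℝ :=
  fun ρ => ((X ρ : ℝ) + θ ρ) / (b ρ : ℝ) ^ J ρ

omit [Fintype R] [DecidableEq R] in
lemma measurable_pt (X b J : R → ℕ) : Measurable (pt X b J) := by
  unfold pt
  exact measurable_pi_lambda _ fun ρ => ((measurable_pi_apply ρ).const_add _).div_const _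

/-- the law of a random element of a family, made smooth -/
noncomputable def FM (T : Finset ι) (X : ι → R → ℕ) (b J : R → ℕ) : Measure (R → ℝ) :=
  (T.card : ℝ≥0∞)⁻¹ • ∑ m ∈ T, (LebR R).map (pt (X m) b J)

omit [DecidableEq R] in
lemma FM_prob {T : Finset ι} (hT : T.Nonempty) (X : ι → R → ℕ) (b J : R → ℕ) :
    IsProbabilityMeasure (FM T X b J) := by
  refine ⟨?_⟩
  unfold FM
  rw [Measure.smul_apply, Measure.finsetSum_apply]
  have h1 : ∀ m ∈ T, ((LebR R).map (pt (X m) b J)) Set.univ = 1 := by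
    intro m _
    have := Measure.isProbabilityMeasure_map (μ := LebR R) (measurable_pt (X m) b J).aemeasurable
    exact measure_univ
  rw [sum_congr rfl h1]
  simp only [sum_const, smul_eq_mul, nsmul_eq_mul, mul_one]
  refine ENNReal.inv_mul_cancel ?_ (ENNReal.natCast_ne_top _)
  exact_mod_cast (Finset.card_pos.2 hT).ne'

omit [DecidableEq R] in
lemma integral_FM (T : Finset ι) (X : ι → R → ℕ) (b J : R → ℕ) {f : (R → ℝ) → ℂ}
    (hf : Measurable f) {C : ℝ} (hC : ∀ x, ‖f x‖ ≤ C) :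
    ∫ x, f x ∂(FM T X b J) = (1 / T.card) * ∑ m ∈ T, ∫ θ, f (pt (X m) b J θ) ∂(LebR R) := by
  unfold FM
  rw [integral_smul_measure, integral_finsetSum_measure]
  · have h1 : ∀ m ∈ T, ∫ x, f x ∂((LebR R).map (pt (X m) b J)) =
        ∫ θ, f (pt (X m) b J θ) ∂(LebR R) := fun m _ =>
      integral_map (measurable_pt (X m) b J).aemeasurable hf.aestronglyMeasurable
    rw [sum_congr rfl h1]
    simp only [ENNReal.toReal_inv, ENNReal.toReal_natCast]
    rw [Complex.real_smul]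
    push_cast
    rw [one_div]
  · intro m _
    have := Measure.isProbabilityMeasure_map (μ := LebR R) (measurable_pt (X m) b J).aemeasurable
    exact Integrable.of_bound hf.aestronglyMeasurable C (Filter.Eventually.of_forall hC)

/-- characters of independent random real numbers -/
lemma int_LebR_e (a : R → ℝ) : ∫ θ, e (∑ ρ, a ρ * θ ρ) ∂(LebR R) = ∏ ρ, ∫ x, e (a ρ * x) ∂Leb := by
  unfold LebR
  have h1 : ∀ θ : R → ℝ, e (∑ ρ, a ρ * θ ρ) = ∏ ρ, e (a ρ * θ ρ) := fun θ => e_sum _ _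
  simp only [h1]
  exact integral_fintype_prod_eq_prod (μ := fun _ : R => Leb) (fun ρ x => e (a ρ * x))

/-- the sum of the terms of one row -/
def row {k : ℕ} (b : R → ℕ) (r : Fin k → R) (n : Fin k → ℕ) (h : Fin k → ℤ) (ρ : R) : ℤ :=
  ∑ i, if r i = ρ then h i * (b ρ : ℤ) ^ n i else 0

lemma row_sum {k : ℕ} (b : R → ℕ) (r : Fin k → R) (n : Fin k → ℕ) (h : Fin k → ℤ) (x : R → ℝ) :
    ∑ i, (h i : ℝ) * ((b (r i) : ℝ) ^ n i * x (r i)) = ∑ ρ, (row b r n h ρ : ℝ) * x ρ := by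
  unfold row
  push_cast
  simp only [sum_mul]
  rw [sum_comm]
  refine sum_congr rfl fun i _ => ?_
  rw [sum_eq_single (r i)]
  · rw [if_pos rfl]; ring
  · intro ρ _ hρ
    rw [if_neg (fun h => hρ h.symm), zero_mul]
  · intro hi
    exact absurd (mem_univ _) hi

/-- the multiples of the coordinates -/
noncomputable def Yc {k : ℕ} (b : R → ℕ) (r : Fin k → R) (n : Fin k → ℕ) (i : Fin k) (x : R → ℝ) :
    ℝ := (b (r i) : ℝ) ^ n i * x (r i)

omit [Fintype R] [DecidableEq R] in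
lemma measurable_Yc {k : ℕ} (b : R → ℕ) (r : Fin k → R) (n : Fin k → ℕ) (i : Fin k) :
    Measurable (Yc b r n i) := by
  unfold Yc
  exact (measurable_pi_apply (r i)).const_mul _

lemma hv_FM {k : ℕ} (T : Finset ι) (X : ι → R → ℕ) (b J : R → ℕ) (r : Fin k → R) (n : Fin k → ℕ)
    (h : Fin k → ℤ) : hv (FM T X b J) (Yc b r n) h =
      ((1 / T.card) * ∑ m ∈ T, e (∑ ρ, (row b r n h ρ : ℝ) / (b ρ : ℝ) ^ J ρ * X m ρ)) *
        ∏ ρ, ∫ θ, e ((row b r n h ρ : ℝ) / (b ρ : ℝ) ^ J ρ * θ) ∂Leb := by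
  unfold hv
  have hm : Measurable fun x : R → ℝ => e (∑ i, (h i : ℝ) * Yc b r n i x) :=
    measurable_e.comp (Finset.measurable_fun_sum _ fun i _ => (measurable_Yc b r n i).const_mul _)
  rw [integral_FM T X b J hm (C := 1) (fun x => (norm_e _).le)]
  have h1 : ∀ m ∈ T, ∫ θ, e (∑ i, (h i : ℝ) * Yc b r n i (pt (X m) b J θ)) ∂(LebR R) =
      e (∑ ρ, (row b r n h ρ : ℝ) / (b ρ : ℝ) ^ J ρ * X m ρ) *
        ∏ ρ, ∫ θ, e ((row b r n h ρ : ℝ) / (b ρ : ℝ) ^ J ρ * θ) ∂Leb := by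
    intro m _
    rw [← int_LebR_e, ← integral_const_mul]
    congr 1
    funext θ
    rw [← e_add]
    congr 1
    unfold Yc
    rw [row_sum b r n h (pt (X m) b J θ), ← sum_add_distrib]
    refine sum_congr rfl fun ρ _ => ?_
    unfold pt
    ring
  rw [sum_congr rfl h1, ← sum_mul, ← mul_assoc]

lemma prod_int_le (a : R → ℝ) : ‖∏ ρ, ∫ θ, e (a ρ * θ) ∂Leb‖ ≤ 1 := by
  rw [norm_prod]
  exact prod_le_one (fun ρ _ => norm_nonneg _) fun ρ _ => int_e_le _

lemma hv_FM_le {k : ℕ} (T : Finset ι) (X : ι → R → ℕ) (b J : R → ℕ) (r : Fin k → R)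
    (n : Fin k → ℕ) (h : Fin k → ℤ) : ‖hv (FM T X b J) (Yc b r n) h‖ ≤
      1 / T.card * ‖∑ m ∈ T, e (∑ ρ, (row b r n h ρ : ℝ) / (b ρ : ℝ) ^ J ρ * X m ρ)‖ := by
  rw [hv_FM, norm_mul, norm_mul, norm_div, norm_one, Complex.norm_natCast]
  have h1 := prod_int_le (fun ρ => (row b r n h ρ : ℝ) / (b ρ : ℝ) ^ J ρ)
  exact mul_le_of_le_one_right (by positivity) h1

/-- resonant coefficients vanish -/
lemma hv_FM_zero {k : ℕ} (T : Finset ι) (X : ι → R → ℕ) {b : R → ℕ} (J : R → ℕ) (r : Fin k → R)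
    (n : Fin k → ℕ) (h : Fin k → ℤ) (ρ : R) (hb : 1 ≤ b ρ) (h0 : row b r n h ρ ≠ 0)
    (hd : (b ρ : ℤ) ^ J ρ ∣ row b r n h ρ) : hv (FM T X b J) (Yc b r n) h = 0 := by
  rw [hv_FM, prod_eq_zero (mem_univ ρ), mul_zero]
  obtain ⟨t, ht⟩ := hd
  have hb' : (b ρ : ℝ) ^ J ρ ≠ 0 := by positivity
  have ht0 : t ≠ 0 := by
    rintro rfl
    exact h0 (by rw [ht, mul_zero])
  have h1 : (row b r n h ρ : ℝ) / (b ρ : ℝ) ^ J ρ = t := by
    rw [ht]
    push_cast
    field_simp
  rw [h1]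
  exact hat_Leb t ht0

lemma hv_LebR {k : ℕ} (b : R → ℕ) (r : Fin k → R) (n : Fin k → ℕ) (h : Fin k → ℤ) :
    hv (LebR R) (Yc b r n) h = if ∀ ρ, row b r n h ρ = 0 then 1 else 0 := by
  unfold hv
  have h1 : ∀ x : R → ℝ, e (∑ i, (h i : ℝ) * Yc b r n i x) =
      e (∑ ρ, (row b r n h ρ : ℝ) * x ρ) := fun x => by
    unfold Yc
    rw [row_sum b r n h x]
  simp only [h1]
  rw [int_LebR_e]
  split_ifs with h2
  · refine prod_eq_one fun ρ _ => ?_
    rw [h2 ρ]
    simp [e_zero]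
  · push Not at h2
    obtain ⟨ρ, hρ⟩ := h2
    exact prod_eq_zero (mem_univ ρ) (hat_Leb _ hρ)

lemma hv_FM_one {k : ℕ} {T : Finset ι} (hT : T.Nonempty) (X : ι → R → ℕ) (b J : R → ℕ)
    (r : Fin k → R) (n : Fin k → ℕ) (h : Fin k → ℤ) (h0 : ∀ ρ, row b r n h ρ = 0) :
    hv (FM T X b J) (Yc b r n) h = 1 := by
  rw [hv_FM]
  have hT0 : (T.card : ℂ) ≠ 0 := by exact_mod_cast (Finset.card_pos.2 hT).ne'
  simp only [h0, Int.cast_zero, zero_div, zero_mul, sum_const_zero, e_zero]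
  simp
  field_simp

/-- words in several bases -/
def WR {k : ℕ} (b : R → ℕ) (r : Fin k → R) (n w c : Fin k → ℕ) : Set (R → ℝ) :=
  {x | ∀ i, wd (b (r i)) (w i) (n i) (x (r i)) = c i}

omit [Fintype R] [DecidableEq R] in
lemma measurableSet_WR {k : ℕ} (b : R → ℕ) (r : Fin k → R) (n w c : Fin k → ℕ) :
    MeasurableSet (WR b r n w c) := by
  unfold WR
  rw [Set.ofPred_forall]
  exact MeasurableSet.iInter fun i => measurableSet_eq_fun
    ((measurable_wd _ _ _).comp (measurable_pi_apply (r i))) measurable_const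

omit [DecidableEq R] in
/-- probabilities of events which do not depend on the smoothing are proportions -/
lemma real_FM {T : Finset ι} (X : ι → R → ℕ) (b J : R → ℕ) {E : Set (R → ℝ)}
    (hE : MeasurableSet E) (p : ι → Prop) [DecidablePred p]
    (hp : ∀ m ∈ T, ∀ θ : R → ℝ, (∀ ρ, θ ρ ∈ Set.Ico (0 : ℝ) 1) → (pt (X m) b J θ ∈ E ↔ p m)) :
    (FM T X b J).real E = (T.filter p).card / T.card := by
  unfold FM Measure.real
  rw [Measure.smul_apply, Measure.finsetSum_apply]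
  have hae : ∀ᵐ θ ∂(LebR R), ∀ ρ, θ ρ ∈ Set.Ico (0 : ℝ) 1 := by
    rw [MeasureTheory.ae_all_iff]
    intro ρ
    have h1 : ∀ᵐ x ∂Leb, x ∈ Set.Ico (0 : ℝ) 1 := by
      unfold Leb
      exact ae_restrict_mem measurableSet_Ico
    have h2 : (LebR R).map (fun θ => θ ρ) = Leb := by
      unfold LebR
      exact (measurePreserving_eval (fun _ : R => Leb) ρ).map_eq
    rw [← h2] at h1
    exact ae_of_ae_map (measurable_pi_apply ρ).aemeasurable h1
  have h1 : ∀ m ∈ T, ((LebR R).map (pt (X m) b J)) E = if p m then 1 else 0 := by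
    intro m hm
    rw [Measure.map_apply (measurable_pt _ _ _) hE]
    split_ifs with h
    · rw [prob_compl_eq_zero_iff ((measurable_pt _ _ _) hE) |>.symm]
      rw [← mem_ae_iff]
      filter_upwards [hae] with θ hθ
      exact (hp m hm θ hθ).2 h
    · rw [measure_eq_zero_iff_ae_notMem]
      filter_upwards [hae] with θ hθ
      exact fun h3 => h ((hp m hm θ hθ).1 h3)
  have h2 : ∑ m ∈ T, (if p m then 1 else 0 : ℝ≥0∞) = (T.filter p).card := by
    rw [card_filter]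
    push_cast
    rfl
  rw [sum_congr rfl h1, h2]
  simp only [smul_eq_mul, ENNReal.toReal_mul, ENNReal.toReal_inv, ENNReal.toReal_natCast]
  rw [div_eq_inv_mul]

end Pool.Agent.T9h42.JB
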