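import Pool.Agent.T9h42.JB.Fam

/-!
# Tests on words in several bases for finite families
-/

set_option autoImplicit false
set_option linter.unusedSectionVars false

namespace Pool.Agent.T9h42.JB

open Finset Real MeasureTheory
open scoped ENNReal
open Pool.Agent.Y933.KD
open Pool.Agent.Y933.KE (wd_smear int_e_le)

variable {ι : Type*} {R : Type} [Fintype R] [DecidableEq R]

lemma prod_ind_WR {k : ℕ} {b : R → ℕ} (hb : ∀ ρ, 1 ≤ b ρ) (r : Fin k → R) (n w c : Fin k → ℕ)
    (x : R → ℝ) : ∏ i, ind ((c i : ℝ) / (b (r i) : ℝ) ^ w i) (((c i : ℝ) + 1) / (b (r i) : ℝ) ^ w i)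
      (Yc b r n i x) = (WR b r n w c).indicator 1 x := by
  by_cases hx : x ∈ WR b r n w c
  · rw [Set.indicator_of_mem hx, Pi.one_apply]
    refine prod_eq_one fun i _ => ?_
    unfold ind
    rw [if_pos]
    exact (wd_eq_iff (hb _) _).1 (hx i)
  · rw [Set.indicator_of_notMem hx]
    have h1 : ∃ i, ¬ wd (b (r i)) (w i) (n i) (x (r i)) = c i := by
      by_contra hcon
      push Not at hcon
      exact hx hcon
    obtain ⟨i, hi⟩ := h1
    refine prod_eq_zero (mem_univ i) ?_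
    unfold ind
    rw [if_neg]
    rw [wd_eq_iff (hb _)] at hi
    exact hi

lemma int_ind_WR {k : ℕ} {b : R → ℕ} (hb : ∀ ρ, 1 ≤ b ρ) (r : Fin k → R) (n w c : Fin k → ℕ)
    (P : Measure (R → ℝ)) [IsProbabilityMeasure P] :
    ∫ x, ∏ i, ind ((c i : ℝ) / (b (r i) : ℝ) ^ w i) (((c i : ℝ) + 1) / (b (r i) : ℝ) ^ w i)
      (Yc b r n i x) ∂P = P.real (WR b r n w c) := by
  rw [← integral_indicator_one (measurableSet_WR b r n w c)]
  exact integral_congr_ae (Filter.Eventually.of_forall fun x => prod_ind_WR hb r n w c x)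

lemma int_single_Leb {k : ℕ} {b : R → ℕ} (hb : ∀ ρ, 1 ≤ b ρ) (r : Fin k → R) (n : Fin k → ℕ)
    (i : Fin k) (h : ℤ) (hh : h ≠ 0) : ∫ x, e (h * Yc b r n i x) ∂(LebR R) = 0 := by
  unfold Yc
  have h1 : ∫ x : R → ℝ, e (h * ((b (r i) : ℝ) ^ n i * x (r i))) ∂(LebR R) =
      ∫ y, e (((h * (b (r i) : ℤ) ^ n i : ℤ) : ℝ) * y) ∂Leb := by
    unfold LebR
    have h2 := integral_comp_eval (μ := fun _ : R => Leb) (i := r i)
      (f := fun y : ℝ => e (((h * (b (r i) : ℤ) ^ n i : ℤ) : ℝ) * y))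
      (measurable_e.comp (measurable_const_mul _)).aestronglyMeasurable
    rw [← h2]
    congr 1
    funext x
    congr 1
    push_cast
    ring
  rw [h1]
  refine hat_Leb _ (mul_ne_zero hh (pow_ne_zero _ ?_))
  have := hb (r i)
  omega

lemma WR_empty {k : ℕ} {b : R → ℕ} (hb : ∀ ρ, 1 ≤ b ρ) {r : Fin k → R} {n w c : Fin k → ℕ}
    {i : Fin k} (hi : b (r i) ^ w i ≤ c i) : WR b r n w c = ∅ := by
  rw [Set.eq_empty_iff_forall_notMem]
  intro x hx
  have h1 := hx i
  have h2 := wd_lt (hb (r i)) (w i) (n i) (x (r i))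
  omega

/-- words of the members of a family -/
theorem fam_test {k : ℕ} {τ : ℝ} (hτ : 0 ≤ τ) {T : Finset ι} (hT : T.Nonempty) (X : ι → R → ℕ)
    {b : R → ℕ} (hb : ∀ ρ, 1 ≤ b ρ) (J : R → ℕ) (r : Fin k → R) (n w c : Fin k → ℕ)
    (hn : ∀ i, n i + w i ≤ J (r i))
    (hF : ∀ h : Fin k → ℤ, (∀ i, |(h i : ℝ)| ≤ exp τ) → (∃ ρ, row b r n h ρ ≠ 0) →
      (∃ ρ, row b r n h ρ ≠ 0 ∧ (b ρ : ℤ) ^ J ρ ∣ row b r n h ρ) ∨
      1 / T.card * ‖∑ m ∈ T, e (∑ ρ, (row b r n h ρ : ℝ) / (b ρ : ℝ) ^ J ρ * X m ρ)‖ ≤ exp (-τ))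
    (p : ι → Prop) [DecidablePred p]
    (hp : ∀ m ∈ T, (p m ↔ ∀ i, X m (r i) / b (r i) ^ (J (r i) - (n i + w i)) %
      b (r i) ^ w i = c i)) :
    |((T.filter p).card : ℝ) / T.card - (LebR R).real (WR b r n w c)| ≤
      (3 ^ k + k * 29) * exp (-(τ / (3 * k + 4))) := by
  have hprob := FM_prob hT X b J
  have e1 : ((T.filter p).card : ℝ) / T.card = (FM T X b J).real (WR b r n w c) := by
    rw [real_FM X b J (measurableSet_WR b r n w c) p]
    intro m hm θ hθ
    rw [hp m hm]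
    unfold WR pt
    simp only [Set.mem_ofPred_eq]
    refine forall_congr' fun i => ?_
    rw [wd_smear (hb (r i)) (hn i) (X m (r i)) (hθ (r i))]
  rw [e1]
  have hpos : (0 : ℝ) ≤ (3 ^ k + (k : ℝ) * 29) * exp (-(τ / (3 * k + 4))) := by positivity
  by_cases hc : ∀ i, c i < b (r i) ^ w i
  · have key := test_exp hτ (FM T X b J) (LebR R) (fun i => measurable_Yc b r n i)
      (fun i => measurable_Yc b r n i) (fun i h hh => int_single_Leb hb r n i h hh)
      (fun h hh => by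
        by_cases h0 : ∀ ρ, row b r n h ρ = 0
        · rw [hv_FM_one hT X b J r n h h0, hv_LebR, if_pos h0, sub_self, norm_zero]
          exact (exp_pos _).le
        · rw [hv_LebR, if_neg h0, sub_zero]
          push Not at h0
          rcases hF h hh h0 with ⟨ρ, h1, h2⟩ | h1
          · rw [hv_FM_zero T X J r n h ρ (hb ρ) h1 h2, norm_zero]
            exact (exp_pos _).le
          · exact (hv_FM_le T X b J r n h).trans h1)
      (fun i => (c i : ℝ) / (b (r i) : ℝ) ^ w i)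
      (fun i => ((c i : ℝ) + 1) / (b (r i) : ℝ) ^ w i) (fun i => by positivity)
      (fun i => by
        have h1 : (0 : ℝ) < (b (r i) : ℝ) ^ w i := by
          have : (0 : ℝ) < b (r i) := by exact_mod_cast hb (r i)
          positivity
        rw [div_le_one h1]
        exact_mod_cast hc i)
    rw [int_ind_WR hb r n w c, int_ind_WR hb r n w c] at key
    exact key
  · push Not at hc
    obtain ⟨i, hi⟩ := hc
    rw [WR_empty hb hi]
    simp only [measureReal_empty, sub_self, abs_zero]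
    exact hpos

end Pool.Agent.T9h42.JB
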