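import Pool.Agent.Y933.KD.Tay

/-!
# Comparison of characteristic functions by moments, for random variables on different spaces
-/

set_option autoImplicit false

namespace Pool.Agent.T9h42.JB

open Finset Real MeasureTheory Filter Topology
open Pool.Agent.Y933.KD (RT RT_le)

variable {Ω Ω' : Type*} [MeasurableSpace Ω] [MeasurableSpace Ω']

/-- bounded measurable functions are integrable -/
lemma integrable_of_bdd {P : Measure Ω} [IsFiniteMeasure P] {Z : Ω → ℝ} (hZ : Measurable Z)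
    {R : ℝ} (hR : ∀ x, |Z x| ≤ R) : Integrable Z P :=
  Integrable.of_bound hZ.aestronglyMeasurable R (Eventually.of_forall fun x => by
    rw [Real.norm_eq_abs]; exact hR x)

lemma integrable_pow_of_bdd {P : Measure Ω} [IsFiniteMeasure P] {Z : Ω → ℝ} (hZ : Measurable Z)
    {R : ℝ} (hR : ∀ x, |Z x| ≤ R) (j : ℕ) : Integrable (fun x => Z x ^ j) P := by
  refine integrable_of_bdd (hZ.pow_const j) (R := R ^ j) fun x => ?_
  rw [abs_pow]
  exact pow_le_pow_left₀ (abs_nonneg _) (hR x) j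

lemma integral_taylor {P : Measure Ω} [IsProbabilityMeasure P] {Z : Ω → ℝ} (hZ : Measurable Z)
    {R : ℝ} (hR : ∀ x, |Z x| ≤ R) (t : ℝ) (J : ℕ) (hJ : Even J) :
    ‖∫ x, Complex.exp ((t * Z x : ℝ) * Complex.I) ∂P -
      ∑ j ∈ range J, ((t : ℂ) * Complex.I) ^ j / (j.factorial : ℂ) * ((∫ x, Z x ^ j ∂P : ℝ) : ℂ)‖ ≤
      |t| ^ J / J.factorial * ∫ x, Z x ^ J ∂P := by
  have h1 : ∀ j, Integrable (fun x => ((t : ℂ) * Complex.I) ^ j / (j.factorial : ℂ) *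
      ((Z x ^ j : ℝ) : ℂ)) P := fun j =>
    ((integrable_pow_of_bdd hZ hR j).ofReal).const_mul _
  have hexp : Integrable (fun x => Complex.exp ((t * Z x : ℝ) * Complex.I)) P := by
    refine Integrable.of_bound ?_ 1 (Eventually.of_forall fun x => ?_)
    · have : Measurable (fun x => Complex.exp ((t * Z x : ℝ) * Complex.I)) :=
        Complex.measurable_exp.comp
          ((Complex.measurable_ofReal.comp (hZ.const_mul t)).mul_const _)
      exact this.aestronglyMeasurable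
    · rw [Complex.norm_exp_ofReal_mul_I]
  have h2 : ∑ j ∈ range J, ((t : ℂ) * Complex.I) ^ j / (j.factorial : ℂ) *
      ((∫ x, Z x ^ j ∂P : ℝ) : ℂ) = ∫ x, ∑ j ∈ range J, ((t : ℂ) * Complex.I) ^ j /
        (j.factorial : ℂ) * ((Z x ^ j : ℝ) : ℂ) ∂P := by
    rw [integral_finsetSum _ (fun j _ => h1 j)]
    refine sum_congr rfl fun j _ => ?_
    rw [MeasureTheory.integral_const_mul, integral_complex_ofReal]
  rw [h2, ← integral_sub hexp (integrable_finsetSum _ fun j _ => h1 j)]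
  have h3 : ∀ x, Complex.exp ((t * Z x : ℝ) * Complex.I) - ∑ j ∈ range J,
      ((t : ℂ) * Complex.I) ^ j / (j.factorial : ℂ) * ((Z x ^ j : ℝ) : ℂ) = RT J (t * Z x) := by
    intro x
    unfold RT
    congr 1
    refine sum_congr rfl fun j _ => ?_
    push_cast
    ring
  simp only [h3]
  refine (norm_integral_le_integral_norm _).trans ?_
  rw [← MeasureTheory.integral_const_mul]
  refine integral_mono_of_nonneg (Eventually.of_forall fun x => norm_nonneg _)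
    ((integrable_pow_of_bdd hZ hR J).const_mul _) (Eventually.of_forall fun x => ?_)
  simp only
  refine (RT_le J _).trans (le_of_eq ?_)
  rw [abs_mul, mul_pow, hJ.pow_abs (Z x)]
  ring

/-- comparison of two measures by moments -/
theorem compare {P : Measure Ω} {Q : Measure Ω'} [IsProbabilityMeasure P] [IsProbabilityMeasure Q]
    {Z : Ω → ℝ} {Y : Ω' → ℝ}
    (hZ : Measurable Z) (hY : Measurable Y) {R R' : ℝ} (hR : ∀ x, |Z x| ≤ R)
    (hR' : ∀ x, |Y x| ≤ R') (t : ℝ) (J : ℕ) (hJ : Even J) :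
    ‖∫ x, Complex.exp ((t * Z x : ℝ) * Complex.I) ∂P -
      ∫ x, Complex.exp ((t * Y x : ℝ) * Complex.I) ∂Q‖ ≤
      ∑ j ∈ range J, |t| ^ j * |∫ x, Z x ^ j ∂P - ∫ x, Y x ^ j ∂Q| +
        |t| ^ J * |∫ x, Z x ^ J ∂P - ∫ x, Y x ^ J ∂Q| +
        2 * (|t| ^ J / J.factorial * ∫ x, Y x ^ J ∂Q) := by
  have h1 := integral_taylor (P := P) hZ hR t J hJ
  have h2 := integral_taylor (P := Q) hY hR' t J hJ
  set a := ∫ x, Complex.exp ((t * Z x : ℝ) * Complex.I) ∂P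
  set b := ∫ x, Complex.exp ((t * Y x : ℝ) * Complex.I) ∂Q
  set SP := ∑ j ∈ range J, ((t : ℂ) * Complex.I) ^ j / (j.factorial : ℂ) *
    ((∫ x, Z x ^ j ∂P : ℝ) : ℂ)
  set SQ := ∑ j ∈ range J, ((t : ℂ) * Complex.I) ^ j / (j.factorial : ℂ) *
    ((∫ x, Y x ^ j ∂Q : ℝ) : ℂ)
  have h3 : ‖SP - SQ‖ ≤ ∑ j ∈ range J, |t| ^ j * |∫ x, Z x ^ j ∂P - ∫ x, Y x ^ j ∂Q| := by
    rw [← sum_sub_distrib]
    refine (norm_sum_le _ _).trans (sum_le_sum fun j _ => ?_)
    rw [← mul_sub, ← Complex.ofReal_sub, norm_mul, Complex.norm_real, Real.norm_eq_abs]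
    refine mul_le_mul_of_nonneg_right ?_ (abs_nonneg _)
    rw [norm_div, norm_pow, norm_mul, Complex.norm_I, mul_one, Complex.norm_real, Real.norm_eq_abs,
      Complex.norm_natCast]
    apply div_le_self (by positivity)
    exact_mod_cast Nat.one_le_iff_ne_zero.2 j.factorial_ne_zero
  have h4 : |t| ^ J / J.factorial * ∫ x, Z x ^ J ∂P ≤
      |t| ^ J * |∫ x, Z x ^ J ∂P - ∫ x, Y x ^ J ∂Q| + |t| ^ J / J.factorial * ∫ x, Y x ^ J ∂Q := by
    have h5 : |t| ^ J / J.factorial ≤ |t| ^ J := by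
      apply div_le_self (by positivity)
      exact_mod_cast Nat.one_le_iff_ne_zero.2 J.factorial_ne_zero
    have h6 : ∫ x, Z x ^ J ∂P ≤ |∫ x, Z x ^ J ∂P - ∫ x, Y x ^ J ∂Q| + ∫ x, Y x ^ J ∂Q := by
      have := le_abs_self (∫ x, Z x ^ J ∂P - ∫ x, Y x ^ J ∂Q)
      linarith
    have h7 : 0 ≤ |t| ^ J / (J.factorial : ℝ) := by positivity
    calc |t| ^ J / J.factorial * ∫ x, Z x ^ J ∂P
        ≤ |t| ^ J / J.factorial * (|∫ x, Z x ^ J ∂P - ∫ x, Y x ^ J ∂Q| + ∫ x, Y x ^ J ∂Q) :=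
          mul_le_mul_of_nonneg_left h6 h7
      _ = |t| ^ J / J.factorial * |∫ x, Z x ^ J ∂P - ∫ x, Y x ^ J ∂Q| +
          |t| ^ J / J.factorial * ∫ x, Y x ^ J ∂Q := by ring
      _ ≤ _ := by gcongr
  have h8 : a - b = (a - SP) + (SP - SQ) - (b - SQ) := by ring
  rw [h8]
  have h9 : ‖(a - SP) + (SP - SQ) - (b - SQ)‖ ≤ ‖a - SP‖ + ‖SP - SQ‖ + ‖b - SQ‖ :=
    (norm_sub_le _ _).trans (by gcongr; exact norm_add_le _ _)
  linarith

/-- moments from an exponential moment -/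
lemma moment_le {Q : Measure Ω} [IsProbabilityMeasure Q] {Z : Ω → ℝ} (hZ : Measurable Z) {R : ℝ}
    (hR : ∀ x, |Z x| ≤ R) (t : ℝ) (J : ℕ) (hJ : Even J) {C : ℝ}
    (h1 : ∫ x, exp (2 * |t| * Z x) ∂Q ≤ C) (h2 : ∫ x, exp (-(2 * |t|) * Z x) ∂Q ≤ C) :
    |t| ^ J / J.factorial * ∫ x, Z x ^ J ∂Q ≤ 2 * C / 2 ^ J := by
  have hint : ∀ s : ℝ, Integrable (fun x => exp (s * Z x)) Q := by
    intro s
    refine Integrable.of_bound (Real.measurable_exp.comp (hZ.const_mul s)).aestronglyMeasurable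
      (exp (|s| * R)) (Eventually.of_forall fun x => ?_)
    rw [Real.norm_eq_abs, abs_of_pos (exp_pos _)]
    apply exp_le_exp.2
    calc s * Z x ≤ |s * Z x| := le_abs_self _
      _ = |s| * |Z x| := abs_mul _ _
      _ ≤ |s| * R := by gcongr; exact hR x
  have h3 : ∀ x, 2 ^ J * (|t| ^ J / J.factorial * Z x ^ J) ≤
      exp (2 * |t| * Z x) + exp (-(2 * |t|) * Z x) := by
    intro x
    have h4 : 2 ^ J * (|t| ^ J / J.factorial * Z x ^ J) = (2 * |t| * |Z x|) ^ J / J.factorial := by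
      rw [mul_pow, mul_pow, hJ.pow_abs (Z x)]
      ring
    rw [h4]
    have h5 : (2 * |t| * |Z x|) ^ J / J.factorial ≤ exp (2 * |t| * |Z x|) :=
      Real.pow_div_factorial_le_exp _ (by positivity) J
    refine h5.trans ?_
    rcases abs_choice (Z x) with h | h
    · rw [h]
      have := exp_pos (-(2 * |t|) * Z x)
      linarith
    · rw [h]
      have := exp_pos (2 * |t| * Z x)
      have e1 : 2 * |t| * -Z x = -(2 * |t|) * Z x := by ring
      rw [e1]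
      linarith
  rw [le_div_iff₀ (by positivity)]
  calc (|t| ^ J / J.factorial * ∫ x, Z x ^ J ∂Q) * 2 ^ J =
        ∫ x, 2 ^ J * (|t| ^ J / J.factorial * Z x ^ J) ∂Q := by
        rw [MeasureTheory.integral_const_mul, MeasureTheory.integral_const_mul]
        ring
    _ ≤ ∫ x, (exp (2 * |t| * Z x) + exp (-(2 * |t|) * Z x)) ∂Q := by
        refine integral_mono (((integrable_pow_of_bdd hZ hR J).const_mul _).const_mul _)
          ((hint _).add (hint _)) h3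
    _ = ∫ x, exp (2 * |t| * Z x) ∂Q + ∫ x, exp (-(2 * |t|) * Z x) ∂Q :=
        integral_add (hint _) (hint _)
    _ ≤ 2 * C := by linarith

/-- **the method of moments, comparison form** -/
theorem moments_limit {P : ℕ → Measure Ω} {Q : ℕ → Measure Ω'} [∀ M, IsProbabilityMeasure (P M)]
    [∀ M, IsProbabilityMeasure (Q M)] {Z : ℕ → Ω → ℝ} {Y : ℕ → Ω' → ℝ}
    (hZ : ∀ M, Measurable (Z M)) (hY : ∀ M, Measurable (Y M))
    (hR : ∀ M, ∃ R : ℝ, ∀ x, |Z M x| ≤ R) (hR' : ∀ M, ∃ R : ℝ, ∀ x, |Y M x| ≤ R)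
    (hmom : ∀ j : ℕ, Tendsto (fun M => ∫ x, Z M x ^ j ∂(P M) - ∫ x, Y M x ^ j ∂(Q M)) atTop (𝓝 0))
    (hexp : ∀ s : ℝ, ∃ C : ℝ, ∀ᶠ M in atTop, ∫ x, exp (s * Y M x) ∂(Q M) ≤ C) (t : ℝ) {φ : ℂ}
    (hQ : Tendsto (fun M => ∫ x, Complex.exp ((t * Y M x : ℝ) * Complex.I) ∂(Q M)) atTop (𝓝 φ)) :
    Tendsto (fun M => ∫ x, Complex.exp ((t * Z M x : ℝ) * Complex.I) ∂(P M)) atTop (𝓝 φ) := by
  suffices h : Tendsto (fun M => ∫ x, Complex.exp ((t * Z M x : ℝ) * Complex.I) ∂(P M) -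
      ∫ x, Complex.exp ((t * Y M x : ℝ) * Complex.I) ∂(Q M)) atTop (𝓝 0) by
    have := h.add hQ
    simpa using this
  rw [Metric.tendsto_atTop]
  intro ε hε
  obtain ⟨C1, hC1⟩ := hexp (2 * |t|)
  obtain ⟨C2, hC2⟩ := hexp (-(2 * |t|))
  set C := max (max C1 C2) 1 with hC
  have hC0 : 0 < C := lt_of_lt_of_le one_pos (le_max_right _ _)
  obtain ⟨L, hL⟩ : ∃ L : ℕ, 4 * C / 2 ^ L < ε / 2 := by
    obtain ⟨L, hL⟩ := pow_unbounded_of_one_lt (8 * C / ε) (one_lt_two)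
    refine ⟨L, ?_⟩
    rw [div_lt_iff₀ (by positivity)]
    rw [div_lt_iff₀ hε] at hL
    linarith
  set J := 2 * L with hJ
  have hJe : Even J := ⟨L, by omega⟩
  have hJL : (2 : ℝ) ^ L ≤ 2 ^ J := pow_le_pow_right₀ (by norm_num) (by omega)
  have hlim : Tendsto (fun M => ∑ j ∈ range J, |t| ^ j *
      |∫ x, Z M x ^ j ∂(P M) - ∫ x, Y M x ^ j ∂(Q M)| +
        |t| ^ J * |∫ x, Z M x ^ J ∂(P M) - ∫ x, Y M x ^ J ∂(Q M)|) atTop (𝓝 0) := by
    have h1 : ∀ j : ℕ, Tendsto (fun M => |t| ^ j *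
        |∫ x, Z M x ^ j ∂(P M) - ∫ x, Y M x ^ j ∂(Q M)|) atTop (𝓝 0) := by
      intro j
      have := ((hmom j).abs).const_mul (|t| ^ j)
      simpa using this
    have h2 := (tendsto_finsetSum (range J) fun j _ => h1 j).add (h1 J)
    simpa using h2
  have h3 := hlim.eventually (gt_mem_nhds (half_pos hε))
  obtain ⟨M0, hM0⟩ := eventually_atTop.1 ((h3.and hC1).and hC2)
  refine ⟨M0, fun M hM => ?_⟩
  obtain ⟨⟨h4, h5⟩, h6⟩ := hM0 M hM
  obtain ⟨R, hR1⟩ := hR M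
  obtain ⟨R', hR2⟩ := hR' M
  rw [dist_zero_right]
  have h7 := compare (P := P M) (Q := Q M) (hZ M) (hY M) hR1 hR2 t J hJe
  have h8 := moment_le (Q := Q M) (hY M) hR2 t J hJe (C := C)
    (h5.trans ((le_max_left _ _).trans (le_max_left _ _)))
    (h6.trans ((le_max_right _ _).trans (le_max_left _ _)))
  have h9 : 2 * (2 * C / 2 ^ J) ≤ 4 * C / 2 ^ L := by
    calc 2 * (2 * C / 2 ^ J) = 4 * C / 2 ^ J := by ring
      _ ≤ 4 * C / 2 ^ L := by gcongr
  linarith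

end Pool.Agent.T9h42.JB
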