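import Pool.Agent.Y933.KD.Clt2
import Pool.Agent.T9h42.JB.Tay
import Pool.Agent.T9h42.JB.FamT

/-!
# Joint moments of word sums in several bases
-/

set_option autoImplicit false
set_option linter.unusedSectionVars false

namespace Pool.Agent.T9h42.JB

open Finset Real MeasureTheory Filter Topology
open scoped ENNReal
open Pool.Agent.Y933.KD

variable {R : Type} [Fintype R] [DecidableEq R]

/-- the uniform measure on a finite set of natural numbers -/
noncomputable def UT (T : Finset ℕ) : Measure ℕ := (T.card : ℝ≥0∞)⁻¹ • ∑ m ∈ T, Measure.dirac m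

lemma UT_prob {T : Finset ℕ} (hT : T.Nonempty) : IsProbabilityMeasure (UT T) := by
  refine ⟨?_⟩
  unfold UT
  rw [Measure.smul_apply, Measure.finsetSum_apply]
  simp only [measure_univ, sum_const, smul_eq_mul, nsmul_eq_mul, mul_one]
  refine ENNReal.inv_mul_cancel ?_ (ENNReal.natCast_ne_top _)
  exact_mod_cast (Finset.card_pos.2 hT).ne'

lemma int_UT {E : Type*} [NormedAddCommGroup E] [NormedSpace ℝ E] [CompleteSpace E] (T : Finset ℕ)
    (f : ℕ → E) : ∫ m, f m ∂(UT T) = (T.card : ℝ)⁻¹ • ∑ m ∈ T, f m := by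
  unfold UT
  rw [integral_smul_measure, integral_finsetSum_measure]
  · simp only [integral_dirac, ENNReal.toReal_inv, ENNReal.toReal_natCast]
  · intro m _
    exact integrable_dirac (by simp)

/-- the index set of the words -/
def IS (b w L : R → ℕ) : Finset (Σ _ : R, ℕ × ℕ) :=
  Finset.univ.sigma fun ρ => range (L ρ) ×ˢ range (b ρ ^ w ρ)

/-- the coefficients -/
noncomputable def cf (L : R → ℕ) (G : R → ℕ → ℝ) (τ : R → ℝ) (a : Σ _ : R, ℕ × ℕ) : ℝ :=
  τ a.1 / √(L a.1 : ℝ) * G a.1 a.2.2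

/-- the linear combination of the normalised sums -/
noncomputable def LC (L : R → ℕ) (G : R → ℕ → ℝ) (τ : R → ℝ) (D : R → ℕ → ℕ) : ℝ :=
  ∑ ρ, τ ρ * ((∑ n ∈ range (L ρ), G ρ (D ρ n)) / √(L ρ : ℝ))

lemma LC_eq {b w L : R → ℕ} (G : R → ℕ → ℝ) (τ : R → ℝ) {D : R → ℕ → ℕ}
    (hD : ∀ ρ n, D ρ n < b ρ ^ w ρ) :
    LC L G τ D = ∑ a ∈ IS b w L, cf L G τ a * (if D a.1 a.2.1 = a.2.2 then 1 else 0) := by
  unfold LC IS cf
  rw [sum_sigma]
  refine sum_congr rfl fun ρ _ => ?_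
  rw [sum_product, mul_div_assoc', mul_sum, sum_div]
  refine sum_congr rfl fun n _ => ?_
  simp only [mul_ite, mul_one, mul_zero]
  rw [Finset.sum_ite_eq, if_pos (mem_range.2 (hD ρ n))]
  ring

lemma LC_pow {b w L : R → ℕ} (G : R → ℕ → ℝ) (τ : R → ℝ) {D : R → ℕ → ℕ}
    (hD : ∀ ρ n, D ρ n < b ρ ^ w ρ) (j : ℕ) :
    LC L G τ D ^ j = ∑ p ∈ Fintype.piFinset fun _ : Fin j => IS b w L,
      (∏ i, cf L G τ (p i)) * (if ∀ i, D (p i).1 (p i).2.1 = (p i).2.2 then 1 else 0) := by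
  have h2 : LC L G τ D ^ j = ∏ _i : Fin j, LC L G τ D := by
    rw [prod_const, card_univ, Fintype.card_fin]
  rw [h2]
  simp only [LC_eq G τ hD]
  rw [prod_univ_sum]
  refine sum_congr rfl fun p _ => ?_
  rw [prod_mul_distrib]
  congr 1
  by_cases h : ∀ i, D (p i).1 (p i).2.1 = (p i).2.2
  · rw [if_pos h]
    exact prod_eq_one fun i _ => if_pos (h i)
  · rw [if_neg h]
    push Not at h
    obtain ⟨i, hi⟩ := h
    exact prod_eq_zero (mem_univ i) (if_neg hi)

lemma sum_cf_le {b w L : R → ℕ} {G : R → ℕ → ℝ} {Kb : ℝ} (hG : ∀ ρ c, |G ρ c| ≤ Kb) (τ : R → ℝ) :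
    ∑ a ∈ IS b w L, |cf L G τ a| ≤ (∑ ρ, (L ρ : ℝ)) * ∑ ρ, |τ ρ| * Kb * (b ρ : ℝ) ^ w ρ := by
  unfold IS cf
  rw [sum_sigma, sum_mul]
  have hterm : ∀ ρ : R, 0 ≤ |τ ρ| * Kb * (b ρ : ℝ) ^ w ρ := fun ρ => by
    have : 0 ≤ Kb := (abs_nonneg _).trans (hG ρ 0)
    positivity
  refine sum_le_sum fun ρ _ => ?_
  have hK : 0 ≤ Kb := (abs_nonneg _).trans (hG ρ 0)
  have h1 : ∀ a ∈ range (L ρ) ×ˢ range (b ρ ^ w ρ), |τ ρ / √(L ρ : ℝ) * G ρ a.2| ≤ |τ ρ| * Kb := by
    intro a ha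
    have hL : 1 ≤ L ρ := by
      have := mem_range.1 (mem_product.1 ha).1
      omega
    have hsq : 1 ≤ √(L ρ : ℝ) := Real.one_le_sqrt.2 (by exact_mod_cast hL)
    rw [abs_mul, abs_div, abs_of_nonneg (Real.sqrt_nonneg _)]
    exact mul_le_mul (div_le_self (abs_nonneg _) hsq) (hG ρ _) (abs_nonneg _) (abs_nonneg _)
  refine (sum_le_sum h1).trans ?_
  rw [sum_const, card_product, card_range, card_range, nsmul_eq_mul]
  push_cast
  have h2 : |τ ρ| * Kb * (b ρ : ℝ) ^ w ρ ≤ ∑ σ, |τ σ| * Kb * (b σ : ℝ) ^ w σ :=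
    single_le_sum (f := fun σ => |τ σ| * Kb * (b σ : ℝ) ^ w σ) (fun σ _ => hterm σ) (mem_univ ρ)
  calc (L ρ : ℝ) * (b ρ : ℝ) ^ w ρ * (|τ ρ| * Kb) = L ρ * (|τ ρ| * Kb * (b ρ : ℝ) ^ w ρ) := by ring
    _ ≤ _ := mul_le_mul_of_nonneg_left h2 (Nat.cast_nonneg _)

/-- the words of a vector of real numbers -/
noncomputable def DX (b w : R → ℕ) (x : R → ℝ) (ρ : R) (n : ℕ) : ℕ := wd (b ρ) (w ρ) n (x ρ)

lemma measurable_LC (b w L : R → ℕ) (G : R → ℕ → ℝ) (τ : R → ℝ) :
    Measurable fun x : R → ℝ => LC L G τ (DX b w x) := by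
  unfold LC DX
  refine Finset.measurable_fun_sum _ fun ρ _ => ((Finset.measurable_fun_sum _ fun n _ => ?_).div_const
    _).const_mul _
  exact (measurable_of_countable (G ρ)).comp ((measurable_wd _ _ _).comp (measurable_pi_apply ρ))

lemma LC_bdd {L : R → ℕ} {G : R → ℕ → ℝ} {Kb : ℝ} (hG : ∀ ρ c, |G ρ c| ≤ Kb) (τ : R → ℝ)
    (D : R → ℕ → ℕ) : |LC L G τ D| ≤ ∑ ρ, |τ ρ| * ((L ρ : ℝ) * Kb / √(L ρ : ℝ)) := by
  unfold LC
  refine (abs_sum_le_sum_abs _ _).trans (sum_le_sum fun ρ _ => ?_)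
  rw [abs_mul, abs_div, abs_of_nonneg (Real.sqrt_nonneg _)]
  refine mul_le_mul_of_nonneg_left (div_le_div_of_nonneg_right ?_ (Real.sqrt_nonneg _))
    (abs_nonneg _)
  refine (abs_sum_le_sum_abs _ _).trans ((sum_le_sum fun n _ => hG ρ _).trans ?_)
  rw [sum_const, card_range, nsmul_eq_mul]

/-- the moments under the two laws -/
lemma mom_le {b w L : R → ℕ} (hb : ∀ ρ, 1 ≤ b ρ) {G : R → ℕ → ℝ} {Kb : ℝ}
    (hG : ∀ ρ c, |G ρ c| ≤ Kb) (τ : R → ℝ) {T : Finset ℕ} (D : ℕ → R → ℕ → ℕ)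
    (hD : ∀ m ρ n, D m ρ n < b ρ ^ w ρ) (j : ℕ) {Δ : ℝ}
    (hΔ : ∀ (r : Fin j → R) (n c : Fin j → ℕ), (∀ i, n i < L (r i)) →
      |((T.filter fun m => ∀ i, D m (r i) (n i) = c i).card : ℝ) / T.card -
        (LebR R).real (WR b r n (fun i => w (r i)) c)| ≤ Δ) :
    |∫ m, LC L G τ (D m) ^ j ∂(UT T) - ∫ x, LC L G τ (DX b w x) ^ j ∂(LebR R)| ≤
      ((∑ ρ, (L ρ : ℝ)) * ∑ ρ, |τ ρ| * Kb * (b ρ : ℝ) ^ w ρ) ^ j * Δ := by
  have hDX : ∀ x : R → ℝ, ∀ ρ n, DX b w x ρ n < b ρ ^ w ρ := fun x ρ n => wd_lt (hb ρ) _ _ _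
  have e1 : ∫ m, LC L G τ (D m) ^ j ∂(UT T) = ∑ p ∈ Fintype.piFinset fun _ : Fin j => IS b w L,
      (∏ i, cf L G τ (p i)) *
        (((T.filter fun m => ∀ i, D m (p i).1 (p i).2.1 = (p i).2.2).card : ℝ) / T.card) := by
    rw [int_UT]
    simp only [LC_pow G τ (hD _) j]
    rw [sum_comm, smul_eq_mul, mul_sum]
    refine sum_congr rfl fun p _ => ?_
    rw [← mul_sum, card_filter]
    push_cast
    ring
  have e2 : ∫ x, LC L G τ (DX b w x) ^ j ∂(LebR R) =
      ∑ p ∈ Fintype.piFinset fun _ : Fin j => IS b w L, (∏ i, cf L G τ (p i)) *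
        (LebR R).real (WR b (fun i => (p i).1) (fun i => (p i).2.1) (fun i => w (p i).1)
          (fun i => (p i).2.2)) := by
    simp only [LC_pow G τ (hDX _) j]
    rw [integral_finsetSum]
    · refine sum_congr rfl fun p _ => ?_
      rw [integral_const_mul, ← integral_indicator_one (measurableSet_WR _ _ _ _ _)]
      congr 1
      refine integral_congr_ae (Eventually.of_forall fun x => ?_)
      simp only
      by_cases h : ∀ i, DX b w x (p i).1 (p i).2.1 = (p i).2.2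
      · rw [if_pos h, Set.indicator_of_mem]
        · rfl
        · exact h
      · rw [if_neg h, Set.indicator_of_notMem]
        exact h
    · intro p _
      refine Integrable.const_mul ?_ _
      refine Integrable.of_bound (C := 1) ?_ (Eventually.of_forall fun x => ?_)
      · refine Measurable.aestronglyMeasurable (Measurable.ite ?_ measurable_const measurable_const)
        exact measurableSet_WR b (fun i => (p i).1) (fun i => (p i).2.1) (fun i => w (p i).1)
          (fun i => (p i).2.2)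
      · split_ifs <;> simp
  rw [e1, e2, ← sum_sub_distrib]
  refine (abs_sum_le_sum_abs _ _).trans ?_
  have hΔ0 : 0 ≤ Δ ∨ (Fintype.piFinset fun _ : Fin j => IS b w L) = ∅ := by
    by_cases h : (Fintype.piFinset fun _ : Fin j => IS b w L).Nonempty
    · left
      obtain ⟨p, hp⟩ := h
      rw [Fintype.mem_piFinset] at hp
      refine (abs_nonneg _).trans (hΔ (fun i => (p i).1) (fun i => (p i).2.1) (fun i => (p i).2.2)
        fun i => ?_)
      have := hp i
      unfold IS at this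
      rw [mem_sigma, mem_product, mem_range] at this
      exact this.2.1
    · right
      exact not_nonempty_iff_eq_empty.1 h
  have h3 : ∑ p ∈ Fintype.piFinset fun _ : Fin j => IS b w L, |(∏ i, cf L G τ (p i)) *
        (((T.filter fun m => ∀ i, D m (p i).1 (p i).2.1 = (p i).2.2).card : ℝ) / T.card) -
        (∏ i, cf L G τ (p i)) * (LebR R).real (WR b (fun i => (p i).1) (fun i => (p i).2.1)
          (fun i => w (p i).1) (fun i => (p i).2.2))| ≤
      ∑ p ∈ Fintype.piFinset fun _ : Fin j => IS b w L, (∏ i, |cf L G τ (p i)|) * Δ := by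
    refine sum_le_sum fun p hp => ?_
    rw [Fintype.mem_piFinset] at hp
    rw [← mul_sub, abs_mul, Finset.abs_prod]
    refine mul_le_mul_of_nonneg_left ?_ (prod_nonneg fun i _ => abs_nonneg _)
    refine hΔ (fun i => (p i).1) (fun i => (p i).2.1) (fun i => (p i).2.2) fun i => ?_
    have := hp i
    unfold IS at this
    rw [mem_sigma, mem_product, mem_range] at this
    exact this.2.1
  refine h3.trans ?_
  rw [← sum_mul]
  have h4 : ∑ p ∈ Fintype.piFinset fun _ : Fin j => IS b w L, ∏ i, |cf L G τ (p i)| =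
      (∑ a ∈ IS b w L, |cf L G τ a|) ^ j := by
    have h5 := Finset.prod_univ_sum (fun _ : Fin j => IS b w L) (fun (_ : Fin j) a => |cf L G τ a|)
    rw [prod_const, card_univ, Fintype.card_fin] at h5
    exact h5.symm
  rcases hΔ0 with hΔ0 | h0
  · rw [h4]
    refine mul_le_mul_of_nonneg_right ?_ hΔ0
    exact pow_le_pow_left₀ (sum_nonneg fun a _ => abs_nonneg _) (sum_cf_le hG τ) j
  · rw [h0, sum_empty, zero_mul]
    -- then `IS` is empty and `j > 0`
    rcases Nat.eq_zero_or_pos j with hj | hj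
    · subst hj
      exfalso
      have : (fun i : Fin 0 => i.elim0) ∈ (Fintype.piFinset fun _ : Fin 0 => IS b w L) :=
        Fintype.mem_piFinset.2 fun i => i.elim0
      rw [h0] at this
      exact absurd this (Finset.notMem_empty _)
    · have hIS : IS b w L = ∅ := by
        by_contra hne
        obtain ⟨a, ha⟩ := Finset.nonempty_iff_ne_empty.2 hne
        have : (fun _ : Fin j => a) ∈ (Fintype.piFinset fun _ : Fin j => IS b w L) :=
          Fintype.mem_piFinset.2 fun _ => ha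
        rw [h0] at this
        exact absurd this (Finset.notMem_empty _)
      have hL0 : ∀ ρ, L ρ = 0 := by
        intro ρ
        by_contra hne
        have : (⟨ρ, (0, 0)⟩ : Σ _ : R, ℕ × ℕ) ∈ IS b w L := by
          unfold IS
          rw [mem_sigma, mem_product, mem_range, mem_range]
          exact ⟨mem_univ _, Nat.pos_of_ne_zero hne, pow_pos (hb ρ) _⟩
        rw [hIS] at this
        exact absurd this (Finset.notMem_empty _)
      simp only [hL0, Nat.cast_zero, sum_const_zero, zero_mul]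
      rw [zero_pow hj.ne', zero_mul]

end Pool.Agent.T9h42.JB
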