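import Pool.Agent.T9h42.JB.FarR
import Pool.Agent.T9h42.JB.FamT

/-!
# Tests on the words of multiples in several bases
-/

set_option autoImplicit false
set_option linter.unusedSectionVars false

open Finset Filter Topology Real

namespace Pool.Agent.T9h42.JB

open MeasureTheory
open Pool.Agent.Y933.KD

variable {R : Type} [Fintype R] [DecidableEq R]

/-- resonances -/
lemma dvd_of_int {p b : R → ℕ} (hb : ∀ ρ, 1 ≤ b ρ) (hpb : ∀ ρ, (p ρ).Coprime (b ρ))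
    (hbb : ∀ ρ σ, ρ ≠ σ → (b ρ).Coprime (b σ)) (N J : R → ℕ) (l : R → ℤ) (P : ℤ)
    (h : ∑ ρ, (l ρ : ℝ) * ((p ρ : ℝ) ^ N ρ / (b ρ : ℝ) ^ J ρ) = P) (ρ : R) :
    (b ρ : ℤ) ^ J ρ ∣ l ρ := by
  have hb' : ∀ σ, ((b σ : ℝ) ^ J σ) ≠ 0 := fun σ => by
    have : (0 : ℝ) < b σ := by exact_mod_cast hb σ
    positivity
  -- clear the denominators
  have h1 : ∑ σ, l σ * ((p σ : ℤ) ^ N σ * ∏ τ ∈ univ.erase σ, (b τ : ℤ) ^ J τ) =
      P * ∏ τ, (b τ : ℤ) ^ J τ := by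
    have h2 : ((∑ σ, l σ * ((p σ : ℤ) ^ N σ * ∏ τ ∈ univ.erase σ, (b τ : ℤ) ^ J τ) : ℤ) : ℝ) =
        ((P * ∏ τ, (b τ : ℤ) ^ J τ : ℤ) : ℝ) := by
      push_cast
      rw [← h, sum_mul]
      refine sum_congr rfl fun σ _ => ?_
      rw [← Finset.mul_prod_erase univ (fun τ => (b τ : ℝ) ^ J τ) (mem_univ σ)]
      have := hb' σ
      field_simp
    exact_mod_cast h2
  have h3 : (b ρ : ℤ) ^ J ρ ∣ l ρ * ((p ρ : ℤ) ^ N ρ * ∏ τ ∈ univ.erase ρ, (b τ : ℤ) ^ J τ) := by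
    rw [← Finset.add_sum_erase _ _ (mem_univ ρ)] at h1
    have h4 : (b ρ : ℤ) ^ J ρ ∣ P * ∏ τ, (b τ : ℤ) ^ J τ :=
      Dvd.dvd.mul_left (Finset.dvd_prod_of_mem (fun τ => (b τ : ℤ) ^ J τ) (mem_univ ρ)) _
    have h5 : (b ρ : ℤ) ^ J ρ ∣ ∑ σ ∈ univ.erase ρ,
        l σ * ((p σ : ℤ) ^ N σ * ∏ τ ∈ univ.erase σ, (b τ : ℤ) ^ J τ) := by
      refine Finset.dvd_sum fun σ hσ => ?_
      refine Dvd.dvd.mul_left (Dvd.dvd.mul_left ?_ _) _
      exact Finset.dvd_prod_of_mem (fun τ => (b τ : ℤ) ^ J τ)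
        (mem_erase.2 ⟨(Finset.ne_of_mem_erase hσ).symm, mem_univ ρ⟩)
    rw [← h1] at h4
    exact (dvd_add_left h5).1 h4
  have hc1 : IsCoprime ((b ρ : ℤ) ^ J ρ) ((p ρ : ℤ) ^ N ρ * ∏ τ ∈ univ.erase ρ, (b τ : ℤ) ^ J τ) := by
    refine IsCoprime.mul_right ?_ ?_
    · exact (Nat.isCoprime_iff_coprime.2 (hpb ρ).symm).pow
    · refine IsCoprime.prod_right fun τ hτ => ?_
      exact (Nat.isCoprime_iff_coprime.2 (hbb ρ τ (Finset.ne_of_mem_erase hτ).symm)).pow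
  exact hc1.dvd_of_dvd_mul_right h3

/-- **tests on words of multiples in several bases** -/
theorem mul_tests {p b : R → ℕ} (hp : ∀ ρ, 1 ≤ p ρ) (hb : ∀ ρ, 1 ≤ b ρ)
    (hpb : ∀ ρ, (p ρ).Coprime (b ρ)) (hbb : ∀ ρ σ, ρ ≠ σ → (b ρ).Coprime (b σ)) (A : ℝ) (k : ℕ) :
    ∃ κ : ℝ, 0 < κ ∧ ∃ C : ℝ, ∃ M0 : ℕ, ∀ M : ℕ, M0 ≤ M → ∀ N J y : R → ℕ,
      (∀ ρ, (N ρ : ℝ) ≤ A * log M) → (∀ ρ, (J ρ : ℝ) ≤ A * log M) →
      (∀ ρ, b ρ ^ J ρ ≤ p ρ ^ N ρ) → ∀ (r : Fin k → R) (n w c : Fin k → ℕ),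
      (∀ i, n i + w i ≤ J (r i)) → ∀ (P : ℕ → Prop) [DecidablePred P],
      (∀ m, (P m ↔ ∀ i, (m * p (r i) ^ N (r i) + y (r i)) / b (r i) ^ (J (r i) - (n i + w i)) %
        b (r i) ^ w i = c i)) →
      |((((Icc 1 M).filter P).card : ℕ) : ℝ) / M - (LebR R).real (WR b r n w c)| ≤
        C * (M : ℝ) ^ (-κ) := by
  obtain ⟨η, hη, x0, hfar⟩ := far hp hb k A (δ := 1 / 2) (by norm_num)
  set κ : ℝ := min η (1 / 2) with hκ
  have hκ0 : 0 < κ := lt_min hη (by norm_num)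
  have hκ1 : κ ≤ η := min_le_left _ _
  have hκ2 : κ ≤ 1 / 2 := min_le_right _ _
  have hlog : Tendsto (fun M : ℕ => log (M : ℝ)) atTop atTop :=
    Real.tendsto_log_atTop.comp tendsto_natCast_atTop_atTop
  obtain ⟨M0, hM0⟩ := eventually_atTop.1 ((hlog.eventually_ge_atTop x0).and
    (eventually_ge_atTop 1))
  refine ⟨κ / (3 * k + 4), by positivity, 3 ^ k + k * 29, M0,
    fun M hM N J y hN hJ hbp r n w c hn P _ hP => ?_⟩
  obtain ⟨m1, m2⟩ := hM0 M hM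
  have hMp : (0 : ℝ) < M := by exact_mod_cast m2
  have hM1 : (1 : ℝ) ≤ M := by exact_mod_cast m2
  have hlM : 0 ≤ log (M : ℝ) := Real.log_natCast_nonneg M
  have key := fam_test (τ := κ * log M) (by positivity) (T := Icc 1 M)
    (by rw [Finset.nonempty_Icc]; exact m2) (fun m ρ => m * p ρ ^ N ρ + y ρ) hb J r n w c hn
    (by
      intro h hh hne
      by_cases hint : ∃ P : ℤ, ∑ ρ, (row b r n h ρ : ℝ) * ((p ρ : ℝ) ^ N ρ / (b ρ : ℝ) ^ J ρ) = P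
      · left
        obtain ⟨P, hP⟩ := hint
        obtain ⟨ρ, hρ⟩ := hne
        exact ⟨ρ, hρ, dvd_of_int hb hpb hbb N J _ P hP ρ⟩
      · right
        push Not at hint
        have hfar' : ∀ P : ℤ, (M : ℝ) ^ (-(1 / 2) : ℝ) ≤
            |∑ ρ, (row b r n h ρ : ℝ) * ((p ρ : ℝ) ^ N ρ / (b ρ : ℝ) ^ J ρ) - P| := by
          intro P
          have h1 := hfar (log M) m1 N J r n h P hN hJ (fun i => by
            have h2 : (n i : ℝ) ≤ J (r i) := by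
              have := hn i
              exact_mod_cast (by omega : n i ≤ J (r i))
            exact h2.trans (hJ _)) hbp (fun i => (hh i).trans (by gcongr)) (hint P)
          refine le_trans (le_of_eq ?_) h1.le
          rw [Real.rpow_def_of_pos hMp]
          congr 1
          ring
        have h2 : ∑ m ∈ Icc 1 M, e (∑ ρ, (row b r n h ρ : ℝ) / (b ρ : ℝ) ^ J ρ *
            ((m * p ρ ^ N ρ + y ρ : ℕ) : ℝ)) =
            e (∑ ρ, (row b r n h ρ : ℝ) / (b ρ : ℝ) ^ J ρ * y ρ) * ∑ m ∈ Icc 1 M,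
              e (m * ∑ ρ, (row b r n h ρ : ℝ) * ((p ρ : ℝ) ^ N ρ / (b ρ : ℝ) ^ J ρ)) := by
          rw [mul_sum]
          refine sum_congr rfl fun m _ => ?_
          rw [← e_add, mul_sum, ← sum_add_distrib]
          congr 1
          refine sum_congr rfl fun ρ _ => ?_
          push_cast
          ring
        rw [h2, norm_mul, norm_e, one_mul, Nat.card_Icc, Nat.add_sub_cancel]
        have h3 := sum_e_le M (α := ∑ ρ, (row b r n h ρ : ℝ) * ((p ρ : ℝ) ^ N ρ / (b ρ : ℝ) ^ J ρ))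
          (ε := (M : ℝ) ^ (-(1 / 2) : ℝ)) (by positivity) hfar'
        calc 1 / (M : ℝ) * _ ≤ 1 / (M : ℝ) * (1 / (2 * (M : ℝ) ^ (-(1 / 2) : ℝ))) := by gcongr
          _ = 1 / 2 * (M : ℝ) ^ (-(1 / 2) : ℝ) := by
              have h4 : (M : ℝ) * (M : ℝ) ^ (-(1 / 2) : ℝ) * (M : ℝ) ^ (-(1 / 2) : ℝ) = 1 := by
                rw [mul_assoc, ← Real.rpow_add hMp]
                norm_num
                rw [Real.rpow_neg_one]
                field_simp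
              have h5 : (M : ℝ) ^ (-(1 / 2) : ℝ) ≠ 0 := by positivity
              field_simp
              linarith
          _ ≤ 1 * (M : ℝ) ^ (-(1 / 2) : ℝ) := by gcongr; norm_num
          _ = (M : ℝ) ^ (-(1 / 2) : ℝ) := one_mul _
          _ = exp (-(1 / 2) * log M) := by
              rw [Real.rpow_def_of_pos hMp]
              congr 1
              ring
          _ ≤ exp (-(κ * log M)) := by
              apply exp_le_exp.2
              have : κ * log M ≤ 1 / 2 * log M := mul_le_mul_of_nonneg_right hκ2 hlM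
              linarith)
    P (fun m _ => hP m)
  rw [Nat.card_Icc, Nat.add_sub_cancel] at key
  refine key.trans (le_of_eq ?_)
  congr 1
  rw [Real.rpow_def_of_pos hMp]
  congr 1
  ring

end Pool.Agent.T9h42.JB
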