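import Pool.Agent.T9h42.JB.VMain
import Pool.Agent.T9h42.JB.FamT

/-!
# Tests on the words of the lowest digits of several powers in several bases
-/

set_option autoImplicit false
set_option linter.unusedSectionVars false

open Finset Filter Topology Real

namespace Pool.Agent.T9h42.JB

open MeasureTheory
open Pool.Agent.Y933.KD

variable {R : Type} [Fintype R] [DecidableEq R]

lemma e_ee (x : ℝ) : e x = Pool.Agent.Helper602.MK.ee x := by
  unfold e Pool.Agent.Helper602.MK.ee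
  push_cast
  rfl

lemma exists_val {q : ℕ} (hq : q.Prime) (H : ℤ) :
    ∃ (v : ℕ) (A : ℤ), (H ≠ 0 → ¬ (q : ℤ) ∣ A) ∧ H = (q : ℤ) ^ v * A := by
  by_cases hH : H = 0
  · exact ⟨0, 0, fun h => absurd hH h, by rw [hH, mul_zero]⟩
  · obtain ⟨c, hc1, hc2⟩ := (Int.finiteMultiplicity_iff.2 ⟨by simpa using hq.ne_one, hH⟩ :
      FiniteMultiplicity (q : ℤ) H).exists_eq_pow_mul_and_not_dvd
    exact ⟨_, c, fun _ => hc2, hc1⟩

/-- the size of a row -/
lemma row_le {k : ℕ} {q : R → ℕ} (hq : ∀ ρ, 1 ≤ q ρ) (r : Fin k → R) (n : Fin k → ℕ)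
    (h : Fin k → ℤ) {B : ℝ} (hB : ∀ i, |(h i : ℝ)| ≤ B) (hB0 : 0 ≤ B) (ρ : R) (m : ℕ)
    (hn : ∀ i, r i = ρ → n i ≤ m) : |(row q r n h ρ : ℝ)| ≤ k * (B * (q ρ : ℝ) ^ m) := by
  have hq1 : (1 : ℝ) ≤ q ρ := by exact_mod_cast hq ρ
  unfold row
  push_cast
  refine (abs_sum_le_sum_abs _ _).trans ?_
  refine (sum_le_card_nsmul _ _ (B * (q ρ : ℝ) ^ m) fun i _ => ?_).trans ?_
  · split_ifs with hi
    · rw [abs_mul, abs_of_nonneg (by positivity : (0 : ℝ) ≤ (q ρ : ℝ) ^ n i)]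
      have h2 : (q ρ : ℝ) ^ n i ≤ (q ρ : ℝ) ^ m := pow_le_pow_right₀ hq1 (hn i hi)
      exact mul_le_mul (hB i) h2 (by positivity) hB0
    · rw [abs_zero]
      positivity
  · rw [card_univ, Fintype.card_fin, nsmul_eq_mul]

/-- **tests on words of the lowest digits of powers in several bases** -/
theorem pow_tests {p q : R → ℕ} (hq : ∀ ρ, (q ρ).Prime)
    (hne : ∀ ρ σ, ρ ≠ σ → q ρ = q σ → p ρ ≠ p σ)
    (hp2 : ∀ ρ, 2 ≤ p ρ) (hp : ∀ ρ, ¬ q ρ ∣ p ρ) {δ : ℝ} (hδ : 0 < δ) (A : ℝ) (k : ℕ) :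
    ∃ κ : ℝ, 0 < κ ∧ ∃ C : ℝ, ∃ M0 : ℕ, ∀ M : ℕ, M0 ≤ M → ∀ l J s : R → ℕ,
      (∀ ρ, ¬ q ρ ∣ l ρ) → (∀ ρ, δ * log M ≤ s ρ) → (∀ ρ, s ρ ≤ J ρ) →
      (∀ ρ, (J ρ : ℝ) ≤ A * log M) → ∀ (r : Fin k → R) (n w c : Fin k → ℕ),
      (∀ i, n i + w i + s (r i) ≤ J (r i)) → ∀ (P : ℕ → Prop) [DecidablePred P],
      (∀ m, (P m ↔ ∀ i, l (r i) * p (r i) ^ m / q (r i) ^ (J (r i) - (n i + w i)) %
        q (r i) ^ w i = c i)) →
      |((((range M).filter P).card : ℕ) : ℝ) / M - (LebR R).real (WR q r n w c)| ≤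
        C * (M : ℝ) ^ (-κ) := by
  have hq1 : ∀ ρ, 1 ≤ q ρ := fun ρ => (hq ρ).one_lt.le
  have hq2 : ∀ ρ, (2 : ℝ) ≤ q ρ := fun ρ => by exact_mod_cast (hq ρ).two_le
  have hq0 : ∀ ρ, (0 : ℝ) < q ρ := fun ρ => by linarith [hq2 ρ]
  have hlq : ∀ ρ, 1 / 2 ≤ log (q ρ : ℝ) := fun ρ => by
    have h4 : log 2 ≤ log (q ρ : ℝ) := Real.log_le_log (by norm_num) (hq2 ρ)
    have := Real.log_two_gt_d9
    linarith
  obtain ⟨η, hη, M1, hsum⟩ := expsumV hq hp2 hp hne (δ := δ / 2) (C := |A|) (by positivity)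
    (abs_nonneg A)
  set κ : ℝ := min η (δ / 8) with hκ
  have hκ0 : 0 < κ := lt_min hη (by positivity)
  have hκ1 : κ ≤ η := min_le_left _ _
  have hκ2 : κ ≤ δ / 8 := min_le_right _ _
  have hlog : Tendsto (fun M : ℕ => log (M : ℝ)) atTop atTop :=
    Real.tendsto_log_atTop.comp tendsto_natCast_atTop_atTop
  obtain ⟨M0, hM0⟩ := eventually_atTop.1 ((eventually_ge_atTop 1).and
    ((eventually_ge_atTop M1).and (hlog.eventually_ge_atTop (log (k + 1) / (δ / 8)))))
  refine ⟨κ / (3 * k + 4), by positivity, 3 ^ k + k * 29, M0,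
    fun M hM l J s hl hs hsJ hJ r n w c hn P _ hP => ?_⟩
  obtain ⟨m1, m2, m3⟩ := hM0 M hM
  rw [div_le_iff₀ (by positivity)] at m3
  have hMp : (0 : ℝ) < M := by exact_mod_cast m1
  have hlM : 0 ≤ log (M : ℝ) := Real.log_natCast_nonneg M
  have key := fam_test (τ := κ * log M) (by positivity) (T := range M)
    ⟨0, mem_range.2 (by omega)⟩ (fun m ρ => l ρ * p ρ ^ m) hq1 J r n w c
    (fun i => by have := hn i; omega)
    (by
      intro h hh hne
      right
      set S : Finset R := univ.filter fun ρ => row q r n h ρ ≠ 0 with hS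
      have hSne : S.Nonempty := by
        obtain ⟨ρ, hρ⟩ := hne
        exact ⟨ρ, by rw [hS, mem_filter]; exact ⟨mem_univ _, hρ⟩⟩
      choose v B hB hv using fun ρ => exists_val (hq ρ) (row q r n h ρ)
      have hmem : ∀ ρ, ρ ∈ S → row q r n h ρ ≠ 0 := fun ρ hρ => by
        rw [hS, mem_filter] at hρ
        exact hρ.2
      have hvle : ∀ ρ ∈ S, (v ρ : ℝ) ≤ (J ρ - s ρ : ℕ) + δ / 2 * log M := by
        intro ρ hρ
        have hne' := hmem ρ hρ
        have h1 := row_le hq1 r n h hh (exp_pos _).le ρ (J ρ - s ρ) (fun i hi => by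
          have := hn i
          rw [hi] at this
          omega)
        have h2 : (q ρ : ℝ) ^ v ρ ≤ |(row q r n h ρ : ℝ)| := by
          rw [hv ρ]
          push_cast
          rw [abs_mul, abs_of_nonneg (pow_nonneg (hq0 ρ).le _)]
          refine le_mul_of_one_le_right (pow_nonneg (hq0 ρ).le _) ?_
          have : 1 ≤ |B ρ| := Int.one_le_abs (fun h => hB ρ hne' (by rw [h]; exact dvd_zero _))
          exact_mod_cast this
        have h3 : (k : ℝ) * (exp (κ * log M) * (q ρ : ℝ) ^ (J ρ - s ρ)) ≤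
            (k + 1) * (exp (κ * log M) * (q ρ : ℝ) ^ (J ρ - s ρ)) := by
          have : 0 ≤ exp (κ * log M) * (q ρ : ℝ) ^ (J ρ - s ρ) :=
            mul_nonneg (exp_pos _).le (pow_nonneg (hq0 ρ).le _)
          nlinarith
        have h4 := Real.log_le_log (pow_pos (hq0 ρ) _) (h2.trans (h1.trans h3))
        have hqp : (0 : ℝ) < (q ρ : ℝ) ^ (J ρ - s ρ) := pow_pos (hq0 ρ) _
        rw [Real.log_pow, Real.log_mul (by positivity) (by positivity), Real.log_mul (by positivity)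
          (by positivity), Real.log_exp, Real.log_pow] at h4
        have h5 : (v ρ : ℝ) * log (q ρ) ≤ ((J ρ - s ρ : ℕ) + δ / 2 * log M) * log (q ρ) := by
          have e1 : κ * log M ≤ δ / 8 * log M := mul_le_mul_of_nonneg_right hκ2 hlM
          have e2 : δ / 2 * log M * (1 / 2) ≤ δ / 2 * log M * log (q ρ) :=
            mul_le_mul_of_nonneg_left (hlq ρ) (by positivity)
          linarith
        exact le_of_mul_le_mul_right h5 (by linarith [hlq ρ])
      have hvJ : ∀ ρ ∈ S, v ρ ≤ J ρ := by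
        intro ρ hρ
        have h1 := hvle ρ hρ
        rw [Nat.cast_sub (hsJ ρ)] at h1
        have h2 := hs ρ
        have h3 : (v ρ : ℝ) ≤ J ρ := by
          have : δ / 2 * log M ≤ δ * log M := by nlinarith
          linarith
        exact_mod_cast h3
      have hmain := hsum M m2 S hSne (fun ρ => J ρ - v ρ) (fun ρ hρ => by
          have h1 := hvle ρ hρ
          rw [Nat.cast_sub (hsJ ρ)] at h1
          have h2 := hs ρ
          rw [Nat.cast_sub (hvJ ρ hρ)]
          constructor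
          · linarith
          · have h3 := hJ ρ
            have h4 : A * log M ≤ |A| * log M := mul_le_mul_of_nonneg_right (le_abs_self A) hlM
            have : (0 : ℝ) ≤ v ρ := Nat.cast_nonneg _
            linarith) (fun ρ => B ρ * l ρ) (fun ρ hρ hd => by
          rcases (Nat.prime_iff_prime_int.1 (hq ρ)).dvd_or_dvd hd with hd | hd
          · exact hB ρ (hmem ρ hρ) hd
          · exact hl ρ (by exact_mod_cast hd))
      have e1 : ∀ m : ℕ, e (∑ ρ, (row q r n h ρ : ℝ) / (q ρ : ℝ) ^ J ρ * ((l ρ * p ρ ^ m : ℕ) : ℝ)) =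
          Pool.Agent.Helper602.MK.ee (∑ ρ ∈ S, ((B ρ * l ρ : ℤ) : ℝ) * (p ρ : ℝ) ^ m /
            (q ρ : ℝ) ^ (J ρ - v ρ)) := by
        intro m
        rw [e_ee]
        congr 1
        have h0 : ∑ ρ, (row q r n h ρ : ℝ) / (q ρ : ℝ) ^ J ρ * ((l ρ * p ρ ^ m : ℕ) : ℝ) =
            ∑ ρ ∈ S, (row q r n h ρ : ℝ) / (q ρ : ℝ) ^ J ρ * ((l ρ * p ρ ^ m : ℕ) : ℝ) := by
          rw [hS, sum_filter]
          refine sum_congr rfl fun ρ _ => ?_
          split_ifs with h1
          · rfl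
          · push Not at h1
            rw [h1, Int.cast_zero, zero_div, zero_mul]
        rw [h0]
        refine sum_congr rfl fun ρ hρ => ?_
        rw [hv ρ]
        have h5 : (q ρ : ℝ) ^ J ρ = (q ρ : ℝ) ^ (J ρ - v ρ) * (q ρ : ℝ) ^ v ρ := by
          rw [← pow_add]
          congr 1
          have := hvJ ρ hρ
          omega
        have hq0' := hq0 ρ
        rw [h5]
        push_cast
        field_simp
      simp only [e1]
      rw [card_range, one_div, inv_mul_le_iff₀ hMp]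
      refine hmain.trans ?_
      refine mul_le_mul_of_nonneg_left (exp_le_exp.2 ?_) hMp.le
      have : κ * log M ≤ η * log M := mul_le_mul_of_nonneg_right hκ1 hlM
      linarith)
    P (fun m _ => hP m)
  rw [card_range] at key
  refine key.trans (le_of_eq ?_)
  congr 1
  rw [Real.rpow_def_of_pos hMp]
  congr 1
  ring

end Pool.Agent.T9h42.JB
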