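import Pool.Agent.T9h42.JB.JClt
import Pool.Agent.T9h42.JB.MulT
import Pool.Agent.T9h42.JB.PowT

/-!
# The joint central limit theorem, uniformly in the windows
-/

set_option autoImplicit false
set_option linter.unusedSectionVars false

namespace Pool.Agent.T9h42.JB

open Finset Real MeasureTheory Filter Topology ProbabilityTheory
open Pool.Agent.Y933.KD

variable {R : Type} [Fintype R] [DecidableEq R]

/-- the word of `w` digits of `Y` in base `q` with its highest digit at the place `i` -/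
def wrd (q w i Y : ℕ) : ℕ := Y / q ^ (i + 1 - w) % q ^ w

/-- the limiting variance -/
noncomputable def vr (q w : ℕ) (F : ℕ → ℝ) : ℝ := cv q w F 0 + 2 * ∑ h ∈ Ico 1 w, cv q w F h

lemma sum_window (f : ℕ → ℝ) (t L : ℕ) :
    ∑ i ∈ Ico t (t + L), f i = ∑ n ∈ range L, f (t + L - 1 - n) := by
  rw [Finset.sum_Ico_eq_sum_range, Nat.add_sub_cancel_left, ← Finset.sum_range_reflect]
  refine sum_congr rfl fun n hn => ?_
  rw [mem_range] at hn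
  congr 1
  omega

lemma sum_cen {q w : ℕ} (F : ℕ → ℝ) (L : ℕ) (D : ℕ → ℕ) (hD : ∀ n, D n < q ^ w) :
    ∑ n ∈ range L, cen q w F (D n) = ∑ n ∈ range L, F (D n) - L * mn q w F := by
  have h1 : ∀ n ∈ range L, cen q w F (D n) = F (D n) - mn q w F := by
    intro n _
    unfold cen
    rw [if_pos (hD n)]
  rw [sum_congr rfl h1, sum_sub_distrib, sum_const, card_range, nsmul_eq_mul]

/-- the errors are negligible -/
lemma err_lim {M : ℕ → ℕ} (hM : Tendsto M atTop atTop) {B : ℕ → ℝ} {Cst : ℝ} (hB0 : ∀ k, 0 ≤ B k)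
    (hB : ∀ k, B k ≤ Cst * log (M k)) (j : ℕ) (C : ℝ) {κ : ℝ} (hκ : 0 < κ) :
    Tendsto (fun k => B k ^ j * (C * (M k : ℝ) ^ (-κ))) atTop (𝓝 0) := by
  have h1 : Tendsto (fun x : ℝ => log x ^ j * x ^ (-κ)) atTop (𝓝 0) := by
    have h2 := (isLittleO_log_rpow_rpow_atTop (j : ℝ) hκ).tendsto_div_nhds_zero
    refine h2.congr' ?_
    filter_upwards [eventually_gt_atTop (0 : ℝ)] with x hx
    rw [Real.rpow_natCast, Real.rpow_neg hx.le, div_eq_mul_inv]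
  have h3 := (h1.comp (tendsto_natCast_atTop_atTop.comp hM)).const_mul (|Cst| ^ j * |C|)
  rw [mul_zero] at h3
  refine squeeze_zero_norm' (Eventually.of_forall fun k => ?_) h3
  simp only [Function.comp_apply]
  have hl : 0 ≤ log (M k : ℝ) := Real.log_natCast_nonneg _
  have h4 : B k ≤ |Cst| * log (M k) := (hB k).trans (mul_le_mul_of_nonneg_right (le_abs_self _) hl)
  rw [Real.norm_eq_abs, abs_mul, abs_mul, abs_of_nonneg (pow_nonneg (hB0 k) j),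
    abs_of_nonneg (by positivity : (0 : ℝ) ≤ (M k : ℝ) ^ (-κ))]
  calc B k ^ j * (|C| * (M k : ℝ) ^ (-κ)) ≤ (|Cst| * log (M k)) ^ j * (|C| * (M k : ℝ) ^ (-κ)) := by
        refine mul_le_mul_of_nonneg_right (pow_le_pow_left₀ (hB0 k) h4 j) (by positivity)
    _ = |Cst| ^ j * |C| * (log (M k) ^ j * (M k : ℝ) ^ (-κ)) := by
        rw [mul_pow]
        ring

open Classical in
/-- the joint law from the tests -/
theorem joint_unif (b w : R → ℕ) (F : R → ℕ → ℝ) (hb : ∀ ρ, 1 ≤ b ρ) (hw : ∀ ρ, 1 ≤ w ρ)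
    (hσ : ∀ ρ, 0 < vr (b ρ) (w ρ) (F ρ)) (a : R → ℝ) {ε : ℝ} (hε : 0 < ε) (A : ℝ)
    (S : ℕ → Finset ℕ → (ℕ → R → ℕ) → (R → ℕ) → (R → ℕ) → Prop)
    (hS1 : ∀ M T X t L, S M T X t L → T.Nonempty ∧ ∀ ρ, (L ρ : ℝ) ≤ A * log M)
    (hS2 : ∀ j : ℕ, ∃ κ : ℝ, 0 < κ ∧ ∃ C : ℝ, ∃ M0 : ℕ, ∀ M : ℕ, M0 ≤ M → ∀ T X t L,
      S M T X t L → ∀ (r : Fin j → R) (n c : Fin j → ℕ), (∀ i, n i < L (r i)) →
      |((T.filter fun m => ∀ i, wrd (b (r i)) (w (r i)) (t (r i) + L (r i) - 1 - n i)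
        (X m (r i)) = c i).card : ℝ) / T.card - (LebR R).real (WR b r n (fun i => w (r i)) c)| ≤
        C * (M : ℝ) ^ (-κ)) :
    ∃ L₀ M₀ : ℕ, ∀ M : ℕ, M₀ ≤ M → ∀ T X t L, S M T X t L → (∀ ρ, L₀ ≤ L ρ) →
      |((T.filter fun m => ∀ ρ, ∑ i ∈ Ico (t ρ) (t ρ + L ρ), F ρ (wrd (b ρ) (w ρ) i (X m ρ)) -
        L ρ * mn (b ρ) (w ρ) (F ρ) ≤ a ρ * √(vr (b ρ) (w ρ) (F ρ) * L ρ)).card : ℝ) / T.card -
        ∏ ρ, Phi (a ρ)| ≤ ε := by
  by_contra hcon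
  push Not at hcon
  have hc : ∀ k : ℕ, ∃ M : ℕ, k ≤ M ∧ ∃ (T : Finset ℕ) (X : ℕ → R → ℕ) (t L : R → ℕ),
      S M T X t L ∧ (∀ ρ, k ≤ L ρ) ∧
      ε < |((T.filter fun m => ∀ ρ, ∑ i ∈ Ico (t ρ) (t ρ + L ρ), F ρ (wrd (b ρ) (w ρ) i (X m ρ)) -
        L ρ * mn (b ρ) (w ρ) (F ρ) ≤ a ρ * √(vr (b ρ) (w ρ) (F ρ) * L ρ)).card : ℝ) / T.card -
        ∏ ρ, Phi (a ρ)| := by
    intro k
    obtain ⟨M, hM, T, X, t, L, h1, h2, h3⟩ := hcon k k
    exact ⟨M, hM, T, X, t, L, h1, h2, h3⟩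
  choose M hM T X t L h1 h2 h3 using hc
  have hMt : Tendsto M atTop atTop := tendsto_atTop_mono hM tendsto_id
  have hLt : ∀ ρ, Tendsto (fun k => L k ρ) atTop atTop := fun ρ =>
    tendsto_atTop_mono (fun k => h2 k ρ) tendsto_id
  choose κ hκ C M0 hC using hS2
  have hσ' : ∀ ρ, 0 < sigma2 (b ρ) (w ρ) (cen (b ρ) (w ρ) (F ρ)) := fun ρ => by
    rw [sigma2_cen (hb ρ)]
    exact hσ ρ
  set D : ℕ → ℕ → R → ℕ → ℕ := fun k m ρ n =>
    wrd (b ρ) (w ρ) (t k ρ + L k ρ - 1 - n) (X k m ρ) with hD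
  have hDlt : ∀ k m ρ n, D k m ρ n < b ρ ^ w ρ := fun k m ρ n =>
    Nat.mod_lt _ (pow_pos (hb ρ) _)
  have key := clt_joint (Kb := ∑ ρ, ∑ c ∈ range (b ρ ^ w ρ), |F ρ c - mn (b ρ) (w ρ) (F ρ)|)
    (G := fun ρ => cen (b ρ) (w ρ) (F ρ)) hb hw (fun ρ c => by
      refine (cen_le (b ρ) (w ρ) (F ρ) c).trans ?_
      exact single_le_sum (f := fun ρ => ∑ c ∈ range (b ρ ^ w ρ), |F ρ c - mn (b ρ) (w ρ) (F ρ)|)
        (fun σ _ => sum_nonneg fun _ _ => abs_nonneg _) (mem_univ ρ))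
    (fun ρ => cen_sum (hb ρ) (F ρ)) hσ' T (fun k => (hS1 _ _ _ _ _ (h1 k)).1) D hDlt L hLt
    (fun j k => C j * (M k : ℝ) ^ (-κ j)) (fun j => by
      filter_upwards [hMt.eventually_ge_atTop (M0 j)] with k hk r n c hn
      exact hC j (M k) hk (T k) (X k) (t k) (L k) (h1 k) r n c hn)
    (fun j => err_lim hMt (Cst := Fintype.card R * A) (fun k => sum_nonneg fun ρ _ => Nat.cast_nonneg _)
      (fun k => by
        refine (sum_le_sum fun ρ _ => (hS1 _ _ _ _ _ (h1 k)).2 ρ).trans ?_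
        rw [sum_const, card_univ, nsmul_eq_mul]
        exact le_of_eq (by ring)) j (C j) (hκ j)) a
    (fun k m => ∀ ρ, ∑ i ∈ Ico (t k ρ) (t k ρ + L k ρ), F ρ (wrd (b ρ) (w ρ) i (X k m ρ)) -
        L k ρ * mn (b ρ) (w ρ) (F ρ) ≤ a ρ * √(vr (b ρ) (w ρ) (F ρ) * L k ρ))
    (fun k m => by
      refine forall_congr' fun ρ => ?_
      rw [sum_cen (F ρ) (L k ρ) (D k m ρ) (hDlt k m ρ), sigma2_cen (hb ρ), sum_window]
      rfl)
  obtain ⟨k, hk⟩ := ((Metric.tendsto_nhds.mp key) ε hε).exists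
  rw [Real.dist_eq] at hk
  exact absurd hk (not_lt.mpr (h3 k).le)

/-- the number of places of the multiples -/
lemma places_le {p q N J : ℕ} (hp : 2 ≤ p) (hq : 2 ≤ q) {A : ℝ} {M : ℕ}
    (hN : (N : ℝ) ≤ A * log M) (h : q ^ J ≤ p ^ N) :
    (J : ℝ) ≤ (2 * |A| * log p) * log M := by
  have hqR : (2 : ℝ) ≤ q := by exact_mod_cast hq
  have hpR : (2 : ℝ) ≤ p := by exact_mod_cast hp
  have hlM : 0 ≤ log (M : ℝ) := Real.log_natCast_nonneg M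
  have hlq : 1 / 2 ≤ log (q : ℝ) := by
    have h4 : log 2 ≤ log (q : ℝ) := Real.log_le_log (by norm_num) hqR
    have := Real.log_two_gt_d9
    linarith
  have hlp : 0 ≤ log (p : ℝ) := Real.log_nonneg (by linarith)
  have h1 : (J : ℝ) * log q ≤ N * log p := by
    rw [← Real.log_pow, ← Real.log_pow]
    apply Real.log_le_log (by positivity)
    exact_mod_cast h
  have h2 : (J : ℝ) * (1 / 2) ≤ J * log q := by gcongr
  have h3 : (N : ℝ) * log p ≤ |A| * log M * log p := by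
    have : A * log M ≤ |A| * log M := mul_le_mul_of_nonneg_right (le_abs_self A) hlM
    gcongr
    linarith
  nlinarith

open Classical in
/-- the multiples -/
theorem joint_mul {p b w : R → ℕ} (F : R → ℕ → ℝ) (hp : ∀ ρ, 2 ≤ p ρ) (hb : ∀ ρ, 2 ≤ b ρ)
    (hpb : ∀ ρ, (p ρ).Coprime (b ρ)) (hbb : ∀ ρ σ, ρ ≠ σ → (b ρ).Coprime (b σ))
    (hw : ∀ ρ, 1 ≤ w ρ) (hσ : ∀ ρ, 0 < vr (b ρ) (w ρ) (F ρ)) (a : R → ℝ) {ε : ℝ} (hε : 0 < ε)
    (A : ℝ) :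
    ∃ L₀ M₀ : ℕ, ∀ M : ℕ, M₀ ≤ M → ∀ N y t L : R → ℕ, (∀ ρ, (N ρ : ℝ) ≤ A * log M) →
      (∀ ρ, L₀ ≤ L ρ) → (∀ ρ, w ρ ≤ t ρ + 1) → (∀ ρ, b ρ ^ (t ρ + L ρ) ≤ p ρ ^ N ρ) →
      ∀ (P : ℕ → Prop) [DecidablePred P], (∀ m, P m ↔ ∀ ρ, ∑ i ∈ Ico (t ρ) (t ρ + L ρ),
        F ρ (wrd (b ρ) (w ρ) i (m * p ρ ^ N ρ + y ρ)) -
        L ρ * mn (b ρ) (w ρ) (F ρ) ≤ a ρ * √(vr (b ρ) (w ρ) (F ρ) * L ρ)) →
      |(((Icc 1 M).filter P).card : ℝ) / M - ∏ ρ, Phi (a ρ)| ≤ ε := by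
  have hb1 : ∀ ρ, 1 ≤ b ρ := fun ρ => (by norm_num : 1 ≤ 2).trans (hb ρ)
  have hp1 : ∀ ρ, 1 ≤ p ρ := fun ρ => (by norm_num : 1 ≤ 2).trans (hp ρ)
  have hlp : ∀ ρ, 0 ≤ log (p ρ : ℝ) := fun ρ => Real.log_natCast_nonneg _
  set A1 : ℝ := |A| + ∑ ρ, 2 * |A| * log (p ρ) with hA1
  have hsum0 : 0 ≤ ∑ ρ, 2 * |A| * log (p ρ : ℝ) := sum_nonneg fun ρ _ => by
    have := hlp ρ
    positivity
  have hA11 : A ≤ A1 := (le_abs_self A).trans (by rw [hA1]; linarith)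
  have hA12 : ∀ ρ, 2 * |A| * log (p ρ : ℝ) ≤ A1 := fun ρ => by
    have h1 := single_le_sum (f := fun ρ => 2 * |A| * log (p ρ : ℝ))
      (fun σ _ => by have := hlp σ; positivity) (mem_univ ρ)
    rw [hA1]
    linarith [abs_nonneg A]
  have hJ : ∀ M : ℕ, ∀ N J : R → ℕ, (∀ ρ, (N ρ : ℝ) ≤ A * log M) → (∀ ρ, b ρ ^ J ρ ≤ p ρ ^ N ρ) →
      ∀ ρ, (J ρ : ℝ) ≤ A1 * log M := fun M N J hN h ρ =>
    (places_le (hp ρ) (hb ρ) (hN ρ) (h ρ)).trans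
      (mul_le_mul_of_nonneg_right (hA12 ρ) (Real.log_natCast_nonneg M))
  obtain ⟨L₀, M₀, h⟩ := joint_unif b w F hb1 hw hσ a hε A1
    (fun M T X t L => 1 ≤ M ∧ T = Icc 1 M ∧ ∃ N y : R → ℕ, (X = fun m ρ => m * p ρ ^ N ρ + y ρ) ∧
      (∀ ρ, (N ρ : ℝ) ≤ A * log M) ∧ (∀ ρ, w ρ ≤ t ρ + 1) ∧
      (∀ ρ, b ρ ^ (t ρ + L ρ) ≤ p ρ ^ N ρ))
    (by
      rintro M T X t L ⟨hM, rfl, N, y, rfl, hN, hwt, hbp⟩
      refine ⟨by rw [Finset.nonempty_Icc]; exact hM, fun ρ => ?_⟩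
      have h1 := hJ M N (fun ρ => t ρ + L ρ) hN hbp ρ
      push_cast at h1
      have : (0 : ℝ) ≤ t ρ := Nat.cast_nonneg _
      linarith)
    (by
      intro j
      obtain ⟨κ, hκ, C, M0, hC⟩ := mul_tests hp1 hb1 hpb hbb A1 j
      refine ⟨κ, hκ, C, M0, ?_⟩
      rintro M hM0 T X t L ⟨hM, rfl, N, y, rfl, hN, hwt, hbp⟩ r n c hn
      have hlM : 0 ≤ log (M : ℝ) := Real.log_natCast_nonneg M
      have key := hC M hM0 N (fun ρ => t ρ + L ρ) y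
        (fun ρ => (hN ρ).trans (mul_le_mul_of_nonneg_right hA11 hlM))
        (hJ M N _ hN hbp) hbp r n (fun i => w (r i)) c (fun i => by
          have := hn i
          have := hwt (r i)
          omega)
        (fun m => ∀ i, wrd (b (r i)) (w (r i)) (t (r i) + L (r i) - 1 - n i)
          (m * p (r i) ^ N (r i) + y (r i)) = c i)
        (fun m => by
          refine forall_congr' fun i => ?_
          unfold wrd
          have h1 : t (r i) + L (r i) - 1 - n i + 1 - w (r i) =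
              t (r i) + L (r i) - (n i + w (r i)) := by
            have := hn i
            have := hwt (r i)
            omega
          rw [h1])
      rw [Nat.card_Icc, Nat.add_sub_cancel]
      exact key)
  refine ⟨L₀, max M₀ 1, fun M hM N y t L hN hL hwt hbp P _ hP => ?_⟩
  have key := h M (le_of_max_le_left hM) (Icc 1 M) (fun m ρ => m * p ρ ^ N ρ + y ρ) t L
    ⟨le_of_max_le_right hM, rfl, N, y, rfl, hN, hwt, hbp⟩ hL
  rw [Nat.card_Icc, Nat.add_sub_cancel] at key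
  rw [filter_congr (fun m _ => hP m)]
  exact key

open Classical in
/-- the powers -/
theorem joint_pow {p q w : R → ℕ} (F : R → ℕ → ℝ) (hp : ∀ ρ, 2 ≤ p ρ) (hq : ∀ ρ, (q ρ).Prime)
    (hpq : ∀ ρ, ¬ q ρ ∣ p ρ) (hne : ∀ ρ σ, ρ ≠ σ → q ρ = q σ → p ρ ≠ p σ)
    (hw : ∀ ρ, 1 ≤ w ρ) (hσ : ∀ ρ, 0 < vr (q ρ) (w ρ) (F ρ)) (a : R → ℝ) {ε δ : ℝ} (hε : 0 < ε)
    (hδ : 0 < δ) (A : ℝ) :
    ∃ L₀ M₀ : ℕ, ∀ M : ℕ, M₀ ≤ M → ∀ l t L : R → ℕ, (∀ ρ, ¬ q ρ ∣ l ρ) →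
      (∀ ρ, L₀ ≤ L ρ) → (∀ ρ, δ * log M + w ρ ≤ t ρ + 1) →
      (∀ ρ, ((t ρ + L ρ : ℕ) : ℝ) ≤ A * log M) →
      ∀ (P : ℕ → Prop) [DecidablePred P], (∀ n, P n ↔ ∀ ρ, ∑ i ∈ Ico (t ρ) (t ρ + L ρ),
        F ρ (wrd (q ρ) (w ρ) i (l ρ * p ρ ^ n)) -
        L ρ * mn (q ρ) (w ρ) (F ρ) ≤ a ρ * √(vr (q ρ) (w ρ) (F ρ) * L ρ)) →
      |(((range M).filter P).card : ℝ) / M - ∏ ρ, Phi (a ρ)| ≤ ε := by
  have hq1 : ∀ ρ, 1 ≤ q ρ := fun ρ => (hq ρ).one_lt.le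
  obtain ⟨L₀, M₀, h⟩ := joint_unif q w F hq1 hw hσ a hε A
    (fun M T X t L => 1 ≤ M ∧ T = range M ∧ ∃ l : R → ℕ, (X = fun n ρ => l ρ * p ρ ^ n) ∧
      (∀ ρ, ¬ q ρ ∣ l ρ) ∧ (∀ ρ, δ * log M + w ρ ≤ t ρ + 1) ∧
      (∀ ρ, ((t ρ + L ρ : ℕ) : ℝ) ≤ A * log M))
    (by
      rintro M T X t L ⟨hM, rfl, l, rfl, hl, hwt, htL⟩
      refine ⟨⟨0, mem_range.2 (by omega)⟩, fun ρ => ?_⟩
      have h1 := htL ρ
      push_cast at h1
      have : (0 : ℝ) ≤ t ρ := Nat.cast_nonneg _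
      linarith)
    (by
      intro j
      obtain ⟨κ, hκ, C, M0, hC⟩ := pow_tests hq hne hp hpq hδ A j
      refine ⟨κ, hκ, C, M0, ?_⟩
      rintro M hM0 T X t L ⟨hM, rfl, l, rfl, hl, hwt, htL⟩ r n c hn
      have hlM : 0 ≤ log (M : ℝ) := Real.log_natCast_nonneg M
      have hwt' : ∀ ρ, w ρ ≤ t ρ + 1 := fun ρ => by
        have h1 : (w ρ : ℝ) ≤ t ρ + 1 := by
          have := hwt ρ
          have : 0 ≤ δ * log M := by positivity
          linarith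
        exact_mod_cast h1
      have key := hC M hM0 l (fun ρ => t ρ + L ρ) (fun ρ => t ρ + 1 - w ρ) hl
        (fun ρ => by
          rw [Nat.cast_sub (hwt' ρ)]
          have := hwt ρ
          push_cast
          linarith)
        (fun ρ => by
          have := hw ρ
          omega) htL r n (fun i => w (r i)) c
        (fun i => by
          have := hn i
          have := hwt' (r i)
          omega)
        (fun m => ∀ i, wrd (q (r i)) (w (r i)) (t (r i) + L (r i) - 1 - n i)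
          (l (r i) * p (r i) ^ m) = c i)
        (fun m => by
          refine forall_congr' fun i => ?_
          unfold wrd
          have h1 : t (r i) + L (r i) - 1 - n i + 1 - w (r i) =
              t (r i) + L (r i) - (n i + w (r i)) := by
            have := hn i
            have := hwt' (r i)
            omega
          rw [h1])
      rw [card_range]
      exact key)
  refine ⟨L₀, max M₀ 1, fun M hM l t L hl hL hwt htL P _ hP => ?_⟩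
  have key := h M (le_of_max_le_left hM) (range M) (fun n ρ => l ρ * p ρ ^ n) t L
    ⟨le_of_max_le_right hM, rfl, l, rfl, hl, hwt, htL⟩ hL
  rw [card_range] at key
  rw [filter_congr (fun n _ => hP n)]
  exact key

end Pool.Agent.T9h42.JB
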