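import Pool.Agent.T9h42.JB.Far
import Pool.Agent.T9h42.JB.Fam

/-!
# The diophantine input for multiples in several bases
-/

set_option autoImplicit false
set_option linter.unusedSectionVars false

open Finset Filter Topology

namespace Pool.Agent.T9h42.JB

variable {R : Type} [Fintype R] [DecidableEq R]

/-- the generators -/
def gen (p b : R → ℕ) : R ⊕ R → ℕ := Sum.elim p b

/-- the exponents of a term -/
def exE (N J : R → ℕ) (ρ : R) (n : ℕ) : R ⊕ R → ℕ :=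
  Sum.elim (fun σ => if σ = ρ then N σ else 0) (fun σ => if σ = ρ then n else J σ)

/-- the exponents of the denominator -/
def exF (J : R → ℕ) : R ⊕ R → ℕ := Sum.elim (fun _ => 0) J

lemma mo_exF (p b J : R → ℕ) : mo (gen p b) (exF J) = ∏ σ, (b σ : ℤ) ^ J σ := by
  unfold mo gen exF
  rw [Fintype.prod_sum_type]
  simp

lemma mo_exE (p b N J : R → ℕ) (ρ : R) (n : ℕ) : mo (gen p b) (exE N J ρ n) =
    (p ρ : ℤ) ^ N ρ * ((b ρ : ℤ) ^ n * ∏ σ ∈ Finset.univ.erase ρ, (b σ : ℤ) ^ J σ) := by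
  unfold mo gen exE
  rw [Fintype.prod_sum_type]
  simp only [Sum.elim_inl, Sum.elim_inr]
  congr 1
  · rw [Finset.prod_eq_single ρ]
    · rw [if_pos rfl]
    · intro σ _ hσ
      rw [if_neg hσ, pow_zero]
    · intro h
      exact absurd (mem_univ ρ) h
  · rw [← Finset.mul_prod_erase _ _ (mem_univ ρ), if_pos rfl]
    congr 1
    refine prod_congr rfl fun σ hσ => ?_
    rw [if_neg (Finset.ne_of_mem_erase hσ)]

lemma mo_ratio {b : R → ℕ} (hb : ∀ ρ, 1 ≤ b ρ) (p N J : R → ℕ) (ρ : R) (n : ℕ) :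
    ((mo (gen p b) (exE N J ρ n) : ℤ) : ℝ) = ((mo (gen p b) (exF J) : ℤ) : ℝ) *
      ((b ρ : ℝ) ^ n * ((p ρ : ℝ) ^ N ρ / (b ρ : ℝ) ^ J ρ)) := by
  rw [mo_exE, mo_exF, ← Finset.mul_prod_erase _ _ (mem_univ ρ)]
  have : (0 : ℝ) < b ρ := by exact_mod_cast hb ρ
  push_cast
  field_simp

theorem far {p b : R → ℕ} (hp : ∀ ρ, 1 ≤ p ρ) (hb : ∀ ρ, 1 ≤ b ρ) (k : ℕ) (A : ℝ) {δ : ℝ}
    (hδ : 0 < δ) :
    ∃ η : ℝ, 0 < η ∧ ∃ x0 : ℝ, ∀ x : ℝ, x0 ≤ x → ∀ (N J : R → ℕ) (r : Fin k → R)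
      (n : Fin k → ℕ) (h : Fin k → ℤ) (P : ℤ), (∀ ρ, (N ρ : ℝ) ≤ A * x) →
      (∀ ρ, (J ρ : ℝ) ≤ A * x) → (∀ i, (n i : ℝ) ≤ A * x) → (∀ ρ, b ρ ^ J ρ ≤ p ρ ^ N ρ) →
      (∀ i, |(h i : ℝ)| ≤ Real.exp (η * x)) →
      ∑ ρ, (row b r n h ρ : ℝ) * ((p ρ : ℝ) ^ N ρ / (b ρ : ℝ) ^ J ρ) ≠ P →
      Real.exp (-(δ * x)) <
        |∑ ρ, (row b r n h ρ : ℝ) * ((p ρ : ℝ) ^ N ρ / (b ρ : ℝ) ^ J ρ) - P| := by
  by_contra hcon
  push Not at hcon
  have hc : ∀ t : ℕ, ∃ x : ℝ, (t : ℝ) ≤ x ∧ ∃ (N J : R → ℕ) (r : Fin k → R)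
      (n : Fin k → ℕ) (h : Fin k → ℤ) (P : ℤ), (∀ ρ, (N ρ : ℝ) ≤ A * x) ∧
      (∀ ρ, (J ρ : ℝ) ≤ A * x) ∧ (∀ i, (n i : ℝ) ≤ A * x) ∧ (∀ ρ, b ρ ^ J ρ ≤ p ρ ^ N ρ) ∧
      (∀ i, |(h i : ℝ)| ≤ Real.exp (1 / ((t : ℝ) + 1) * x)) ∧
      ∑ ρ, (row b r n h ρ : ℝ) * ((p ρ : ℝ) ^ N ρ / (b ρ : ℝ) ^ J ρ) ≠ P ∧
      |∑ ρ, (row b r n h ρ : ℝ) * ((p ρ : ℝ) ^ N ρ / (b ρ : ℝ) ^ J ρ) - P| ≤
        Real.exp (-(δ * x)) := by
    intro t
    obtain ⟨x, hx, N, J, r, n, h, P, h1, h2, h3, h4, h5, h6, h7⟩ :=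
      hcon (1 / ((t : ℝ) + 1)) (by positivity) t
    exact ⟨x, hx, N, J, r, n, h, P, h1, h2, h3, h4, h5, h6, h7⟩
  choose x hx N J r n h P h1 h2 h3 h4 h5 h6 h7 using hc
  have hxt : Tendsto x atTop atTop := tendsto_atTop_mono hx tendsto_natCast_atTop_atTop
  have hx0 : ∀ t, 0 ≤ x t := fun t => (Nat.cast_nonneg t).trans (hx t)
  have hg : ∀ v, 0 < gen p b v := by
    intro v
    cases v with
    | inl ρ => exact hp ρ
    | inr ρ => exact hb ρ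
  set C : ℝ := |A| * ∑ v, Real.log (gen p b v) with hC
  have hlog : ∀ v, 0 ≤ Real.log (gen p b v) := fun v => Real.log_natCast_nonneg _
  have hC0 : 0 ≤ C := mul_nonneg (abs_nonneg _) (sum_nonneg fun v _ => hlog v)
  have hAx : ∀ t, A * x t ≤ |A| * x t := fun t =>
    mul_le_mul_of_nonneg_right (le_abs_self A) (hx0 t)
  have hsize : ∀ t (e : R ⊕ R → ℕ), (∀ v, (e v : ℝ) ≤ |A| * x t) →
      ((mo (gen p b) e : ℤ) : ℝ) ≤ Real.exp (C * x t) := by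
    intro t e he
    have hpos : (0 : ℝ) < ((mo (gen p b) e : ℤ) : ℝ) := by exact_mod_cast mo_pos hg e
    rw [← Real.log_le_iff_le_exp hpos]
    unfold mo
    push_cast
    rw [Real.log_prod (fun v _ => by
      have : (0 : ℝ) < gen p b v := by exact_mod_cast hg v
      positivity)]
    calc ∑ v, Real.log ((gen p b v : ℝ) ^ e v) = ∑ v, e v * Real.log (gen p b v) :=
          sum_congr rfl fun v _ => Real.log_pow _ _
      _ ≤ ∑ v, (|A| * x t) * Real.log (gen p b v) :=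
          sum_le_sum fun v _ => mul_le_mul_of_nonneg_right (he v) (hlog v)
      _ = C * x t := by
          rw [← mul_sum, hC]
          ring
  have hz : ∀ t, (0 : ℝ) ≤ |A| * x t := fun t => mul_nonneg (abs_nonneg _) (hx0 t)
  have hform : ∀ t, ((∑ i, 1 * (mo (gen p b) (exE (N t) (J t) (r t i) (n t i)) * h t i) -
      1 * (mo (gen p b) (exF (J t)) * P t) : ℤ) : ℝ) = ((mo (gen p b) (exF (J t)) : ℤ) : ℝ) *
      (∑ ρ, (row b (r t) (n t) (h t) ρ : ℝ) * ((p ρ : ℝ) ^ N t ρ / (b ρ : ℝ) ^ J t ρ) - P t) := by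
    intro t
    rw [← row_sum b (r t) (n t) (h t) (fun ρ => (p ρ : ℝ) ^ N t ρ / (b ρ : ℝ) ^ J t ρ)]
    push_cast
    rw [mul_sub, mul_sum]
    congr 1
    · refine sum_congr rfl fun i _ => ?_
      rw [mo_ratio hb]
      ring
    · ring
  have hFpos : ∀ t, (0 : ℝ) < ((mo (gen p b) (exF (J t)) : ℤ) : ℝ) := fun t => by
    exact_mod_cast mo_pos hg (exF (J t))
  refine fin_rel (gen p b) hg C hC0 k (Fin k) (by simp) δ hδ x hxt
    (fun t i => exE (N t) (J t) (r t i) (n t i)) (fun t => exF (J t)) h P (fun _ => 1) 1 one_ne_zero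
    ?_ ?_ ?_ ?_ ?_ ?_
  · intro t i
    refine hsize t _ fun v => ?_
    unfold exE
    cases v with
    | inl σ =>
      simp only [Sum.elim_inl]
      split_ifs
      · exact (h1 t σ).trans (hAx t)
      · simpa using hz t
    | inr σ =>
      simp only [Sum.elim_inr]
      split_ifs
      · exact (h3 t i).trans (hAx t)
      · exact (h2 t σ).trans (hAx t)
  · intro t
    refine hsize t _ fun v => ?_
    unfold exF
    cases v with
    | inl σ => simpa using hz t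
    | inr σ => exact (h2 t σ).trans (hAx t)
  · intro t i
    rw [mo_exE, mo_exF, ← Finset.mul_prod_erase _ _ (mem_univ (r t i)), ← mul_assoc]
    have e1 : (0 : ℤ) ≤ ∏ σ ∈ Finset.univ.erase (r t i), (b σ : ℤ) ^ J t σ :=
      prod_nonneg fun σ _ => by positivity
    refine mul_le_mul_of_nonneg_right ?_ e1
    have e2 : ((b (r t i) : ℤ) ^ J t (r t i)) ≤ (p (r t i) : ℤ) ^ N t (r t i) := by
      exact_mod_cast h4 t (r t i)
    have e3 : (1 : ℤ) ≤ (b (r t i) : ℤ) ^ n t i := by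
      have : (1 : ℤ) ≤ b (r t i) := by exact_mod_cast hb (r t i)
      exact one_le_pow₀ this
    have e4 : (0 : ℤ) ≤ (p (r t i) : ℤ) ^ N t (r t i) := by positivity
    nlinarith
  · intro ε hε
    obtain ⟨t0, ht0⟩ := exists_nat_gt (1 / ε)
    filter_upwards [eventually_ge_atTop t0] with t ht i
    refine (h5 t i).trans (Real.exp_le_exp.2 ?_)
    apply mul_le_mul_of_nonneg_right _ (hx0 t)
    rw [div_le_iff₀ (by positivity)]
    have e1 : (t0 : ℝ) ≤ t := by exact_mod_cast ht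
    rw [div_lt_iff₀ hε] at ht0
    nlinarith
  · intro t
    rw [hform t, abs_mul, abs_of_pos (hFpos t)]
    exact mul_le_mul_of_nonneg_left (h7 t) (hFpos t).le
  · intro t h0
    have e1 := hform t
    rw [h0, Int.cast_zero] at e1
    rcases mul_eq_zero.1 e1.symm with e2 | e2
    · exact (hFpos t).ne' e2
    · exact h6 t (by linarith)

end Pool.Agent.T9h42.JB
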