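import Pool.Agent.Y933.KD.Power

/-!
# Comparison of the joint laws modulo one of two vectors of real random variables
-/

set_option autoImplicit false

namespace Pool.Agent.T9h42.JB

open Finset Real MeasureTheory
open Pool.Agent.Y933.KD

variable {Ω Ω' : Type*} [MeasurableSpace Ω] [MeasurableSpace Ω']

/-- joint characters -/
noncomputable def hv {k : ℕ} (P : Measure Ω) (Y : Fin k → Ω → ℝ) (h : Fin k → ℤ) : ℂ :=
  ∫ x, e (∑ i, (h i : ℝ) * Y i x) ∂P

lemma measurable_e : Measurable e := continuous_e.measurable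

lemma expand_gen {k H : ℕ} (f : Fin k → ℝ → ℝ) (hf : ∀ i, TP H (f i)) :
    ∃ d : (Fin k → ℤ) → ℂ, (∀ h, ‖d h‖ ≤ 1) ∧ ∀ y : Fin k → ℝ, ((∏ i, f i (y i) : ℝ) : ℂ) =
      ∑ h ∈ Fintype.piFinset (fun _ : Fin k => Finset.Icc (-(H : ℤ)) H),
        d h * e (∑ i, (h i : ℝ) * y i) := by
  choose c hc1 hc2 using hf
  refine ⟨fun h => ∏ i, c i (h i), fun h => ?_, fun y => ?_⟩
  · rw [norm_prod]
    exact prod_le_one (fun i _ => norm_nonneg _) fun i _ => hc1 i _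
  · push_cast
    simp only [hc2]
    rw [prod_univ_sum]
    refine sum_congr rfl fun h _ => ?_
    rw [prod_mul_distrib, ← e_sum]

lemma integrable_hv {k : ℕ} (P : Measure Ω) [IsFiniteMeasure P] {Y : Fin k → Ω → ℝ}
    (hY : ∀ i, Measurable (Y i)) (h : Fin k → ℤ) :
    Integrable (fun x => e (∑ i, (h i : ℝ) * Y i x)) P := by
  refine Integrable.of_bound (C := 1) ?_ ?_
  · refine (measurable_e.comp ?_).aestronglyMeasurable
    exact Finset.measurable_fun_sum _ fun i _ => (hY i).const_mul _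
  · exact Filter.Eventually.of_forall fun x => (norm_e _).le

lemma diff_gen {k H : ℕ} (P : Measure Ω) (Q : Measure Ω') [IsProbabilityMeasure P]
    [IsProbabilityMeasure Q] {Y : Fin k → Ω → ℝ} {Z : Fin k → Ω' → ℝ}
    (hY : ∀ i, Measurable (Y i)) (hZ : ∀ i, Measurable (Z i))
    (f : Fin k → ℝ → ℝ) (hf : ∀ i, TP H (f i)) (Δ : ℝ)
    (hΔ : ∀ h : Fin k → ℤ, (∀ i, |h i| ≤ H) → ‖hv P Y h - hv Q Z h‖ ≤ Δ) :
    |∫ x, ∏ i, f i (Y i x) ∂P - ∫ x, ∏ i, f i (Z i x) ∂Q| ≤ (2 * H + 1) ^ k * Δ := by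
  obtain ⟨d, hd1, hd2⟩ := expand_gen f hf
  have key1 : ((∫ x, ∏ i, f i (Y i x) ∂P : ℝ) : ℂ) =
      ∑ h ∈ Fintype.piFinset (fun _ : Fin k => Finset.Icc (-(H : ℤ)) H), d h * hv P Y h := by
    rw [← integral_complex_ofReal]
    simp only [hd2]
    rw [integral_finsetSum _ fun h _ => (integrable_hv P hY h).const_mul _]
    refine sum_congr rfl fun h _ => ?_
    rw [integral_const_mul]
    rfl
  have key2 : ((∫ x, ∏ i, f i (Z i x) ∂Q : ℝ) : ℂ) =
      ∑ h ∈ Fintype.piFinset (fun _ : Fin k => Finset.Icc (-(H : ℤ)) H), d h * hv Q Z h := by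
    rw [← integral_complex_ofReal]
    simp only [hd2]
    rw [integral_finsetSum _ fun h _ => (integrable_hv Q hZ h).const_mul _]
    refine sum_congr rfl fun h _ => ?_
    rw [integral_const_mul]
    rfl
  have h2 : (((∫ x, ∏ i, f i (Y i x) ∂P - ∫ x, ∏ i, f i (Z i x) ∂Q : ℝ)) : ℂ) =
      ∑ h ∈ Fintype.piFinset (fun _ : Fin k => Finset.Icc (-(H : ℤ)) H),
        d h * (hv P Y h - hv Q Z h) := by
    rw [Complex.ofReal_sub, key1, key2, ← sum_sub_distrib]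
    refine sum_congr rfl fun h _ => ?_
    ring
  have h3 : |∫ x, ∏ i, f i (Y i x) ∂P - ∫ x, ∏ i, f i (Z i x) ∂Q| =
      ‖(((∫ x, ∏ i, f i (Y i x) ∂P - ∫ x, ∏ i, f i (Z i x) ∂Q : ℝ)) : ℂ)‖ := by
    rw [Complex.norm_real, Real.norm_eq_abs]
  rw [h3, h2]
  have hΔ0 : 0 ≤ Δ := (norm_nonneg _).trans (hΔ 0 (by simp))
  refine (norm_sum_le _ _).trans ?_
  have h4 : ∀ h ∈ Fintype.piFinset (fun _ : Fin k => Finset.Icc (-(H : ℤ)) H),
      ‖d h * (hv P Y h - hv Q Z h)‖ ≤ Δ := by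
    intro h hh
    rw [Fintype.mem_piFinset] at hh
    rw [norm_mul]
    calc ‖d h‖ * _ ≤ 1 * Δ := by
          gcongr
          · exact hd1 h
          · exact hΔ h fun i => abs_le.2 (Finset.mem_Icc.1 (hh i))
      _ = Δ := one_mul _
  refine (sum_le_sum h4).trans ?_
  rw [sum_const, nsmul_eq_mul, Fintype.card_piFinset]
  simp only [Int.card_Icc, prod_const, card_univ, Fintype.card_fin]
  have h5 : ((H : ℤ) + 1 - -(H : ℤ)).toNat = 2 * H + 1 := by omega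
  rw [h5]
  push_cast
  exact le_rfl

lemma continuous_F (K : ℕ) (u : ℝ) : Continuous (fun x => F K (x - u)) :=
  (TP_F (le_refl K) u).cont

lemma F_le_K (K : ℕ) (x : ℝ) : F K x ≤ K := by
  unfold F
  have h1 : ‖D K x‖ ≤ K := by
    unfold D
    refine (norm_sum_le _ _).trans ?_
    simp [norm_e]
  rcases Nat.eq_zero_or_pos K with rfl | hK
  · simp
  · have hKR : (0 : ℝ) < K := by exact_mod_cast hK
    calc 1 / (K : ℝ) * ‖D K x‖ ^ 2 ≤ 1 / (K : ℝ) * (K : ℝ) ^ 2 := by gcongr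
      _ = (K : ℝ) := by field_simp

lemma integrable_FY (K : ℕ) (P : Measure Ω) [IsFiniteMeasure P] {Y : Ω → ℝ} (hY : Measurable Y)
    (u : ℝ) : Integrable (fun x => F K (Y x - u)) P := by
  refine Integrable.of_bound (C := K) ?_ (Filter.Eventually.of_forall fun x => ?_)
  · exact ((continuous_F K u).measurable.comp hY).aestronglyMeasurable
  · rw [Real.norm_eq_abs, abs_of_nonneg (F_nonneg _ _)]
    exact F_le_K _ _

/-- the integral of the Fejer kernel -/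
lemma int_FY {K : ℕ} (hK : 0 < K) (P : Measure Ω) [IsProbabilityMeasure P] {Y : Ω → ℝ}
    (hY : Measurable Y) (u Δ : ℝ)
    (hP : ∀ h : ℤ, h ≠ 0 → |h| ≤ K → ‖∫ x, e (h * Y x) ∂P‖ ≤ Δ) :
    |∫ x, F K (Y x - u) ∂P - 1| ≤ K * Δ := by
  have := Measure.isProbabilityMeasure_map (μ := P) hY.aemeasurable
  have h1 := int_F hK (P.map Y) 1 u Δ (fun h hh hK' => by
    have := hP h hh hK'
    unfold hat
    rw [mul_one, integral_map hY.aemeasurable]
    · exact this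
    · exact (continuous_e.comp (by fun_prop)).aestronglyMeasurable)
  rw [integral_map hY.aemeasurable] at h1
  · simpa using h1
  · have : Continuous (fun x : ℝ => F K (((1 : ℤ) : ℝ) * x - u)) := by
      have h2 := continuous_F K u
      simpa using h2
    exact this.aestronglyMeasurable

/-- the error of the approximation, for one measure -/
lemma approx_gen {k K R : ℕ} (hK : 0 < K) (hR : 0 < R) (P : Measure Ω) [IsProbabilityMeasure P]
    {Y : Fin k → Ω → ℝ} (hY : ∀ i, Measurable (Y i)) (u v : Fin k → ℝ) (hu : ∀ i, 0 ≤ u i)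
    (hv : ∀ i, v i ≤ 1) (Δ : ℝ)
    (hP : ∀ i, ∀ h : ℤ, h ≠ 0 → |h| ≤ K → ‖∫ x, e (h * Y i x) ∂P‖ ≤ Δ) :
    |∫ x, ∏ i, ind (u i) (v i) (Y i x) ∂P - ∫ x, ∏ i, g R (u i) (v i) (Y i x) ∂P| ≤
      k * ((K : ℝ) ^ 2 / R + π ^ 2 / (2 * K) * (1 + K * Δ)) := by
  have hKR : (0 : ℝ) < K := by exact_mod_cast hK
  have hi1 : Integrable (fun x => ∏ i, ind (u i) (v i) (Y i x)) P := by
    refine Integrable.of_bound (C := 1) ?_ (Filter.Eventually.of_forall fun x => ?_)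
    · refine Measurable.aestronglyMeasurable ?_
      exact Finset.measurable_prod _ fun i _ => (measurable_ind _ _).comp (hY i)
    · rw [Real.norm_eq_abs, abs_of_nonneg (prod_nonneg fun i _ => ind_nonneg _ _ _)]
      exact prod_le_one (fun i _ => ind_nonneg _ _ _) fun i _ => ind_le_one _ _ _
  have hi2 : Integrable (fun x => ∏ i, g R (u i) (v i) (Y i x)) P := by
    refine Integrable.of_bound (C := 1) ?_ (Filter.Eventually.of_forall fun x => ?_)
    · refine Measurable.aestronglyMeasurable ?_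
      exact Finset.measurable_prod _ fun i _ => (TP_g R (u i) (v i)).cont.measurable.comp (hY i)
    · rw [Real.norm_eq_abs, abs_of_nonneg (prod_nonneg fun i _ => g_nonneg _ _ _ _)]
      exact prod_le_one (fun i _ => g_nonneg _ _ _ _) fun i _ => g_le_one hR _ _ _
  have hiw : ∀ i, Integrable (fun x => w K R (u i) (v i) (Y i x)) P := by
    intro i
    unfold w
    exact (integrable_const _).add
      (((integrable_FY K P (hY i) (u i)).add (integrable_FY K P (hY i) (v i))).const_mul _)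
  rw [← integral_sub hi1 hi2]
  have h1 : |∫ x, (∏ i, ind (u i) (v i) (Y i x) - ∏ i, g R (u i) (v i) (Y i x)) ∂P| ≤
      ∫ x, ∑ i, w K R (u i) (v i) (Y i x) ∂P := by
    refine (abs_integral_le_integral_abs).trans ?_
    refine integral_mono (hi1.sub hi2).abs (integrable_finsetSum _ fun i _ => hiw i) fun x => ?_
    refine (prod_diff _ _ _ (fun i _ => ind_nonneg _ _ _) (fun i _ => ind_le_one _ _ _)
      (fun i _ => g_nonneg _ _ _ _) (fun i _ => g_le_one hR _ _ _)).trans ?_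
    exact sum_le_sum fun i _ => appr hK hR (hu i) (hv i) _
  refine h1.trans ?_
  rw [integral_finsetSum _ fun i _ => hiw i]
  have h2 : ∀ i ∈ (univ : Finset (Fin k)), ∫ x, w K R (u i) (v i) (Y i x) ∂P ≤
      (K : ℝ) ^ 2 / R + π ^ 2 / (2 * K) * (1 + K * Δ) := by
    intro i _
    have h0 : ∫ x, w K R (u i) (v i) (Y i x) ∂P = (K : ℝ) ^ 2 / R + π ^ 2 / (4 * K) *
        (∫ x, F K (Y i x - u i) ∂P + ∫ x, F K (Y i x - v i) ∂P) := by
      have e1 : ∫ x, w K R (u i) (v i) (Y i x) ∂P = ∫ _x, (K : ℝ) ^ 2 / R ∂P +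
          ∫ x, π ^ 2 / (4 * K) * (F K (Y i x - u i) + F K (Y i x - v i)) ∂P :=
        integral_add (integrable_const _)
          (((integrable_FY K P (hY i) (u i)).add (integrable_FY K P (hY i) (v i))).const_mul _)
      have e2 : ∫ x, (F K (Y i x - u i) + F K (Y i x - v i)) ∂P =
          ∫ x, F K (Y i x - u i) ∂P + ∫ x, F K (Y i x - v i) ∂P :=
        integral_add (integrable_FY K P (hY i) (u i)) (integrable_FY K P (hY i) (v i))
      rw [e1, integral_const_mul, e2, integral_const]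
      simp
    rw [h0]
    have h3 := int_FY hK P (hY i) (u i) Δ (hP i)
    have h4 := int_FY hK P (hY i) (v i) Δ (hP i)
    rw [abs_le] at h3 h4
    have h5 : ∫ x, F K (Y i x - u i) ∂P + ∫ x, F K (Y i x - v i) ∂P ≤ 2 * (1 + K * Δ) := by
      linarith [h3.2, h4.2]
    have h6 : π ^ 2 / (4 * K) * (∫ x, F K (Y i x - u i) ∂P + ∫ x, F K (Y i x - v i) ∂P) ≤
        π ^ 2 / (4 * K) * (2 * (1 + K * Δ)) := by gcongr
    have h7 : π ^ 2 / (4 * K) * (2 * (1 + K * Δ)) = π ^ 2 / (2 * K) * (1 + K * Δ) := by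
      field_simp; ring
    linarith
  refine (sum_le_sum h2).trans ?_
  rw [sum_const, card_univ, Fintype.card_fin, nsmul_eq_mul]

/-- one coordinate -/
lemma hv_single {k : ℕ} (P : Measure Ω) (Y : Fin k → Ω → ℝ) (i : Fin k) (h : ℤ) :
    hv P Y (fun j => if j = i then h else 0) = ∫ x, e (h * Y i x) ∂P := by
  unfold hv
  congr 1
  funext x
  congr 1
  rw [sum_eq_single i]
  · simp
  · intro j _ hj
    simp only
    rw [if_neg hj, Int.cast_zero, zero_mul]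
  · intro hi
    exact absurd (mem_univ i) hi

/-- **Comparison** of the joint laws modulo one -/
theorem test_gen {k K : ℕ} (hK : 0 < K) (P : Measure Ω) (Q : Measure Ω') [IsProbabilityMeasure P]
    [IsProbabilityMeasure Q] {Y : Fin k → Ω → ℝ} {Z : Fin k → Ω' → ℝ}
    (hY : ∀ i, Measurable (Y i)) (hZ : ∀ i, Measurable (Z i))
    (Δ : ℝ) (hΔ0 : 0 ≤ Δ)
    (hQ : ∀ i, ∀ h : ℤ, h ≠ 0 → ∫ x, e (h * Z i x) ∂Q = 0)
    (hΔ : ∀ h : Fin k → ℤ, (∀ i, |h i| ≤ (K : ℤ) ^ 3) → ‖hv P Y h - hv Q Z h‖ ≤ Δ)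
    (u v : Fin k → ℝ) (hu : ∀ i, 0 ≤ u i) (hv' : ∀ i, v i ≤ 1) :
    |∫ x, ∏ i, ind (u i) (v i) (Y i x) ∂P - ∫ x, ∏ i, ind (u i) (v i) (Z i x) ∂Q| ≤
      (2 * (K : ℝ) ^ 3 + 1) ^ k * Δ + k * (12 / K + 5 * Δ) := by
  classical
  have hKR : (0 : ℝ) < K := by exact_mod_cast hK
  have hR : 0 < K ^ 3 := by positivity
  have hP1 : ∀ i, ∀ h : ℤ, h ≠ 0 → |h| ≤ K → ‖∫ x, e (h * Y i x) ∂P‖ ≤ Δ := by
    intro i h hh hhK
    have h1 := hΔ (fun j => if j = i then h else 0) (fun j => by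
      have hK1 : (K : ℤ) ≤ (K : ℤ) ^ 3 := by
        have : (1 : ℤ) ≤ K := by exact_mod_cast hK
        calc (K : ℤ) = K ^ 1 := (pow_one _).symm
          _ ≤ (K : ℤ) ^ 3 := pow_le_pow_right₀ this (by norm_num)
      by_cases hj : j = i
      · rw [if_pos hj]; exact hhK.trans hK1
      · rw [if_neg hj, abs_zero]; positivity)
    rw [hv_single, hv_single, hQ i h hh, sub_zero] at h1
    exact h1
  have a1 := approx_gen hK hR P hY u v hu hv' Δ hP1
  have a2 := approx_gen hK hR Q hZ u v hu hv' 0 (fun i h hh _ => by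
    rw [hQ i h hh, norm_zero])
  have a3 := diff_gen P Q hY hZ (fun i => g (K ^ 3) (u i) (v i))
    (fun i => TP_g (K ^ 3) (u i) (v i)) Δ
    (fun h hh => hΔ h (fun i => by have := hh i; push_cast at this; exact this))
  have hpi : π ^ 2 ≤ 10 := by
    have := pi_lt_d2
    nlinarith [pi_pos]
  have b1 : ((K : ℝ) ^ 2 / ((K ^ 3 : ℕ) : ℝ)) = 1 / K := by
    push_cast
    field_simp
  rw [b1] at a1 a2
  have b2 : π ^ 2 / (2 * K) * (1 + K * Δ) ≤ 5 / K + 5 * Δ := by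
    have : π ^ 2 / (2 * K) * (1 + K * Δ) = π ^ 2 / 2 * (1 / K) + π ^ 2 / 2 * Δ := by
      field_simp
    rw [this]
    have c1 : π ^ 2 / 2 * (1 / K) ≤ 5 * (1 / K) := by gcongr; linarith
    have c2 : π ^ 2 / 2 * Δ ≤ 5 * Δ := by gcongr; linarith
    calc π ^ 2 / 2 * (1 / K) + π ^ 2 / 2 * Δ ≤ 5 * (1 / K) + 5 * Δ := add_le_add c1 c2
      _ = 5 / K + 5 * Δ := by ring
  have b3 : π ^ 2 / (2 * K) * (1 + K * 0) ≤ 5 / K := by
    have : π ^ 2 / (2 * K) * (1 + K * 0) = π ^ 2 / 2 * (1 / K) := by field_simp; ring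
    rw [this]
    have c1 : π ^ 2 / 2 * (1 / K) ≤ 5 * (1 / K) := by gcongr; linarith
    calc π ^ 2 / 2 * (1 / K) ≤ 5 * (1 / K) := c1
      _ = 5 / K := by ring
  have hk : (0 : ℝ) ≤ k := Nat.cast_nonneg k
  have c1 : (k : ℝ) * (1 / K + π ^ 2 / (2 * K) * (1 + K * Δ)) ≤ k * (6 / K + 5 * Δ) := by
    refine mul_le_mul_of_nonneg_left ?_ hk
    calc 1 / (K : ℝ) + π ^ 2 / (2 * K) * (1 + K * Δ) ≤ 1 / K + (5 / K + 5 * Δ) := by gcongr
      _ = 6 / K + 5 * Δ := by ring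
  have c2 : (k : ℝ) * (1 / K + π ^ 2 / (2 * K) * (1 + K * 0)) ≤ k * (6 / K) := by
    refine mul_le_mul_of_nonneg_left ?_ hk
    calc 1 / (K : ℝ) + π ^ 2 / (2 * K) * (1 + K * 0) ≤ 1 / K + 5 / K := by gcongr
      _ = 6 / K := by ring
  have c3 : ((2 * ((K ^ 3 : ℕ) : ℝ) + 1) ^ k) = (2 * (K : ℝ) ^ 3 + 1) ^ k := by push_cast; rfl
  rw [c3] at a3
  have e4 : (k : ℝ) * (12 / K + 5 * Δ) = k * (6 / K + 5 * Δ) + k * (6 / K) := by ring
  rw [abs_le] at a1 a2 a3 ⊢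
  constructor <;> linarith [a1.1, a1.2, a2.1, a2.2, a3.1, a3.2]

/-- the same, with exponential savings -/
theorem test_exp {k : ℕ} {τ : ℝ} (hτ : 0 ≤ τ) (P : Measure Ω) (Q : Measure Ω')
    [IsProbabilityMeasure P]
    [IsProbabilityMeasure Q] {Y : Fin k → Ω → ℝ} {Z : Fin k → Ω' → ℝ}
    (hY : ∀ i, Measurable (Y i)) (hZ : ∀ i, Measurable (Z i))
    (hQ : ∀ i, ∀ h : ℤ, h ≠ 0 → ∫ x, e (h * Z i x) ∂Q = 0)
    (hΔ : ∀ h : Fin k → ℤ, (∀ i, |(h i : ℝ)| ≤ exp τ) → ‖hv P Y h - hv Q Z h‖ ≤ exp (-τ))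
    (u v : Fin k → ℝ) (hu : ∀ i, 0 ≤ u i) (hv' : ∀ i, v i ≤ 1) :
    |∫ x, ∏ i, ind (u i) (v i) (Y i x) ∂P - ∫ x, ∏ i, ind (u i) (v i) (Z i x) ∂Q| ≤
      (3 ^ k + k * 29) * exp (-(τ / (3 * k + 4))) := by
  have hk : (0 : ℝ) ≤ k := Nat.cast_nonneg k
  set δ : ℝ := τ / (3 * k + 4) with hδdef
  have hδ0 : 0 ≤ δ := by positivity
  have hδτ : δ * (3 * k + 4) = τ := by
    rw [hδdef]
    field_simp
  have hkδ : 0 ≤ k * δ := by positivity
  set K : ℕ := ⌊Real.exp δ⌋₊ with hKdef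
  have hE1 : 1 ≤ Real.exp δ := Real.one_le_exp hδ0
  have hK : 0 < K := Nat.floor_pos.2 hE1
  have hK1 : (K : ℝ) ≤ Real.exp δ := Nat.floor_le (by linarith)
  have hKR : (1 : ℝ) ≤ K := by exact_mod_cast hK
  have hK2 : Real.exp δ ≤ 2 * K := by
    have h1 := Nat.lt_floor_add_one (Real.exp δ)
    rw [← hKdef] at h1
    linarith
  have hK3 : (K : ℝ) ^ 3 ≤ Real.exp (3 * δ) := by
    calc (K : ℝ) ^ 3 ≤ (Real.exp δ) ^ 3 := by gcongr
      _ = Real.exp (3 * δ) := by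
          rw [← Real.exp_nat_mul]
          congr 1
  have key := test_gen hK P Q hY hZ (Real.exp (-τ)) (Real.exp_pos _).le hQ
    (by
      intro g hg
      refine hΔ g (fun i => ?_)
      have h1 : |(g i : ℝ)| ≤ (K : ℝ) ^ 3 := by exact_mod_cast hg i
      refine (h1.trans hK3).trans (Real.exp_le_exp.2 (by nlinarith)))
    u v hu hv'
  refine key.trans ?_
  have h1 : (2 * (K : ℝ) ^ 3 + 1) ^ k * Real.exp (-τ) ≤ 3 ^ k * Real.exp (-δ) := by
    have h2 : 2 * (K : ℝ) ^ 3 + 1 ≤ 3 * Real.exp (3 * δ) := by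
      have : 1 ≤ Real.exp (3 * δ) := Real.one_le_exp (by linarith)
      linarith
    calc (2 * (K : ℝ) ^ 3 + 1) ^ k * Real.exp (-τ) ≤ (3 * Real.exp (3 * δ)) ^ k * Real.exp (-τ) := by
          gcongr
      _ = 3 ^ k * Real.exp (3 * δ * k + -τ) := by
          rw [mul_pow, ← Real.exp_nat_mul, mul_assoc, ← Real.exp_add]
          congr 2
          ring
      _ ≤ 3 ^ k * Real.exp (-δ) := by
          refine mul_le_mul_of_nonneg_left (Real.exp_le_exp.2 ?_) (by positivity)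
          linarith
  have h2 : 12 / (K : ℝ) ≤ 24 * Real.exp (-δ) := by
    rw [div_le_iff₀ (by linarith), Real.exp_neg]
    have h3 : 0 < Real.exp δ := Real.exp_pos _
    have h4 : 24 * (Real.exp δ)⁻¹ * K = 12 * ((2 * K) / Real.exp δ) := by
      field_simp
      ring
    rw [h4]
    have h5 : 1 ≤ 2 * (K : ℝ) / Real.exp δ := by rw [le_div_iff₀ h3]; linarith
    linarith
  have h3 : Real.exp (-τ) ≤ Real.exp (-δ) := Real.exp_le_exp.2 (by linarith)
  have h4 : (k : ℝ) * (12 / K + 5 * Real.exp (-τ)) ≤ k * (29 * Real.exp (-δ)) := by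
    refine mul_le_mul_of_nonneg_left ?_ hk
    linarith
  linarith

end Pool.Agent.T9h42.JB
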