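import Pool.Agent.T9h42.JB.Mom
import Mathlib.Probability.Distributions.Gaussian.Multivariate

/-!
# The joint central limit theorem
-/

set_option autoImplicit false
set_option linter.unusedSectionVars false

namespace Pool.Agent.T9h42.JB

open Finset Real MeasureTheory Filter Topology ProbabilityTheory
open scoped ENNReal
open Pool.Agent.Y933.KD

variable {R : Type} [Fintype R] [DecidableEq R]

section

variable {b w : R → ℕ} {G : R → ℕ → ℝ} {Kb : ℝ}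

/-- the normalised sum in one base -/
noncomputable def NS (b w : ℕ) (G : ℕ → ℝ) (L : ℕ) (x : ℝ) : ℝ :=
  (∑ n ∈ range L, Xw b w G n x) / √(L : ℝ)

lemma measurable_NS (b w : ℕ) (G : ℕ → ℝ) (L : ℕ) : Measurable (NS b w G L) :=
  (Finset.measurable_fun_sum _ fun n _ => measurable_Xw b w G n).div_const _

lemma LC_DX (L : R → ℕ) (τ : R → ℝ) (x : R → ℝ) :
    LC L G τ (DX b w x) = ∑ ρ, τ ρ * NS (b ρ) (w ρ) (G ρ) (L ρ) (x ρ) := rfl

/-- exponential moments -/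
lemma exp_LC (hb : ∀ ρ, 1 ≤ b ρ) (hw : ∀ ρ, 1 ≤ w ρ) (hG : ∀ ρ c, |G ρ c| ≤ Kb)
    (hG0 : ∀ ρ, ∑ c ∈ range (b ρ ^ w ρ), G ρ c = 0) (τ : R → ℝ) (s : ℝ) {L : R → ℕ}
    (hL : ∀ ρ, 1 ≤ L ρ) : ∫ x, exp (s * LC L G τ (DX b w x)) ∂(LebR R) ≤
      ∏ ρ, (exp (|s * τ ρ| * (w ρ * Kb)) * exp (Kb ^ 2 * (s * τ ρ * w ρ) ^ 2 / 2)) := by
  have h1 : ∀ x : R → ℝ, exp (s * LC L G τ (DX b w x)) =
      ∏ ρ, exp (s * τ ρ * NS (b ρ) (w ρ) (G ρ) (L ρ) (x ρ)) := by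
    intro x
    rw [LC_DX, mul_sum, Real.exp_sum]
    refine prod_congr rfl fun ρ _ => ?_
    congr 1
    ring
  simp only [h1]
  have h2 : ∫ x : R → ℝ, ∏ ρ, exp (s * τ ρ * NS (b ρ) (w ρ) (G ρ) (L ρ) (x ρ)) ∂(LebR R) =
      ∏ ρ, ∫ y, exp (s * τ ρ * NS (b ρ) (w ρ) (G ρ) (L ρ) y) ∂Leb := by
    unfold LebR
    exact integral_fintype_prod_eq_prod (μ := fun _ : R => Leb)
      (fun ρ y => exp (s * τ ρ * NS (b ρ) (w ρ) (G ρ) (L ρ) y))
  rw [h2]
  refine prod_le_prod (fun ρ _ => integral_nonneg fun y => (exp_pos _).le) fun ρ _ => ?_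
  exact exp_norm (hb ρ) (hw ρ) (hG ρ) (hG0 ρ) (s * τ ρ) (L ρ) (hL ρ)

/-- characteristic functions under independence -/
lemma char_LC (hb : ∀ ρ, 1 ≤ b ρ) (hw : ∀ ρ, 1 ≤ w ρ) (hG : ∀ ρ c, |G ρ c| ≤ Kb)
    (hG0 : ∀ ρ, ∑ c ∈ range (b ρ ^ w ρ), G ρ c = 0) (τ : R → ℝ) (L : ℕ → R → ℕ)
    (hL : ∀ ρ, Tendsto (fun k => L k ρ) atTop atTop) :
    Tendsto (fun k => ∫ x, Complex.exp ((LC (L k) G τ (DX b w x) : ℝ) * Complex.I) ∂(LebR R)) atTop
      (𝓝 (∏ ρ, Complex.exp (-((sigma2 (b ρ) (w ρ) (G ρ) : ℝ) : ℂ) * (τ ρ : ℂ) ^ 2 / 2))) := by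
  have h1 : ∀ k, ∫ x, Complex.exp ((LC (L k) G τ (DX b w x) : ℝ) * Complex.I) ∂(LebR R) =
      ∏ ρ, ∫ y, Complex.exp ((τ ρ * NS (b ρ) (w ρ) (G ρ) (L k ρ) y : ℝ) * Complex.I) ∂Leb := by
    intro k
    have h2 : ∀ x : R → ℝ, Complex.exp ((LC (L k) G τ (DX b w x) : ℝ) * Complex.I) =
        ∏ ρ, Complex.exp ((τ ρ * NS (b ρ) (w ρ) (G ρ) (L k ρ) (x ρ) : ℝ) * Complex.I) := by
      intro x
      rw [LC_DX, Complex.ofReal_sum, sum_mul, Complex.exp_sum]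
    simp only [h2]
    unfold LebR
    exact integral_fintype_prod_eq_prod (μ := fun _ : R => Leb)
      (fun ρ y => Complex.exp ((τ ρ * NS (b ρ) (w ρ) (G ρ) (L k ρ) y : ℝ) * Complex.I))
  simp only [h1]
  refine tendsto_finsetProd _ fun ρ _ => ?_
  exact (clt_Leb (hb ρ) (hw ρ) (hG ρ) (hG0 ρ) (τ ρ)).comp (hL ρ)

/-- characteristic functions of the families -/
theorem char_joint (hb : ∀ ρ, 1 ≤ b ρ) (hw : ∀ ρ, 1 ≤ w ρ) (hG : ∀ ρ c, |G ρ c| ≤ Kb)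
    (hG0 : ∀ ρ, ∑ c ∈ range (b ρ ^ w ρ), G ρ c = 0) (T : ℕ → Finset ℕ) (hT : ∀ k, (T k).Nonempty)
    (D : ℕ → ℕ → R → ℕ → ℕ) (hD : ∀ k m ρ n, D k m ρ n < b ρ ^ w ρ) (L : ℕ → R → ℕ)
    (hL : ∀ ρ, Tendsto (fun k => L k ρ) atTop atTop) (Δ : ℕ → ℕ → ℝ)
    (hΔ : ∀ j, ∀ᶠ k in atTop, ∀ (r : Fin j → R) (n c : Fin j → ℕ), (∀ i, n i < L k (r i)) →
      |(((T k).filter fun m => ∀ i, D k m (r i) (n i) = c i).card : ℝ) / (T k).card -
        (LebR R).real (WR b r n (fun i => w (r i)) c)| ≤ Δ j k)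
    (hΔl : ∀ j, Tendsto (fun k => (∑ ρ, (L k ρ : ℝ)) ^ j * Δ j k) atTop (𝓝 0)) (τ : R → ℝ) :
    Tendsto (fun k => ∫ m, Complex.exp ((LC (L k) G τ (D k m) : ℝ) * Complex.I) ∂(UT (T k))) atTop
      (𝓝 (∏ ρ, Complex.exp (-((sigma2 (b ρ) (w ρ) (G ρ) : ℝ) : ℂ) * (τ ρ : ℂ) ^ 2 / 2))) := by
  have : ∀ k, IsProbabilityMeasure (UT (T k)) := fun k => UT_prob (hT k)
  have key := moments_limit (P := fun k => UT (T k)) (Q := fun _ => LebR R)
    (Z := fun k m => LC (L k) G τ (D k m)) (Y := fun k x => LC (L k) G τ (DX b w x))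
    (fun k => measurable_of_countable _) (fun k => measurable_LC b w (L k) G τ)
    (fun k => ⟨_, fun m => LC_bdd hG τ (D k m)⟩) (fun k => ⟨_, fun x => LC_bdd hG τ (DX b w x)⟩)
    ?_ ?_ 1 (φ := ∏ ρ, Complex.exp (-((sigma2 (b ρ) (w ρ) (G ρ) : ℝ) : ℂ) * (τ ρ : ℂ) ^ 2 / 2)) ?_
  · simpa only [one_mul] using key
  · intro j
    set Cb : ℝ := ∑ ρ, |τ ρ| * Kb * (b ρ : ℝ) ^ w ρ with hCb
    have h1 : Tendsto (fun k => Cb ^ j * ((∑ ρ, (L k ρ : ℝ)) ^ j * Δ j k)) atTop (𝓝 0) := by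
      have := (hΔl j).const_mul (Cb ^ j)
      simpa using this
    refine squeeze_zero_norm' ?_ h1
    filter_upwards [hΔ j] with k hk
    rw [Real.norm_eq_abs]
    refine (mom_le hb hG τ (D k) (hD k) j hk).trans (le_of_eq ?_)
    rw [mul_pow]
    ring
  · intro s
    refine ⟨∏ ρ, (exp (|s * τ ρ| * (w ρ * Kb)) * exp (Kb ^ 2 * (s * τ ρ * w ρ) ^ 2 / 2)), ?_⟩
    have h1 : ∀ᶠ k in atTop, ∀ ρ, 1 ≤ L k ρ :=
      Filter.eventually_all.2 fun ρ => (hL ρ).eventually_ge_atTop 1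
    filter_upwards [h1] with k hk
    exact exp_LC hb hw hG hG0 τ s hk
  · simpa only [one_mul] using char_LC hb hw hG hG0 τ L hL

/-- the distribution function of the normal law -/
noncomputable def Phi (a : ℝ) : ℝ := (gaussianReal 0 1).real (Set.Iic a)

/-- the standard normal law of several variables -/
noncomputable def GS (R : Type) [Fintype R] : Measure (EuclideanSpace ℝ R) :=
  (Measure.pi fun _ : R => gaussianReal 0 1).map (WithLp.toLp 2)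

instance : IsProbabilityMeasure (GS R) := by
  unfold GS
  exact Measure.isProbabilityMeasure_map (by fun_prop)

/-- the quadrant -/
def QD (a : R → ℝ) : Set (EuclideanSpace ℝ R) := {x | ∀ ρ, x ρ ≤ a ρ}

lemma QD_closed (a : R → ℝ) : IsClosed (QD a) := by
  unfold QD
  rw [Set.ofPred_forall]
  exact isClosed_iInter fun ρ => isClosed_le (by fun_prop) continuous_const

lemma GS_QD (a : R → ℝ) : (GS R).real (QD a) = ∏ ρ, Phi (a ρ) := by
  unfold GS Phi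
  rw [map_measureReal_apply (by fun_prop) (QD_closed a).measurableSet]
  have h1 : (WithLp.toLp 2 ⁻¹' (QD a) : Set (R → ℝ)) = Set.pi Set.univ fun ρ => Set.Iic (a ρ) := by
    ext x
    constructor
    · intro h ρ _
      exact h ρ
    · intro h ρ
      exact h ρ (Set.mem_univ ρ)
  rw [h1, Measure.real, Measure.pi_pi, ENNReal.toReal_prod]
  rfl

lemma GS_frontier (a : R → ℝ) : GS R (frontier (QD a)) = 0 := by
  have h1 : frontier (QD a) ⊆ ⋃ ρ, {x : EuclideanSpace ℝ R | x ρ = a ρ} := by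
    intro x hx
    have hx1 : x ∈ QD a := (QD_closed a).frontier_subset hx
    have hx2 : x ∉ interior (QD a) := fun h => hx.2 h
    have hop : IsOpen {y : EuclideanSpace ℝ R | ∀ ρ, y ρ < a ρ} := by
      rw [Set.ofPred_forall]
      exact isOpen_iInter_of_finite fun ρ => isOpen_lt (by fun_prop) continuous_const
    have h2 : ¬ ∀ ρ, x ρ < a ρ := fun h =>
      hx2 (interior_maximal (show {y : EuclideanSpace ℝ R | ∀ ρ, y ρ < a ρ} ⊆ QD a from
        fun y hy ρ => (hy ρ).le) hop h)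
    push Not at h2
    obtain ⟨ρ, hρ⟩ := h2
    exact Set.mem_iUnion.2 ⟨ρ, le_antisymm (hx1 ρ) hρ⟩
  refine measure_mono_null h1 (measure_iUnion_null fun ρ => ?_)
  unfold GS
  have hms : MeasurableSet {x : EuclideanSpace ℝ R | x ρ = a ρ} :=
    (isClosed_eq (by fun_prop) continuous_const).measurableSet
  rw [Measure.map_apply (by fun_prop) hms]
  have h3 : (WithLp.toLp 2 ⁻¹' {x : EuclideanSpace ℝ R | x ρ = a ρ} : Set (R → ℝ)) =
      (fun y : R → ℝ => y ρ) ⁻¹' {a ρ} := rfl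
  rw [h3, (measurePreserving_eval (fun _ : R => gaussianReal 0 1) ρ).measure_preimage
    (measurableSet_singleton _).nullMeasurableSet]
  have := noAtoms_gaussianReal (μ := 0) (v := 1) one_ne_zero
  exact measure_singleton _

lemma charFun_GS (t : EuclideanSpace ℝ R) : charFun (GS R) t = ∏ ρ, Complex.exp (-(t ρ : ℂ) ^ 2 / 2) := by
  unfold GS
  rw [charFun_pi]
  refine prod_congr rfl fun ρ _ => ?_
  rw [charFun_gaussianReal]
  congr 1
  push_cast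
  ring

lemma real_UT {T : Finset ℕ} (E : Set ℕ) [DecidablePred (· ∈ E)] :
    (UT T).real E = ((T.filter (· ∈ E)).card : ℝ) / T.card := by
  have h1 : (UT T).real E = ∫ m, E.indicator 1 m ∂(UT T) :=
    (integral_indicator_one (MeasurableSet.of_discrete)).symm
  rw [h1, int_UT, card_filter, smul_eq_mul, div_eq_inv_mul]
  push_cast
  congr 1
  refine sum_congr rfl fun m _ => ?_
  by_cases h : m ∈ E
  · rw [Set.indicator_of_mem h, if_pos h]; rfl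
  · rw [Set.indicator_of_notMem h, if_neg h]

/-- **the joint central limit theorem** -/
theorem clt_joint (hb : ∀ ρ, 1 ≤ b ρ) (hw : ∀ ρ, 1 ≤ w ρ) (hG : ∀ ρ c, |G ρ c| ≤ Kb)
    (hG0 : ∀ ρ, ∑ c ∈ range (b ρ ^ w ρ), G ρ c = 0)
    (hσ : ∀ ρ, 0 < sigma2 (b ρ) (w ρ) (G ρ)) (T : ℕ → Finset ℕ) (hT : ∀ k, (T k).Nonempty)
    (D : ℕ → ℕ → R → ℕ → ℕ) (hD : ∀ k m ρ n, D k m ρ n < b ρ ^ w ρ) (L : ℕ → R → ℕ)
    (hL : ∀ ρ, Tendsto (fun k => L k ρ) atTop atTop) (Δ : ℕ → ℕ → ℝ)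
    (hΔ : ∀ j, ∀ᶠ k in atTop, ∀ (r : Fin j → R) (n c : Fin j → ℕ), (∀ i, n i < L k (r i)) →
      |(((T k).filter fun m => ∀ i, D k m (r i) (n i) = c i).card : ℝ) / (T k).card -
        (LebR R).real (WR b r n (fun i => w (r i)) c)| ≤ Δ j k)
    (hΔl : ∀ j, Tendsto (fun k => (∑ ρ, (L k ρ : ℝ)) ^ j * Δ j k) atTop (𝓝 0)) (a : R → ℝ)
    (Ev : ℕ → ℕ → Prop) [∀ k, DecidablePred (Ev k)]
    (hEv : ∀ k m, Ev k m ↔ ∀ ρ, ∑ n ∈ range (L k ρ), G ρ (D k m ρ n) ≤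
      a ρ * √(sigma2 (b ρ) (w ρ) (G ρ) * L k ρ)) :
    Tendsto (fun k => (((T k).filter (Ev k)).card : ℝ) / (T k).card) atTop (𝓝 (∏ ρ, Phi (a ρ))) := by
  classical
  have hprob : ∀ k, IsProbabilityMeasure (UT (T k)) := fun k => UT_prob (hT k)
  set σ : R → ℝ := fun ρ => √(sigma2 (b ρ) (w ρ) (G ρ)) with hσd
  have hσ0 : ∀ ρ, 0 < σ ρ := fun ρ => Real.sqrt_pos.2 (hσ ρ)
  have hσ2 : ∀ ρ, σ ρ ^ 2 = sigma2 (b ρ) (w ρ) (G ρ) := fun ρ => Real.sq_sqrt (hσ ρ).le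
  -- the vectors
  set V : ℕ → ℕ → EuclideanSpace ℝ R := fun k m => WithLp.toLp 2 fun ρ =>
    (∑ n ∈ range (L k ρ), G ρ (D k m ρ n)) / √(L k ρ : ℝ) / σ ρ with hV
  have hVm : ∀ k, Measurable (V k) := fun k => measurable_of_countable _
  set μ : ℕ → ProbabilityMeasure (EuclideanSpace ℝ R) := fun k =>
    ⟨(UT (T k)).map (V k), Measure.isProbabilityMeasure_map (hVm k).aemeasurable⟩ with hμ
  set γ : ProbabilityMeasure (EuclideanSpace ℝ R) := ⟨GS R, inferInstance⟩ with hγ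
  have hconv : Tendsto μ atTop (𝓝 γ) := by
    refine ProbabilityMeasure.tendsto_of_tendsto_charFun fun t => ?_
    have h1 := char_joint hb hw hG hG0 T hT D hD L hL Δ hΔ hΔl (fun ρ => t ρ / σ ρ)
    have h2 : charFun (γ : Measure (EuclideanSpace ℝ R)) t =
        ∏ ρ, Complex.exp (-((sigma2 (b ρ) (w ρ) (G ρ) : ℝ) : ℂ) * ((t ρ / σ ρ : ℝ) : ℂ) ^ 2 / 2) := by
      change charFun (GS R) t = _
      rw [charFun_GS]
      refine prod_congr rfl fun ρ _ => ?_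
      congr 1
      rw [← hσ2 ρ]
      have : (σ ρ : ℂ) ≠ 0 := by exact_mod_cast (hσ0 ρ).ne'
      push_cast
      field_simp
    rw [h2]
    refine h1.congr fun k => ?_
    change _ = charFun ((UT (T k)).map (V k)) t
    rw [charFun_apply, integral_map (hVm k).aemeasurable (by fun_prop)]
    congr 1
    ext m
    congr 2
    rw [PiLp.inner_apply]
    unfold LC
    rw [Complex.ofReal_inj]
    refine sum_congr rfl fun ρ _ => ?_
    simp only [hV, RCLike.inner_apply, conj_trivial]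
    ring
  have hfr : γ (frontier (QD a)) = 0 := by
    have h2 : ((γ (frontier (QD a)) : NNReal) : ENNReal) = 0 := by
      rw [ProbabilityMeasure.ennreal_coeFn_eq_coeFn_toMeasure]
      exact GS_frontier a
    exact_mod_cast h2
  have h3 := ProbabilityMeasure.tendsto_measure_of_null_frontier_of_tendsto hconv hfr
  have h4 : Tendsto (fun k => ((μ k (QD a) : NNReal) : ℝ)) atTop
      (𝓝 ((γ (QD a) : NNReal) : ℝ)) := (NNReal.continuous_coe.tendsto _).comp h3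
  have h5 : ((γ (QD a) : NNReal) : ℝ) = ∏ ρ, Phi (a ρ) := by
    rw [← GS_QD a]
    rfl
  rw [h5] at h4
  refine h4.congr' ?_
  have h6 : ∀ᶠ k in atTop, ∀ ρ, 1 ≤ L k ρ :=
    Filter.eventually_all.2 fun ρ => (hL ρ).eventually_ge_atTop 1
  filter_upwards [h6] with k hk
  change ((UT (T k)).map (V k)).real (QD a) = _
  rw [map_measureReal_apply (hVm k) (QD_closed a).measurableSet, real_UT]
  congr 3
  refine filter_congr fun m _ => ?_
  rw [hEv, Set.mem_preimage]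
  unfold QD
  rw [Set.mem_ofPred_eq]
  refine forall_congr' fun ρ => ?_
  have hNR : (0 : ℝ) < L k ρ := by exact_mod_cast hk ρ
  have hσρ := hσ0 ρ
  simp only [hV]
  rw [Real.sqrt_mul (hσ ρ).le, div_div, div_le_iff₀ (by positivity)]
  constructor
  · intro h
    calc _ ≤ _ := h
      _ = _ := by ring
  · intro h
    calc _ ≤ _ := h
      _ = _ := by ring

end

end Pool.Agent.T9h42.JB
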