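import Mathlib

/-!
# Valuations of exponential polynomials
-/

set_option autoImplicit false

namespace Pool.Agent.T9h42.JB

open Finset Polynomial

/-- `b ^ (u + 1)` does not divide `x` -/
def nd (b u : ℕ) (x : ℤ) : Prop := ¬ (b : ℤ) ^ (u + 1) ∣ x

lemma nd.mono {b u v : ℕ} {x : ℤ} (h : nd b u x) (huv : u ≤ v) : nd b v x := fun h1 =>
  h ((pow_dvd_pow _ (by omega)).trans h1)

lemma nd_val {b : ℕ} (hb : b.Prime) {u : ℕ} {x : ℤ} (h : nd b u x) :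
    ∃ (v : ℕ) (y : ℤ), v ≤ u ∧ ¬ (b : ℤ) ∣ y ∧ x = (b : ℤ) ^ v * y := by
  have hx : x ≠ 0 := by
    rintro rfl
    exact h (dvd_zero _)
  obtain ⟨y, hy1, hy2⟩ := (Int.finiteMultiplicity_iff.2 ⟨by simpa using hb.ne_one, hx⟩ :
    FiniteMultiplicity (b : ℤ) x).exists_eq_pow_mul_and_not_dvd
  refine ⟨_, y, ?_, hy2, hy1⟩
  by_contra hc
  push Not at hc
  apply h
  rw [hy1]
  exact Dvd.dvd.mul_right (pow_dvd_pow _ hc) _

lemma nd_of_val {b : ℕ} (hb : b.Prime) {u v : ℕ} {y : ℤ} (hv : v ≤ u) (hy : ¬ (b : ℤ) ∣ y) :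
    nd b u ((b : ℤ) ^ v * y) := by
  intro h
  have hb0 : (b : ℤ) ^ v ≠ 0 := pow_ne_zero _ (by exact_mod_cast hb.ne_zero)
  obtain ⟨d, hd⟩ : ∃ d, u + 1 = v + 1 + d := ⟨u - v, by omega⟩
  rw [hd, pow_add, pow_add, pow_one, mul_assoc] at h
  exact hy ((Dvd.intro _ rfl).trans ((mul_dvd_mul_iff_left hb0).1 h))

lemma nd.mul {b : ℕ} (hb : b.Prime) {u v : ℕ} {x y : ℤ} (hx : nd b u x) (hy : nd b v y) :
    nd b (u + v) (x * y) := by
  obtain ⟨u', x', h1, h2, rfl⟩ := nd_val hb hx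
  obtain ⟨v', y', h3, h4, rfl⟩ := nd_val hb hy
  have h5 : (b : ℤ) ^ u' * x' * ((b : ℤ) ^ v' * y') = (b : ℤ) ^ (u' + v') * (x' * y') := by
    rw [pow_add]; ring
  rw [h5]
  refine nd_of_val hb (by omega) fun h => ?_
  rcases (Nat.prime_iff_prime_int.1 hb).dvd_or_dvd h with h | h
  · exact h2 h
  · exact h4 h

lemma nd_one {b : ℕ} (hb : b.Prime) : nd b 0 1 := by
  unfold nd
  rw [zero_add, pow_one]
  intro h
  have := Int.le_of_dvd one_pos h
  have := hb.two_le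
  omega

lemma nd_zero_iff {b : ℕ} {x : ℤ} : nd b 0 x ↔ ¬ (b : ℤ) ∣ x := by
  unfold nd
  rw [zero_add, pow_one]

lemma nd_prod {b : ℕ} (hb : b.Prime) {ι : Type*} (s : Finset ι) (f : ι → ℤ) (u : ι → ℕ)
    (h : ∀ i ∈ s, nd b (u i) (f i)) : nd b (∑ i ∈ s, u i) (∏ i ∈ s, f i) := by
  classical
  induction s using Finset.induction_on with
  | empty => simpa using nd_one hb
  | insert i s hi ih =>
    rw [sum_insert hi, prod_insert hi]
    exact (h i (mem_insert_self _ _)).mul hb (ih fun j hj => h j (mem_insert_of_mem hj))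

lemma nd.pow {b : ℕ} (hb : b.Prime) {u : ℕ} {x : ℤ} (h : nd b u x) (k : ℕ) :
    nd b (k * u) (x ^ k) := by
  have := nd_prod hb (range k) (fun _ => x) (fun _ => u) (fun _ _ => h)
  rw [sum_const, card_range, smul_eq_mul, prod_const, card_range] at this
  exact this

lemma exists_nd {b : ℕ} (hb : b.Prime) {x : ℤ} (hx : x ≠ 0) : ∃ u, nd b u x := by
  refine ⟨x.natAbs, fun h => ?_⟩
  have h1 := Int.natAbs_dvd_natAbs.2 h
  rw [Int.natAbs_pow, Int.natAbs_natCast] at h1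
  have h2 := Nat.le_of_dvd (Int.natAbs_pos.2 hx) h1
  have h3 : x.natAbs + 1 < b ^ (x.natAbs + 1) := Nat.lt_pow_self hb.one_lt
  omega

lemma nd.of_mul {b : ℕ} {u v : ℕ} {x : ℤ} (h : nd b (u + v) ((b : ℤ) ^ v * x)) :
    nd b u x := by
  intro h1
  apply h
  have : u + v + 1 = v + (u + 1) := by omega
  rw [this, pow_add]
  exact mul_dvd_mul_left _ h1

/-- congruent numbers -/
lemma nd.congr {b u : ℕ} {x y : ℤ} (h : nd b u x) (hxy : (b : ℤ) ^ (u + 1) ∣ y - x) : nd b u y := by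
  intro h1
  apply h
  have := dvd_sub h1 hxy
  simpa using this

/-- lifting the exponent -/
lemma lte {b : ℕ} (hb : b.Prime) {x y : ℤ} (hxy : (b : ℤ) ^ 2 ∣ x - y) (hy : ¬ (b : ℤ) ∣ y) {c : ℕ}
    (h : nd b c (x - y)) (j : ℕ) :
    (b : ℤ) ^ 2 ∣ x ^ (b ^ j) - y ^ (b ^ j) ∧ nd b (c + j) (x ^ (b ^ j) - y ^ (b ^ j)) := by
  have hbp := Nat.prime_iff_prime_int.1 hb
  induction j with
  | zero => simpa using ⟨hxy, h⟩
  | succ j ih =>
    obtain ⟨h1, h2⟩ := ih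
    set X := x ^ (b ^ j) with hX
    set Y := y ^ (b ^ j) with hY
    have hYn : ¬ (b : ℤ) ∣ Y := fun h => hy (hbp.dvd_of_dvd_pow h)
    obtain ⟨D', hD'⟩ := h1
    have e1 : x ^ (b ^ (j + 1)) = X ^ b := by rw [hX, ← pow_mul, pow_succ]
    have e2 : y ^ (b ^ (j + 1)) = Y ^ b := by rw [hY, ← pow_mul, pow_succ]
    obtain ⟨k, hk⟩ := Polynomial.powAddExpansion Y (X - Y) b
    rw [add_sub_cancel] at hk
    have e3 : X ^ b - Y ^ b = (X - Y) * ((b : ℤ) ^ 1 * (Y ^ (b - 1) + b * (k * D'))) := by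
      rw [hk]
      have : (X - Y) ^ 2 = (X - Y) * ((b : ℤ) ^ 2 * D') := by rw [pow_two]; nth_rewrite 2 [hD']; rfl
      rw [this]
      ring
    rw [e1, e2, e3]
    constructor
    · exact Dvd.dvd.mul_right ⟨D', hD'⟩ _
    · have h3 : nd b 1 ((b : ℤ) ^ 1 * (Y ^ (b - 1) + b * (k * D'))) := by
        refine nd_of_val hb le_rfl fun h4 => ?_
        exact hYn (hbp.dvd_of_dvd_pow ((Int.dvd_add_left (dvd_mul_right _ _)).1 h4))
      exact h2.mul hb h3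

/-- the limit of the normalised powers -/
lemma lam {b : ℕ} {x : ℤ} (hx : (b : ℤ) ^ 2 ∣ x - 1) (j0 : ℕ) :
    ∃ l : ℤ, x ^ (b ^ j0) - 1 = (b : ℤ) ^ (2 + j0) * l ∧ ∀ j : ℕ, j0 ≤ j → ∀ m : ℕ,
      ∃ W : ℤ, x ^ (b ^ j * m) = 1 + (b : ℤ) ^ (2 + j) * W ∧ (b : ℤ) ^ (j0 + 1) ∣ W - m * l := by
  have step : ∀ j : ℕ, ∀ W : ℤ, x ^ (b ^ j) = 1 + (b : ℤ) ^ (2 + j) * W →
      ∃ W' : ℤ, x ^ (b ^ (j + 1)) = 1 + (b : ℤ) ^ (2 + (j + 1)) * W' ∧ (b : ℤ) ^ (j + 1) ∣ W' - W := by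
    intro j W hW
    obtain ⟨k, hk⟩ := Polynomial.powAddExpansion (1 : ℤ) ((b : ℤ) ^ (2 + j) * W) b
    refine ⟨W + (b : ℤ) ^ (j + 1) * (k * W ^ 2), ?_, ?_⟩
    · have e1 : x ^ (b ^ (j + 1)) = (x ^ (b ^ j)) ^ b := by rw [← pow_mul, pow_succ]
      rw [e1, hW, hk, one_pow, one_pow]
      have e2 : ((b : ℤ) ^ (2 + j) * W) ^ 2 = (b : ℤ) ^ (2 + (j + 1)) * ((b : ℤ) ^ (j + 1) * W ^ 2) := by
        rw [mul_pow, ← pow_mul, ← mul_assoc, ← pow_add]
        congr 2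
        ring
      rw [e2, show 2 + (j + 1) = 2 + j + 1 by ring, pow_succ (b : ℤ) (2 + j)]
      ring
    · exact ⟨k * W ^ 2, by ring⟩
  have hex : ∀ j : ℕ, ∃ W : ℤ, x ^ (b ^ j) = 1 + (b : ℤ) ^ (2 + j) * W := by
    intro j
    induction j with
    | zero =>
      obtain ⟨c, hc⟩ := hx
      exact ⟨c, by rw [pow_zero, pow_one, Nat.add_zero]; linarith⟩
    | succ j ih =>
      obtain ⟨W, hW⟩ := ih
      obtain ⟨W', hW', _⟩ := step j W hW
      exact ⟨W', hW'⟩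
  obtain ⟨l, hl⟩ := hex j0
  refine ⟨l, by rw [hl]; ring, fun j hj m => ?_⟩
  have hbase : ∃ W : ℤ, x ^ (b ^ j) = 1 + (b : ℤ) ^ (2 + j) * W ∧ (b : ℤ) ^ (j0 + 1) ∣ W - l := by
    induction j, hj using Nat.le_induction with
    | base => exact ⟨l, hl, by simp⟩
    | succ j hj ih =>
      obtain ⟨W, hW, hd⟩ := ih
      obtain ⟨W', hW', hd'⟩ := step j W hW
      refine ⟨W', hW', ?_⟩
      have h1 : (b : ℤ) ^ (j0 + 1) ∣ W' - W := (pow_dvd_pow _ (by omega)).trans hd'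
      have h2 := dvd_add h1 hd
      simpa using h2
  obtain ⟨W, hW, hd⟩ := hbase
  obtain ⟨k, hk⟩ := Polynomial.powAddExpansion (1 : ℤ) ((b : ℤ) ^ (2 + j) * W) m
  refine ⟨m * W + (b : ℤ) ^ (2 + j) * (k * W ^ 2), ?_, ?_⟩
  · rw [pow_mul, hW, hk, one_pow, one_pow]
    ring
  · have e1 : (m : ℤ) * W + (b : ℤ) ^ (2 + j) * (k * W ^ 2) - m * l =
        m * (W - l) + (b : ℤ) ^ (2 + j) * (k * W ^ 2) := by ring
    rw [e1]
    exact dvd_add (Dvd.dvd.mul_left hd _) (Dvd.dvd.mul_right (pow_dvd_pow _ (by omega)) _)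

/-- not all of some consecutive power sums are divisible by a high power -/
lemma nondeg {b : ℕ} (hb : b.Prime) {R : Type*} [DecidableEq R] (I : Finset R) (l B : R → ℤ)
    {i0 : R} (hi0 : i0 ∈ I) (hB : ¬ (b : ℤ) ∣ B i0) {c : ℕ} (hl : nd b c (l i0))
    (hl2 : ∀ i ∈ I, i ≠ i0 → nd b c (l i0 - l i)) (K : ℕ) :
    ∃ k < I.card, nd b ((K + I.card) * c) (∑ i ∈ I, B i * l i ^ (K + k)) := by
  by_contra hcon
  push Not at hcon
  set P : ℤ[X] := ∏ i ∈ I.erase i0, (X - C (l i)) with hP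
  have hdeg : P.natDegree < I.card := by
    rw [hP, natDegree_prod_of_monic _ _ fun i _ => monic_X_sub_C _]
    simp only [natDegree_X_sub_C, sum_const, smul_eq_mul, mul_one]
    rw [card_erase_of_mem hi0]
    have := card_pos.2 ⟨i0, hi0⟩
    omega
  have hsum : ∑ k ∈ range I.card, P.coeff k * ∑ i ∈ I, B i * l i ^ (K + k) =
      B i0 * (l i0 ^ K * ∏ i ∈ I.erase i0, (l i0 - l i)) := by
    have h1 : ∑ k ∈ range I.card, P.coeff k * ∑ i ∈ I, B i * l i ^ (K + k) =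
        ∑ i ∈ I, B i * (l i ^ K * P.eval (l i)) := by
      simp only [mul_sum]
      rw [sum_comm]
      refine sum_congr rfl fun i _ => ?_
      rw [eval_eq_sum_range' hdeg, mul_sum, mul_sum]
      refine sum_congr rfl fun k _ => ?_
      rw [pow_add]
      ring
    rw [h1, ← Finset.add_sum_erase _ _ hi0, Finset.sum_eq_zero, add_zero]
    · rw [hP, eval_prod]
      simp
    · intro i hi
      have : P.eval (l i) = 0 := by
        rw [hP, eval_prod]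
        exact prod_eq_zero hi (by simp)
      rw [this, mul_zero, mul_zero]
  have hnd : nd b ((K + I.card) * c) (B i0 * (l i0 ^ K * ∏ i ∈ I.erase i0, (l i0 - l i))) := by
    have h1 := (hl.pow hb K).mul hb (nd_prod hb (I.erase i0) (fun i => l i0 - l i) (fun _ => c)
      fun i hi => hl2 i (mem_of_mem_erase hi) (ne_of_mem_erase hi))
    have h2 := (nd_zero_iff.2 hB).mul hb h1
    refine h2.mono ?_
    rw [sum_const, smul_eq_mul, card_erase_of_mem hi0, zero_add, add_mul]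
    exact Nat.add_le_add_left (Nat.mul_le_mul_right _ (Nat.sub_le _ _)) _
  apply hnd
  rw [← hsum]
  refine Finset.dvd_sum fun k hk => Dvd.dvd.mul_left ?_ _
  have := hcon k (mem_range.1 hk)
  unfold nd at this
  push Not at this
  exact this

end Pool.Agent.T9h42.JB
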