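import Pool.Agent.W301.TD.ExpSum
import Pool.Agent.T9h42.JB.Nd

/-!
# Exponential sums over several powers modulo the same prime powers: one progression
-/

set_option autoImplicit false
set_option linter.unusedSectionVars false

namespace Pool.Agent.T9h42.JB

open Finset Filter Topology
open Pool.Agent.H373R2.NB
open Pool.Agent.W301.TD.AA
open Pool.Agent.Helper602.MK (ee)
open Pool.Agent.Helper602.MK.N_J5b (norm_ee ee_add ee_int)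

variable {R : Type} [DecidableEq R]

/-- one progression -/
lemma blkV {S : Finset R} {q p a w ι : R → ℕ} (hq : ∀ ρ, (q ρ).Prime) {b : ℕ} (hb : b.Prime)
    {K cI mI ι0 r α c0 : ℕ}
    (hI : ∀ (N : ℕ) (u α : ℝ) (φ : ℕ → ℝ), 1 ≤ N → 1 ≤ u → Ph K α φ →
      (N : ℝ) ≤ u * ‖∑ n ∈ range N, ee (φ n)‖ →
      ∃ Q : ℕ, 1 ≤ Q ∧ (Q : ℝ) ≤ cI * u ^ mI ∧ ∃ a : ℤ, |Q * α - a| ≤ cI * u ^ mI / (N : ℝ) ^ K)
    {G n₀ T : ℕ} {A : R → ℤ} {u : ℝ}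
    (hG : ∀ ρ ∈ S, p ρ ^ G = 1 + q ρ ^ a ρ * w ρ)
    (ha : ∀ ρ ∈ S, ι ρ ≤ (K + 1) * a ρ)
    (hab : ∀ ρ ∈ S, q ρ = b → a ρ = α ∧ ι ρ ≤ ι0)
    (hr : ι0 = r + K * α)
    (hac : ∀ ρ ∈ S, q ρ ≠ b → ι ρ ≤ K * a ρ)
    (hnd : nd b c0 (∑ ρ ∈ S with q ρ = b, A ρ * (b : ℤ) ^ (ι0 - ι ρ) * (p ρ : ℤ) ^ n₀ * (w ρ : ℤ) ^ K))
    (hc0 : c0 ≤ r) (hT : 1 ≤ T) (hu : 1 ≤ u)
    (h1 : (cI : ℝ) * u ^ mI < (b : ℝ) ^ (r - c0))
    (h2 : (cI : ℝ) * u ^ mI * (b : ℝ) ^ r < (T : ℝ) ^ K) :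
    ‖∑ t ∈ range T, ee (∑ ρ ∈ S, (A ρ : ℝ) * (p ρ : ℝ) ^ (n₀ + G * t) / (q ρ : ℝ) ^ ι ρ)‖ ≤ T / u := by
  have hq0 : ∀ ρ, (0 : ℝ) < q ρ := fun ρ => by exact_mod_cast (hq ρ).pos
  have hb0 : (0 : ℝ) < b := by exact_mod_cast hb.pos
  have hu0 : 0 < u := by linarith
  by_contra hcon
  push Not at hcon
  set c : ℕ → ℝ := fun k => ∑ ρ ∈ S, (A ρ : ℝ) * (p ρ : ℝ) ^ n₀ * (w ρ : ℝ) ^ k * (q ρ : ℝ) ^ (a ρ * k) /
    (q ρ : ℝ) ^ ι ρ with hc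
  have hrow : ∀ ρ ∈ S, ∀ t : ℕ, ∃ z : ℤ, (A ρ : ℝ) * (p ρ : ℝ) ^ (n₀ + G * t) / (q ρ : ℝ) ^ ι ρ =
      ∑ k ∈ range (K + 1), (A ρ : ℝ) * (p ρ : ℝ) ^ n₀ * (w ρ : ℝ) ^ k * (q ρ : ℝ) ^ (a ρ * k) /
        (q ρ : ℝ) ^ ι ρ * (t.choose k : ℝ) + z := by
    intro ρ hρ t
    obtain ⟨e, he⟩ := one_add_pow_trunc (q ρ ^ a ρ * w ρ) t K
    have h3 : (p ρ : ℝ) ^ (n₀ + G * t) = (p ρ : ℝ) ^ n₀ * (∑ k ∈ range (K + 1), (t.choose k : ℝ) *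
        ((q ρ : ℝ) ^ a ρ * w ρ) ^ k + ((q ρ : ℝ) ^ a ρ * w ρ) ^ (K + 1) * e) := by
      rw [pow_add, pow_mul]
      have : (p ρ : ℝ) ^ G = 1 + (q ρ : ℝ) ^ a ρ * w ρ := by exact_mod_cast hG ρ hρ
      rw [this]
      have he' : (1 + (q ρ : ℝ) ^ a ρ * w ρ) ^ t = ∑ k ∈ range (K + 1), (t.choose k : ℝ) *
          ((q ρ : ℝ) ^ a ρ * w ρ) ^ k + ((q ρ : ℝ) ^ a ρ * w ρ) ^ (K + 1) * e := by exact_mod_cast he
      rw [he']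
    refine ⟨A ρ * (p ρ : ℤ) ^ n₀ * (w ρ : ℤ) ^ (K + 1) * (q ρ : ℤ) ^ ((K + 1) * a ρ - ι ρ) * e, ?_⟩
    rw [h3]
    have hq0' := hq0 ρ
    have e1 : (q ρ : ℝ) ^ (a ρ * (K + 1)) = (q ρ : ℝ) ^ ι ρ * (q ρ : ℝ) ^ ((K + 1) * a ρ - ι ρ) := by
      rw [← pow_add, Nat.mul_comm (a ρ)]
      congr 1
      have := ha ρ hρ
      omega
    have e2 : (A ρ : ℝ) * ((p ρ : ℝ) ^ n₀ * (((q ρ : ℝ) ^ a ρ * w ρ) ^ (K + 1) * e)) /
        (q ρ : ℝ) ^ ι ρ =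
        ((A ρ * (p ρ : ℤ) ^ n₀ * (w ρ : ℤ) ^ (K + 1) * (q ρ : ℤ) ^ ((K + 1) * a ρ - ι ρ) * e : ℤ) : ℝ) := by
      push_cast
      rw [div_eq_iff (by positivity), mul_pow, ← pow_mul]
      linear_combination ((A ρ : ℝ) * (p ρ : ℝ) ^ n₀ * (w ρ : ℝ) ^ (K + 1) * e) * e1
    rw [← e2, mul_add, mul_add, add_div]
    congr 1
    rw [mul_sum, mul_sum, sum_div]
    apply sum_congr rfl
    intro k _
    rw [mul_pow, ← pow_mul]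
    ring
  have hphase : ∀ t : ℕ, ee (∑ ρ ∈ S, (A ρ : ℝ) * (p ρ : ℝ) ^ (n₀ + G * t) / (q ρ : ℝ) ^ ι ρ) =
      ee (∑ k ∈ range (K + 1), c k * (t.choose k : ℝ)) := by
    intro t
    choose! z hz using fun ρ hρ => hrow ρ hρ t
    rw [sum_congr rfl hz, sum_add_distrib, sum_comm, ee_add]
    have h5 : ee (∑ ρ ∈ S, (z ρ : ℝ)) = 1 := by
      rw [← Int.cast_sum]
      exact ee_int _
    rw [h5, mul_one]
    congr 1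
    refine sum_congr rfl fun k _ => ?_
    rw [hc, sum_mul]
  rw [sum_congr rfl (fun t _ => hphase t)] at hcon
  obtain ⟨Q, hQ1, hQ2, b', hb'⟩ := hI T u _ _ hT hu (Ph_choose K c) (by
    have := (div_lt_iff₀ hu0).1 hcon
    linarith)
  set Z : ℤ := ∑ ρ ∈ S with q ρ = b, A ρ * (b : ℤ) ^ (ι0 - ι ρ) * (p ρ : ℤ) ^ n₀ * (w ρ : ℤ) ^ K with hZ
  set z0 : ℤ := ∑ ρ ∈ S with ¬ q ρ = b, A ρ * (p ρ : ℤ) ^ n₀ * (w ρ : ℤ) ^ K *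
    (q ρ : ℤ) ^ (a ρ * K - ι ρ) with hz0
  have hcK : c K = (Z : ℝ) / (b : ℝ) ^ r + z0 := by
    rw [hc]
    simp only
    rw [← Finset.sum_filter_add_sum_filter_not S (fun ρ => q ρ = b)]
    congr 1
    · rw [hZ]
      push_cast
      rw [sum_div]
      refine sum_congr rfl fun ρ hρ => ?_
      rw [mem_filter] at hρ
      obtain ⟨h5, h6⟩ := hab ρ hρ.1 hρ.2
      rw [hρ.2, h5, div_eq_div_iff (by positivity) (by positivity)]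
      have h7 : (b : ℝ) ^ (α * K) * (b : ℝ) ^ r = (b : ℝ) ^ (ι0 - ι ρ) * (b : ℝ) ^ ι ρ := by
        rw [← pow_add, ← pow_add, Nat.mul_comm α K]
        congr 1
        omega
      linear_combination ((A ρ : ℝ) * (p ρ : ℝ) ^ n₀ * (w ρ : ℝ) ^ K) * h7
    · rw [hz0]
      push_cast
      refine sum_congr rfl fun ρ hρ => ?_
      rw [mem_filter] at hρ
      have h5 := hac ρ hρ.1 hρ.2
      have hq0' := hq0 ρ
      have h7 : (q ρ : ℝ) ^ (a ρ * K) = (q ρ : ℝ) ^ (a ρ * K - ι ρ) * (q ρ : ℝ) ^ ι ρ := by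
        rw [← pow_add]
        congr 1
        rw [Nat.mul_comm] at h5
        omega
      rw [div_eq_iff (by positivity), h7]
      ring
  rw [hcK] at hb'
  have hbr : (0 : ℝ) < (b : ℝ) ^ r := by positivity
  have hT0 : (0 : ℝ) < (T : ℝ) ^ K := by
    have : (0 : ℝ) < T := by exact_mod_cast hT
    positivity
  have hlt : |((Q * Z - (b : ℤ) ^ r * (b' - Q * z0) : ℤ) : ℝ)| < 1 := by
    have e1 : ((Q * Z - (b : ℤ) ^ r * (b' - Q * z0) : ℤ) : ℝ) =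
        (b : ℝ) ^ r * (Q * (Z / (b : ℝ) ^ r + z0) - b') := by
      push_cast
      field_simp
      ring
    rw [e1, abs_mul, abs_of_pos hbr]
    calc (b : ℝ) ^ r * |Q * (Z / (b : ℝ) ^ r + z0) - b'| ≤ (b : ℝ) ^ r * (cI * u ^ mI / (T : ℝ) ^ K) :=
          mul_le_mul_of_nonneg_left hb' hbr.le
      _ = (cI * u ^ mI * (b : ℝ) ^ r) / (T : ℝ) ^ K := by ring
      _ < 1 := by rw [div_lt_one hT0]; exact h2
  have h0 : (Q : ℤ) * Z - (b : ℤ) ^ r * (b' - Q * z0) = 0 := by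
    rw [← Int.abs_lt_one_iff]
    exact_mod_cast hlt
  have hdvd : (b : ℤ) ^ r ∣ Q * Z := ⟨b' - Q * z0, by linarith⟩
  obtain ⟨v, y, hv, hy, hZy⟩ := nd_val hb hnd
  have hbp := Nat.prime_iff_prime_int.1 hb
  have h3 : (b : ℤ) ^ (r - v) ∣ Q := by
    rw [hZy] at hdvd
    have e1 : (b : ℤ) ^ r = (b : ℤ) ^ v * (b : ℤ) ^ (r - v) := by
      rw [← pow_add]
      congr 1
      omega
    have e2 : (Q : ℤ) * ((b : ℤ) ^ v * y) = (b : ℤ) ^ v * (Q * y) := by ring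
    rw [e1, e2] at hdvd
    have h4 := (mul_dvd_mul_iff_left (pow_ne_zero v hbp.ne_zero)).1 hdvd
    have h5 : IsCoprime ((b : ℤ) ^ (r - v)) y := by
      apply IsCoprime.pow_left
      exact hbp.coprime_iff_not_dvd.2 hy
    exact h5.dvd_of_dvd_mul_right h4
  have h3' : b ^ (r - v) ∣ Q := by exact_mod_cast h3
  have h4 : b ^ (r - c0) ∣ Q := (pow_dvd_pow b (show r - c0 ≤ r - v by omega)).trans h3'
  have h5 := Nat.le_of_dvd (by omega) h4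
  have h6 : (b : ℝ) ^ (r - c0) ≤ Q := by exact_mod_cast h5
  linarith

end Pool.Agent.T9h42.JB
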