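import Pool.Agent.T9h42.JB.VSum

/-!
# Exponential sums over several powers modulo products of prime powers: the theorem
-/

set_option autoImplicit false
set_option linter.unusedSectionVars false

namespace Pool.Agent.T9h42.JB

open Finset Filter Topology Real
open Pool.Agent.H373R2.NB
open Pool.Agent.W301.TD.AA
open Pool.Agent.Helper602.MK (ee)
open Pool.Agent.Helper602.MK.N_J5b (norm_ee ee_add ee_int)

variable {R : Type} [Fintype R] [DecidableEq R]

lemma prod_split {P : Finset ℕ} {c : ℕ} (hc : c ∈ P) (g : ℕ) (f h : ℕ → ℕ) :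
    g * (∏ c ∈ P, c ^ h c) * ∏ c ∈ P, c ^ f c = g * (c ^ (h c + f c) * ∏ c' ∈ P.erase c, c' ^ (h c' + f c')) := by
  rw [mul_assoc, ← prod_mul_distrib]
  congr 1
  rw [← Finset.mul_prod_erase P _ hc, pow_add]
  congr 1
  exact prod_congr rfl fun c' _ => (pow_add _ _ _).symm

/-- products of other primes -/
lemma not_dvd_prod {P : Finset ℕ} (hP : ∀ c ∈ P, c.Prime) {b : ℕ} (hb : b.Prime) (f : ℕ → ℕ) :
    ¬ b ∣ ∏ c ∈ P.erase b, c ^ f c := by
  intro h
  obtain ⟨σ, hσ, h1⟩ := (Prime.dvd_finsetProd_iff hb.prime _).1 h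
  rw [mem_erase] at hσ
  have h2 := (Nat.prime_dvd_prime_iff_eq hb (hP σ hσ.2)).1 (hb.dvd_of_dvd_pow h1)
  exact hσ.1 h2.symm

/-- the leading coefficients -/
lemma lead_nd {q p : R → ℕ} {b : ℕ} (hb : b.Prime) {c0 D m n1 N0 : ℕ} {S : Finset R} {l : R → ℤ}
    {w : R → ℕ} {B : R → ℤ} (hm : ¬ b ∣ m)
    (hnd : nd b c0 (∑ i ∈ S with q i = b, B i * (p i : ℤ) ^ n1 * l i ^ D))
    (hw : ∀ i ∈ S, q i = b → (b : ℤ) ^ (c0 + 1) ∣ w i - m * l i)
    (hN : ∀ i ∈ S, q i = b → (b : ℤ) ^ (c0 + 1) ∣ (p i : ℤ) ^ N0 - 1) :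
    nd b c0 (∑ i ∈ S with q i = b, B i * (p i : ℤ) ^ (n1 + N0) * (w i : ℤ) ^ D) := by
  have h1 : nd b 0 ((m : ℤ) ^ D) := by
    rw [nd_zero_iff]
    intro h
    exact hm (by exact_mod_cast (Nat.prime_iff_prime_int.1 hb).dvd_of_dvd_pow h)
  have h2 := h1.mul hb hnd
  rw [zero_add] at h2
  refine h2.congr ?_
  rw [mul_sum, ← sum_sub_distrib]
  refine Finset.dvd_sum fun i hi => ?_
  rw [mem_filter] at hi
  have e1 : B i * (p i : ℤ) ^ (n1 + N0) * (w i : ℤ) ^ D - (m : ℤ) ^ D * (B i * (p i : ℤ) ^ n1 * l i ^ D) =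
      B i * (p i : ℤ) ^ n1 * (((p i : ℤ) ^ N0 - 1) * (w i : ℤ) ^ D + ((w i : ℤ) ^ D - (m * l i) ^ D)) := by
    rw [pow_add, mul_pow]
    ring
  rw [e1]
  refine Dvd.dvd.mul_left (dvd_add (Dvd.dvd.mul_right (hN i hi.1 hi.2) _) ?_) _
  exact (hw i hi.1 hi.2).trans (sub_dvd_pow_sub_pow _ _ D)

theorem expsumV {q p : R → ℕ} (hq : ∀ ρ, (q ρ).Prime) (hp2 : ∀ ρ, 2 ≤ p ρ) (hp : ∀ ρ, ¬ q ρ ∣ p ρ)
    (hne : ∀ i j, i ≠ j → q i = q j → p i ≠ p j) {δ C : ℝ} (hδ : 0 < δ) (hC : 0 ≤ C) :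
    ∃ η : ℝ, 0 < η ∧ ∃ M0 : ℕ, ∀ M : ℕ, M0 ≤ M → ∀ S : Finset R, S.Nonempty → ∀ ι : R → ℕ,
      (∀ ρ ∈ S, δ * log M ≤ ι ρ ∧ (ι ρ : ℝ) ≤ C * log M) → ∀ A : R → ℤ,
      (∀ ρ ∈ S, ¬ (q ρ : ℤ) ∣ A ρ) →
      ‖∑ n ∈ range M, ee (∑ ρ ∈ S, (A ρ : ℝ) * (p ρ : ℝ) ^ n / (q ρ : ℝ) ^ ι ρ)‖ ≤
        M * exp (-(η * log M)) := by
  have hq2 : ∀ ρ, (2 : ℝ) ≤ q ρ := fun ρ => by exact_mod_cast (hq ρ).two_le
  have hq0 : ∀ ρ, (0 : ℝ) < q ρ := fun ρ => by linarith [hq2 ρ]
  have hlq : ∀ ρ, 1 / 2 ≤ log (q ρ : ℝ) := fun ρ => by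
    have h4 : log 2 ≤ log (q ρ : ℝ) := Real.log_le_log (by norm_num) (hq2 ρ)
    have := Real.log_two_gt_d9
    linarith
  set Λ : ℝ := ∑ ρ, log (q ρ : ℝ) with hΛ
  have hΛ0 : 0 ≤ Λ := sum_nonneg fun ρ _ => by linarith [hlq ρ]
  set K : ℕ := ⌈8 * C * Λ⌉₊ + 1 with hK
  have hK1 : 1 ≤ K := by omega
  have hKR : 8 * C * Λ ≤ K := by
    rw [hK]
    push_cast
    have := Nat.le_ceil (8 * C * Λ)
    linarith
  have hKpos : (0 : ℝ) < K := by exact_mod_cast hK1
  set Km : ℕ := K + Fintype.card R with hKm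
  have hKm0 : (0 : ℝ) < (Km : ℝ) + 1 := by positivity
  obtain ⟨cI, mI, hcI, hI⟩ := iw_unif Km
  have hcI1 : (1 : ℝ) ≤ cI := by exact_mod_cast hcI
  set G0 : ℕ := ∏ ρ, (q ρ ^ 2).totient with hG0
  have hG01 : 1 ≤ G0 := by
    rw [hG0]
    exact Nat.one_le_iff_ne_zero.2 (prod_ne_zero_iff.2 fun ρ _ =>
      (Nat.totient_pos.2 (pow_pos (hq ρ).pos 2)).ne')
  have hG0R : (1 : ℝ) ≤ G0 := by exact_mod_cast hG01
  obtain ⟨cb, hcons⟩ := consts hq hp2 hp hne hG01 (fun ρ => Finset.dvd_prod_of_mem _ (mem_univ ρ))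
  set c0 : ℕ := Km * cb with hc0
  obtain ⟨l, hl1, hl2, hl3⟩ := hcons c0
  set P : Finset ℕ := univ.image q with hP
  have hPp : ∀ c ∈ P, c.Prime := fun c hc => by
    rw [hP, mem_image] at hc
    obtain ⟨ρ, -, rfl⟩ := hc
    exact hq ρ
  have hqP : ∀ ρ, q ρ ∈ P := fun ρ => mem_image_of_mem _ (mem_univ ρ)
  set Pi0 : ℕ := G0 * ∏ c ∈ P, c ^ c0 with hPi0
  have hPi01 : 1 ≤ Pi0 := Nat.one_le_iff_ne_zero.2 (Nat.mul_ne_zero (by omega)
    (prod_ne_zero_iff.2 fun c hc => (pow_pos (hPp c hc).pos _).ne'))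
  have hPi0R : (1 : ℝ) ≤ Pi0 := by exact_mod_cast hPi01
  set η : ℝ := min (δ / (8 * (Km + 1) * (mI + 1))) (1 / (16 * (mI + 1))) with hη
  have hm0 : (0 : ℝ) < (mI : ℝ) + 1 := by positivity
  have hη0 : 0 < η := lt_min (by positivity) (by positivity)
  have hη1 : η * (mI + 1) ≤ δ / (8 * (Km + 1)) := by
    have h1 : η ≤ δ / (8 * (Km + 1) * (mI + 1)) := min_le_left _ _
    rw [← div_div, le_div_iff₀ hm0] at h1
    exact h1
  have hη2 : η * (mI + 1) ≤ 1 / 16 := by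
    have h1 : η ≤ 1 / (16 * (mI + 1)) := min_le_right _ _
    rw [← div_div, le_div_iff₀ hm0] at h1
    exact h1
  have hη3 : η ≤ 1 / 16 := by
    have : (0 : ℝ) ≤ mI := Nat.cast_nonneg _
    nlinarith
  have hη4 : η * mI ≤ δ / (8 * (Km + 1)) := by nlinarith
  have hη5 : η * mI ≤ 1 / 16 := by nlinarith
  have hlog : Tendsto (fun M : ℕ => log (M : ℝ)) atTop atTop :=
    Real.tendsto_log_atTop.comp tendsto_natCast_atTop_atTop
  obtain ⟨M0, hM0⟩ := eventually_atTop.1 ((eventually_ge_atTop 1).and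
    ((hlog.eventually_ge_atTop ((c0 + 2 + Km) * (Km + 1) / δ)).and
    ((hlog.eventually_ge_atTop ((log cI + (Km + c0) / 2 + 1) * (Km + 1) / (δ * (3 / 8)))).and
    ((hlog.eventually_ge_atTop ((log (2 * G0) + Λ + log cI + 1) * 16)).and
    ((hlog.eventually_ge_atTop (log 3 / (η / 2))).and
    (hlog.eventually_ge_atTop (log Pi0 * 16)))))))
  refine ⟨η / 2, by positivity, M0, fun M hM S hS ι hι A hA => ?_⟩
  obtain ⟨m1, m2, m3, m4, m5, m6⟩ := hM0 M hM
  set X : ℝ := log (M : ℝ) with hX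
  have hMp : (0 : ℝ) < M := by exact_mod_cast m1
  have hMX : (M : ℝ) = exp X := (Real.exp_log hMp).symm
  have hX0 : 0 ≤ X := Real.log_natCast_nonneg M
  rw [div_le_iff₀ hδ] at m2
  rw [div_le_iff₀ (by positivity)] at m3 m5
  have hlc : 0 ≤ log (cI : ℝ) := Real.log_nonneg hcI1
  have hl2' : 0 ≤ log (2 : ℝ) := Real.log_nonneg (by norm_num)
  have hlG : log (2 * (G0 : ℝ)) = log 2 + log G0 := Real.log_mul (by norm_num) (by linarith)
  have hlG0 : 0 ≤ log (G0 : ℝ) := Real.log_nonneg hG0R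
  have hcK : (c0 : ℝ) + 2 + Km ≤ δ * X / (Km + 1) := by
    rw [le_div_iff₀ hKm0]
    linarith
  obtain ⟨i0, hi0, hmax, hdeg⟩ := degree hq hp hl1 hl2 K hS ι A hA
  set b : ℕ := q i0 with hb
  have hbP : b ∈ P := hqP i0
  have hb0 : (0 : ℝ) < b := hq0 i0
  set u : ℝ := exp (η * X) with hu
  have hu1 : 1 ≤ u := Real.one_le_exp (by positivity)
  have hu0 : 0 < u := by linarith
  have hum : u ^ mI = exp (η * mI * X) := by
    rw [hu, ← Real.exp_nat_mul]
    congr 1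
    ring
  have hcIe : (cI : ℝ) = exp (log cI) := (Real.exp_log (by linarith)).symm
  set f : ℕ → ℂ := fun n => ee (∑ ρ ∈ S, (A ρ : ℝ) * (p ρ : ℝ) ^ n / (q ρ : ℝ) ^ ι ρ) with hf
  have hf1 : ∀ n, ‖f n‖ ≤ 1 := fun n => (norm_ee _).le
  set Bd : ℝ := (M / u + exp (3 * X / 16)) / Pi0 with hBd
  have hin : ∀ n1 < Pi0, ‖∑ s ∈ range (M / Pi0), f (n1 + Pi0 * s)‖ ≤ Bd := by
    intro n1 _
    obtain ⟨D, hD1, hD2, hnd⟩ := hdeg n1
    have hD0 : 1 ≤ D := by omega
    have hDpos : (0 : ℝ) < (D : ℝ) + 1 := by positivity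
    have hDK : (K : ℝ) ≤ D := by exact_mod_cast hD1
    have hDKm : (D : ℝ) ≤ Km := by exact_mod_cast hD2.le
    set α : ℕ := (ι i0 + D) / (D + 1) with hα
    set β : ℕ := ⌈C * X / K⌉₊ with hβ
    have ha1 : (D + 1) * α ≤ ι i0 + D := Nat.mul_div_le _ _
    have ha2 : ι i0 ≤ (D + 1) * α := by
      have h1 := Nat.div_add_mod (ι i0 + D) (D + 1)
      have h2 := Nat.mod_lt (ι i0 + D) (show 0 < D + 1 by omega)
      have h3 : (D + 1) * α = (D + 1) * ((ι i0 + D) / (D + 1)) := rfl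
      omega
    have ha3 : δ * X / (Km + 1) ≤ α := by
      have h1 : (ι i0 : ℝ) ≤ (D + 1) * α := by exact_mod_cast ha2
      have h2 := (hι i0 hi0).1
      rw [div_le_iff₀ hKm0]
      have h3 : (0 : ℝ) ≤ α := Nat.cast_nonneg _
      nlinarith
    have ha4 : (α : ℝ) ≤ C * X / K + 1 := by
      have h1 : ((D : ℝ) + 1) * α ≤ ι i0 + D := by exact_mod_cast ha1
      have h2 := (hι i0 hi0).2
      have h3 : C * X / K * K = C * X := by field_simp
      have h4 : 0 ≤ C * X / K := by positivity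
      have h5 : (D + 1 : ℝ) * α ≤ (D + 1) * (C * X / K + 1) := by nlinarith
      exact le_of_mul_le_mul_left h5 hDpos
    have hb1 : C * X ≤ K * β := by
      have h1 := Nat.le_ceil (C * X / K)
      rw [div_le_iff₀ hKpos] at h1
      linarith
    have hb3 : δ * X / (Km + 1) ≤ β := by
      have h2 := hι i0 hi0
      rw [div_le_iff₀ hKm0]
      have h3 : (0 : ℝ) ≤ β := Nat.cast_nonneg _
      have h4 : (K : ℝ) ≤ Km := by
        rw [hKm]
        push_cast
        have : (0 : ℝ) ≤ Fintype.card R := Nat.cast_nonneg _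
        linarith
      nlinarith
    have hb4 : (β : ℝ) ≤ C * X / K + 1 := (Nat.ceil_lt_add_one (by positivity)).le
    have hbι : ∀ ρ ∈ S, ι ρ ≤ D * β := by
      intro ρ hρ
      have h1 := (hι ρ hρ).2
      have h2 : (ι ρ : ℝ) ≤ D * β := by
        have h3 : (0 : ℝ) ≤ β := Nat.cast_nonneg _
        nlinarith
      exact_mod_cast h2
    set aP : ℕ → ℕ := fun c => if c = b then α else β with haP
    have haPb : aP b = α := if_pos rfl
    have haPn : ∀ c, c ≠ b → aP c = β := fun c hc => if_neg hc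
    have haP2 : ∀ c, c0 + 2 ≤ aP c := by
      intro c
      have h1 : (c0 : ℝ) + 2 ≤ aP c := by
        have : (0 : ℝ) ≤ Km := Nat.cast_nonneg _
        rw [haP]
        simp only
        split_ifs
        · linarith
        · linarith
      exact_mod_cast h1
    have haP4 : ∀ c, (aP c : ℝ) ≤ C * X / K + 1 := by
      intro c
      rw [haP]
      simp only
      split_ifs
      · exact ha4
      · exact hb4
    have hDα : D ≤ α := by
      have : (D : ℝ) ≤ α := by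
        have : (0 : ℝ) ≤ c0 := Nat.cast_nonneg _
        linarith
      exact_mod_cast this
    set r : ℕ := ι i0 - D * α with hr
    have e0 : (D + 1) * α = D * α + α := by ring
    have hr1 : ι i0 = r + D * α := by omega
    have hr2 : r ≤ α := by omega
    have hr3 : α ≤ r + D := by omega
    -- the step
    set G' : ℕ := ∏ c ∈ P, c ^ (aP c - 2 - c0) with hG'
    have hG'1 : 1 ≤ G' := Nat.one_le_iff_ne_zero.2
      (prod_ne_zero_iff.2 fun c hc => (pow_pos (hPp c hc).pos _).ne')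
    have hGG : ∀ c ∈ P, Pi0 * G' = G0 * (c ^ (aP c - 2) * ∏ c' ∈ P.erase c, c' ^ (aP c' - 2)) := by
      intro c hc
      have h1 := prod_split hc G0 (fun c => aP c - 2 - c0) (fun _ => c0)
      have e1 : ∀ c, c0 + (aP c - 2 - c0) = aP c - 2 := fun c => by
        have := haP2 c
        omega
      simp only [e1] at h1
      exact h1
    have hw : ∀ ρ : R, ∃ W : ℕ, p ρ ^ (Pi0 * G') = 1 + q ρ ^ aP (q ρ) * W ∧
        (q ρ : ℤ) ^ (c0 + 1) ∣ W - ((∏ c' ∈ P.erase (q ρ), c' ^ (aP c' - 2) : ℕ) : ℤ) * l ρ := by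
      intro ρ
      obtain ⟨W, h1, h2⟩ := hl3 ρ (aP (q ρ) - 2) (by have := haP2 (q ρ); omega)
        (∏ c' ∈ P.erase (q ρ), c' ^ (aP c' - 2))
      refine ⟨W, ?_, h2⟩
      rw [hGG _ (hqP ρ), h1]
      congr 3
      have := haP2 (q ρ)
      omega
    choose w hw1 hw2 using hw
    have hprod : ∀ g : ℕ → ℕ, (∀ c, g c ≤ aP c) → ∏ c ∈ P, (c : ℝ) ^ g c ≤ exp (Λ + X / 8) := by
      intro g hg
      have hcp : ∀ c ∈ P, (0 : ℝ) < c := fun c hc => by exact_mod_cast (hPp c hc).pos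
      have hcl : ∀ c ∈ P, 0 ≤ log (c : ℝ) := fun c _ => Real.log_natCast_nonneg c
      have h1 : ∏ c ∈ P, (c : ℝ) ^ g c ≤ ∏ c ∈ P, exp ((C * X / K + 1) * log c) := by
        refine prod_le_prod (fun c hc => (pow_pos (hcp c hc) _).le) fun c hc => ?_
        have h2 : (c : ℝ) ^ g c = exp (g c * log c) := by
          rw [mul_comm, Real.exp_mul, Real.exp_log (hcp c hc), Real.rpow_natCast]
        rw [h2]
        apply exp_le_exp.2
        apply mul_le_mul_of_nonneg_right _ (hcl c hc)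
        have h3 : (g c : ℝ) ≤ aP c := by exact_mod_cast hg c
        linarith [haP4 c]
      refine h1.trans ?_
      rw [← Real.exp_sum, ← mul_sum]
      apply exp_le_exp.2
      have h4 : ∑ c ∈ P, log (c : ℝ) ≤ Λ := by
        rw [hP, hΛ]
        exact sum_image_le_of_nonneg (s := univ) (g := q) (f := fun c : ℕ => log (c : ℝ))
          (fun c _ => Real.log_natCast_nonneg c)
      have h5 : 0 ≤ C * X / K := by positivity
      have h6 : C * X / K * Λ ≤ X / 8 := by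
        rw [div_mul_eq_mul_div, div_le_iff₀ hKpos]
        nlinarith
      nlinarith
    have hGle : ((Pi0 * G' : ℕ) : ℝ) ≤ G0 * exp (Λ + X / 8) := by
      have h1 := prod_split hbP G0 (fun c => aP c - 2 - c0) (fun _ => c0)
      have h2 : Pi0 * G' = G0 * ∏ c ∈ P, c ^ (aP c - 2) := by
        rw [hPi0, hG', mul_assoc, ← prod_mul_distrib]
        congr 1
        refine prod_congr rfl fun c _ => ?_
        rw [← pow_add]
        congr 1
        have := haP2 c
        omega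
      rw [h2]
      push_cast
      exact mul_le_mul_of_nonneg_left (hprod _ fun c => Nat.sub_le _ _) (by positivity)
    have hG1 : 1 ≤ Pi0 * G' := Nat.one_le_iff_ne_zero.2 (by positivity)
    have hGR : (1 : ℝ) ≤ (Pi0 * G' : ℕ) := by exact_mod_cast hG1
    have hGle2 : 2 * ((Pi0 * G' : ℕ) : ℝ) ≤ exp (3 * X / 16) := by
      have h1 : (2 * G0 : ℝ) = exp (log (2 * G0)) := (Real.exp_log (by positivity)).symm
      calc 2 * ((Pi0 * G' : ℕ) : ℝ) ≤ 2 * (G0 * exp (Λ + X / 8)) := by gcongr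
        _ = (2 * G0) * exp (Λ + X / 8) := by ring
        _ = exp (log (2 * G0) + (Λ + X / 8)) := by
            rw [Real.exp_add (log (2 * (G0 : ℝ))), ← h1]
        _ ≤ _ := exp_le_exp.2 (by linarith)
    set T : ℕ := M / Pi0 / G' with hT
    have hTdef : T = M / (Pi0 * G') := by rw [hT, Nat.div_div_eq_div_mul]
    have hTG : ((Pi0 * G' : ℕ) : ℝ) * T ≤ M := by
      rw [hTdef]; exact_mod_cast Nat.mul_div_le M (Pi0 * G')
    have hTlt : (M : ℝ) < (Pi0 * G' : ℕ) * T + (Pi0 * G' : ℕ) := by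
      have h1 := Nat.div_add_mod M (Pi0 * G')
      have h2 := Nat.mod_lt M hG1
      have h3 : M < (Pi0 * G') * T + (Pi0 * G') := by rw [hTdef]; omega
      exact_mod_cast h3
    have hTbig : exp (X / 2) ≤ T := by
      have h1 : 2 * exp (X / 2) * (Pi0 * G' : ℕ) ≤ M := by
        rw [hMX]
        calc 2 * exp (X / 2) * (Pi0 * G' : ℕ) = exp (X / 2) * (2 * (Pi0 * G' : ℕ)) := by ring
          _ ≤ exp (X / 2) * exp (3 * X / 16) := by gcongr
          _ = exp (X / 2 + 3 * X / 16) := (Real.exp_add _ _).symm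
          _ ≤ _ := exp_le_exp.2 (by linarith)
      have h2 : 2 * exp (X / 2) < T + 1 := by
        have : 2 * exp (X / 2) * (Pi0 * G' : ℕ) < (T + 1) * (Pi0 * G' : ℕ) := by linarith
        exact lt_of_mul_lt_mul_right this (by linarith)
      have h4 : (1 : ℝ) ≤ exp (X / 2) := Real.one_le_exp (by positivity)
      linarith
    have hT1' : (1 : ℝ) ≤ T := (Real.one_le_exp (by positivity)).trans hTbig
    have hT1 : 1 ≤ T := by exact_mod_cast hT1'
    have hc0r : c0 ≤ r := by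
      have h1 : (c0 : ℝ) ≤ r := by
        have h2 : (α : ℝ) ≤ r + D := by exact_mod_cast hr3
        linarith
      exact_mod_cast h1
    have hc1 : (cI : ℝ) * u ^ mI < (b : ℝ) ^ (r - c0) := by
      have h2 : (b : ℝ) ^ (r - c0) = exp ((r - c0 : ℕ) * log b) := by
        rw [mul_comm, Real.exp_mul, Real.exp_log hb0, Real.rpow_natCast]
      rw [h2, hum, hcIe, ← Real.exp_add]
      apply exp_lt_exp.2
      have h3 : (α : ℝ) ≤ r + D := by exact_mod_cast hr3
      have h5 : η * mI * X ≤ δ / (8 * (Km + 1)) * X := mul_le_mul_of_nonneg_right hη4 hX0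
      have h6 : δ / (8 * (Km + 1)) * X = δ * X / (Km + 1) / 8 := by field_simp
      have h7 : log cI + (Km + c0) / 2 + 1 ≤ 3 / 8 * (δ * X / (Km + 1)) := by
        rw [← mul_div_assoc, le_div_iff₀ hKm0]
        linarith
      have h8 : ((r - c0 : ℕ) : ℝ) * (1 / 2) ≤ (r - c0 : ℕ) * log b :=
        mul_le_mul_of_nonneg_left (hlq i0) (Nat.cast_nonneg _)
      rw [Nat.cast_sub hc0r] at h8 ⊢
      linarith
    have hc2 : (cI : ℝ) * u ^ mI * (b : ℝ) ^ r < (T : ℝ) ^ D := by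
      have h1 : (b : ℝ) ^ r ≤ exp (Λ + X / 8) := by
        refine le_trans ?_ (hprod (fun c => if c = b then r else 0) (fun c => ?_))
        · rw [← Finset.mul_prod_erase P _ hbP, if_pos rfl]
          rw [Finset.prod_eq_one, mul_one]
          intro c hc
          rw [if_neg (ne_of_mem_erase hc), pow_zero]
        · split_ifs with hcb
          · rw [hcb, haPb]
            exact hr2
          · exact Nat.zero_le _
      have h2 : (cI : ℝ) * u ^ mI * (b : ℝ) ^ r ≤ exp (log cI + η * mI * X + (Λ + X / 8)) := by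
        rw [Real.exp_add, Real.exp_add, ← hcIe, ← hum]
        exact mul_le_mul_of_nonneg_left h1 (by positivity)
      have h3 : exp (log cI + η * mI * X + (Λ + X / 8)) < exp (X / 2) := by
        apply exp_lt_exp.2
        have h5 : η * mI * X ≤ 1 / 16 * X := mul_le_mul_of_nonneg_right hη5 hX0
        linarith
      calc _ ≤ _ := h2
        _ < _ := h3
        _ ≤ T := hTbig
        _ = (T : ℝ) ^ 1 := (pow_one _).symm
        _ ≤ (T : ℝ) ^ D := pow_le_pow_right₀ hT1' hD0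
    have hblk : ∀ s0 < G', ‖∑ t ∈ range (M / Pi0 / G'), f (n1 + Pi0 * (s0 + G' * t))‖ ≤ T / u := by
      intro s0 _
      have e1 : ∀ t : ℕ, n1 + Pi0 * (s0 + G' * t) = (n1 + Pi0 * s0) + (Pi0 * G') * t := fun t => by ring
      simp only [e1]
      refine blkV (a := fun ρ => aP (q ρ)) (w := w) hq (hq i0) (hI D hD0 hD2.le)
        (n₀ := n1 + Pi0 * s0) (fun ρ _ => hw1 ρ) (fun ρ hρ => ?_)
        (fun ρ hρ h => ⟨by rw [h]; exact haPb, hmax ρ hρ h⟩) hr1 (fun ρ hρ h => ?_) ?_ hc0r hT1 hu1 hc1 hc2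
      · by_cases h : q ρ = b
        · simp only [h, haPb]
          exact (hmax ρ hρ h).trans ha2
        · simp only [haPn _ h]
          exact (hbι ρ hρ).trans (Nat.mul_le_mul_right _ (Nat.le_succ _))
      · simp only [haPn _ h]
        exact hbι ρ hρ
      · refine lead_nd (hq i0) (not_dvd_prod hPp (hq i0) (fun c => aP c - 2)) hnd
          (fun i _ h => ?_) (fun i _ h => ?_)
        · have h1 := hw2 i
          rw [h] at h1
          exact h1
        · obtain ⟨W, h1, -⟩ := hl3 i c0 le_rfl ((∏ c' ∈ P.erase (q i), c' ^ c0) * s0)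
          have h2 : Pi0 * s0 = G0 * (q i ^ c0 * ((∏ c' ∈ P.erase (q i), c' ^ c0) * s0)) := by
            rw [hPi0, ← Finset.mul_prod_erase P (fun c => c ^ c0) (hqP i)]
            ring
          rw [← h2] at h1
          have h3 : (p i : ℤ) ^ (Pi0 * s0) - 1 = (b : ℤ) ^ (2 + c0) * W := by
            have : (p i : ℤ) ^ (Pi0 * s0) = 1 + (q i : ℤ) ^ (2 + c0) * W := by exact_mod_cast h1
            rw [this, h]
            ring
          rw [h3]
          exact Dvd.dvd.mul_right (pow_dvd_pow _ (by omega)) _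
    have hmain := sum_ap (fun s => f (n1 + Pi0 * s)) (fun s => hf1 _) (M / Pi0) G' hG'1
      (B := T / u) hblk
    refine hmain.trans ?_
    rw [hBd, le_div_iff₀ (by linarith)]
    have h1 : ((Pi0 * G' : ℕ) : ℝ) * (T / u) ≤ M / u := by
      rw [← mul_div_assoc]
      exact div_le_div_of_nonneg_right hTG hu0.le
    push_cast at h1 hGle2
    have h2 : (Pi0 : ℝ) * G' ≤ exp (3 * X / 16) := by
      have : (0 : ℝ) ≤ (Pi0 : ℝ) * G' := by positivity
      linarith
    calc ((G' : ℝ) * (T / u) + G') * Pi0 = (Pi0 * G') * (T / u) + Pi0 * G' := by ring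
      _ ≤ _ := add_le_add h1 h2
  have hmain := sum_ap f hf1 M Pi0 hPi01 hin
  refine hmain.trans ?_
  have h1 : (Pi0 : ℝ) * Bd = M / u + exp (3 * X / 16) := by
    rw [hBd]
    field_simp
  have h2 : M / u = M * exp (-(η * X)) := by
    rw [Real.exp_neg, ← hu]
    rfl
  have h3 : exp (3 * X / 16) ≤ M * exp (-(η * X)) := by
    rw [hMX, ← Real.exp_add]
    refine exp_le_exp.2 ?_
    have : η * X ≤ 1 / 16 * X := mul_le_mul_of_nonneg_right hη3 hX0
    linarith
  have h4 : (Pi0 : ℝ) ≤ exp (3 * X / 16) := by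
    rw [← Real.exp_log (show (0 : ℝ) < Pi0 by linarith)]
    refine exp_le_exp.2 ?_
    have h5 : 0 ≤ log (Pi0 : ℝ) := Real.log_nonneg hPi0R
    linarith
  have h5 : 3 * exp (-(η * X)) ≤ exp (-(η / 2 * X)) := by
    calc 3 * exp (-(η * X)) = exp (log 3) * exp (-(η * X)) := by
          rw [Real.exp_log (by norm_num : (0 : ℝ) < 3)]
      _ = exp (log 3 + -(η * X)) := (Real.exp_add _ _).symm
      _ ≤ _ := exp_le_exp.2 (by linarith)
  rw [h1, h2]
  calc M * exp (-(η * X)) + exp (3 * X / 16) + Pi0 ≤ M * (3 * exp (-(η * X))) := by linarith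
    _ ≤ M * exp (-(η / 2 * X)) := mul_le_mul_of_nonneg_left h5 hMp.le

end Pool.Agent.T9h42.JB
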