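import Pool.Agent.T9h42.JB.VExp

/-!
# Exponential sums over several powers modulo products of prime powers: the bound
-/

set_option autoImplicit false
set_option linter.unusedSectionVars false

namespace Pool.Agent.T9h42.JB

open Finset Filter Topology Real
open Pool.Agent.H373R2.NB
open Pool.Agent.W301.TD.AA
open Pool.Agent.Helper602.MK (ee)
open Pool.Agent.Helper602.MK.N_J5b (norm_ee ee_add ee_int)

variable {R : Type} [Fintype R] [DecidableEq R]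

/-- the constants of a family of generators -/
lemma consts {q p : R → ℕ} (hq : ∀ ρ, (q ρ).Prime) (hp2 : ∀ ρ, 2 ≤ p ρ) (hp : ∀ ρ, ¬ q ρ ∣ p ρ)
    (hne : ∀ i j, i ≠ j → q i = q j → p i ≠ p j) {G0 : ℕ} (hG0 : 1 ≤ G0)
    (hG : ∀ ρ, (q ρ ^ 2).totient ∣ G0) : ∃ cb : ℕ, ∀ j0 : ℕ, ∃ l : R → ℤ,
      (∀ i, nd (q i) cb (l i)) ∧ (∀ i j, i ≠ j → q i = q j → nd (q i) cb (l i - l j)) ∧
      ∀ i, ∀ j : ℕ, j0 ≤ j → ∀ m : ℕ, ∃ W : ℕ, p i ^ (G0 * (q i ^ j * m)) = 1 + q i ^ (2 + j) * W ∧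
        (q i : ℤ) ^ (j0 + 1) ∣ W - m * l i := by
  have hx2 : ∀ i, (q i : ℤ) ^ 2 ∣ (p i : ℤ) ^ G0 - 1 := by
    intro i
    have hcop : (p i).Coprime (q i ^ 2) := by
      apply Nat.Coprime.pow_right
      rw [Nat.coprime_comm]
      exact (Nat.Prime.coprime_iff_not_dvd (hq i)).2 (hp i)
    obtain ⟨d, hd⟩ := hG i
    have h1 : p i ^ G0 ≡ 1 [MOD q i ^ 2] := by
      rw [hd, pow_mul]
      have := (Nat.ModEq.pow_totient hcop).pow d
      rwa [one_pow] at this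
    have h2 := (Nat.modEq_iff_dvd.1 h1.symm)
    push_cast at h2
    exact h2
  have hxq : ∀ i, ¬ (q i : ℤ) ∣ (p i : ℤ) ^ G0 := fun i h =>
    hp i (by exact_mod_cast (Nat.prime_iff_prime_int.1 (hq i)).dvd_of_dvd_pow h)
  have hx1 : ∀ i, (p i : ℤ) ^ G0 - 1 ≠ 0 := by
    intro i
    have h1 : 1 < p i ^ G0 := Nat.one_lt_pow (by omega) (by have := hp2 i; omega)
    have h2 : (1 : ℤ) < (p i : ℤ) ^ G0 := by exact_mod_cast h1
    omega
  have hxx : ∀ i j, i ≠ j → q i = q j → (p i : ℤ) ^ G0 - (p j : ℤ) ^ G0 ≠ 0 := by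
    intro i j hij hqq h
    apply hne i j hij hqq
    have h1 : (p i : ℤ) ^ G0 = (p j : ℤ) ^ G0 := by linarith
    have h2 : p i ^ G0 = p j ^ G0 := by exact_mod_cast h1
    exact Nat.pow_left_injective (by omega) h2
  choose u hu using fun i => exists_nd (hq i) (hx1 i)
  have hv : ∀ i j, ∃ v, i ≠ j → q i = q j → nd (q i) v ((p i : ℤ) ^ G0 - (p j : ℤ) ^ G0) := by
    intro i j
    by_cases h : i ≠ j ∧ q i = q j
    · obtain ⟨v, hv⟩ := exists_nd (hq i) (hxx i j h.1 h.2)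
      exact ⟨v, fun _ _ => hv⟩
    · exact ⟨0, fun h1 h2 => absurd ⟨h1, h2⟩ h⟩
  choose v hv using hv
  refine ⟨∑ i, u i + ∑ i, ∑ j, v i j, fun j0 => ?_⟩
  set cb := ∑ i, u i + ∑ i, ∑ j, v i j with hcb
  have hucb : ∀ i, u i ≤ cb := fun i => by
    have := single_le_sum (f := u) (fun _ _ => Nat.zero_le _) (mem_univ i)
    omega
  have hvcb : ∀ i j, v i j ≤ cb := fun i j => by
    have h1 := single_le_sum (f := v i) (fun _ _ => Nat.zero_le _) (mem_univ j)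
    have h2 := single_le_sum (f := fun i => ∑ j, v i j) (fun _ _ => Nat.zero_le _) (mem_univ i)
    omega
  choose l hl1 hl2 using fun i => lam (hx2 i) j0
  refine ⟨l, fun i => ?_, fun i j hij hqq => ?_, fun i j hj m => ?_⟩
  · have h1 := (lte (hq i) (hx2 i) (by
      intro h
      have := Int.le_of_dvd one_pos h
      have := (hq i).two_le
      omega) ((hu i).mono (hucb i)) j0).2
    rw [one_pow, hl1 i] at h1
    exact nd.of_mul (v := 2 + j0) (h1.mono (by omega))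
  · have h1 := (lte (hq i) (x := (p i : ℤ) ^ G0) (y := (p j : ℤ) ^ G0) (by
      have h2 := dvd_sub (hx2 i) (by rw [hqq]; exact hx2 j : (q i : ℤ) ^ 2 ∣ (p j : ℤ) ^ G0 - 1)
      have e1 : (p i : ℤ) ^ G0 - 1 - ((p j : ℤ) ^ G0 - 1) = (p i : ℤ) ^ G0 - (p j : ℤ) ^ G0 := by ring
      rwa [e1] at h2) (by rw [hqq]; exact hxq j) ((hv i j hij hqq).mono (hvcb i j)) j0).2
    have h3 : ((p i : ℤ) ^ G0) ^ (q i ^ j0) - ((p j : ℤ) ^ G0) ^ (q i ^ j0) =
        (q i : ℤ) ^ (2 + j0) * (l i - l j) := by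
      have h4 := hl1 i
      have h5 := hl1 j
      rw [← hqq] at h5
      rw [mul_sub, ← h4, ← h5]
      ring
    rw [h3] at h1
    exact nd.of_mul (v := 2 + j0) (h1.mono (by omega))
  · obtain ⟨W, hW1, hW2⟩ := hl2 i j hj m
    have hqpos : (0 : ℤ) < (q i : ℤ) ^ (2 + j) := by
      have := (hq i).pos
      positivity
    have hW0 : 0 ≤ W := by
      have h1 : (1 : ℤ) ≤ ((p i : ℤ) ^ G0) ^ (q i ^ j * m) := by
        have : 0 < p i := by have := hp2 i; omega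
        exact_mod_cast Nat.one_le_iff_ne_zero.2 (by positivity)
      rw [hW1] at h1
      have h2 : 0 ≤ (q i : ℤ) ^ (2 + j) * W := by linarith
      exact nonneg_of_mul_nonneg_right h2 hqpos
    obtain ⟨W', rfl⟩ := Int.eq_ofNat_of_zero_le hW0
    refine ⟨W', ?_, hW2⟩
    rw [← pow_mul] at hW1
    exact_mod_cast hW1

/-- the class of the exponents and the degree of the polynomials -/
lemma degree {q p : R → ℕ} (hq : ∀ ρ, (q ρ).Prime) (hp : ∀ ρ, ¬ q ρ ∣ p ρ) {cb : ℕ} {l : R → ℤ}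
    (hl1 : ∀ i, nd (q i) cb (l i)) (hl2 : ∀ i j, i ≠ j → q i = q j → nd (q i) cb (l i - l j)) (K : ℕ)
    {S : Finset R} (hS : S.Nonempty) (ι : R → ℕ) (A : R → ℤ) (hA : ∀ ρ ∈ S, ¬ (q ρ : ℤ) ∣ A ρ) :
    ∃ i0 ∈ S, (∀ i ∈ S, q i = q i0 → ι i ≤ ι i0) ∧ ∀ n : ℕ, ∃ D, K ≤ D ∧ D < K + Fintype.card R ∧
      nd (q i0) ((K + Fintype.card R) * cb)
        (∑ i ∈ S with q i = q i0, A i * (q i0 : ℤ) ^ (ι i0 - ι i) * (p i : ℤ) ^ n * l i ^ D) := by
  obtain ⟨j, hj⟩ := hS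
  obtain ⟨i0, hi0, hmax⟩ := Finset.exists_max_image (S.filter fun i => q i = q j) ι
    ⟨j, mem_filter.2 ⟨hj, rfl⟩⟩
  rw [mem_filter] at hi0
  refine ⟨i0, hi0.1, fun i hi h => hmax i (mem_filter.2 ⟨hi, h.trans hi0.2⟩), fun n => ?_⟩
  set I := S.filter fun i => q i = q i0 with hI
  have hbp := Nat.prime_iff_prime_int.1 (hq i0)
  obtain ⟨k, hk, hnd⟩ := nondeg (hq i0) I l (fun i => A i * (q i0 : ℤ) ^ (ι i0 - ι i) * (p i : ℤ) ^ n)
    (i0 := i0) (mem_filter.2 ⟨hi0.1, rfl⟩) (by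
      rw [Nat.sub_self, pow_zero, mul_one]
      intro h
      rcases hbp.dvd_or_dvd h with h | h
      · exact hA i0 hi0.1 h
      · exact hp i0 (by exact_mod_cast hbp.dvd_of_dvd_pow h)) (hl1 i0)
    (fun i hi hne => hl2 i0 i hne.symm (by rw [hI, mem_filter] at hi; exact hi.2.symm)) K
  have hcard : I.card ≤ Fintype.card R := by
    rw [← Finset.card_univ]
    exact card_le_card (subset_univ _)
  refine ⟨K + k, by omega, by omega, ?_⟩
  exact hnd.mono (Nat.mul_le_mul_right _ (Nat.add_le_add_left hcard _))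

end Pool.Agent.T9h42.JB
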